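import Pool.Agent.Q120.ME.General

/-!
# Decimal palindromes with an odd number of digits: counting
-/

set_option autoImplicit false

namespace Pool.Agent.Q198.PP

open Finset Filter Pool.Agent.Q120.ME
open scoped Topology

/-- `n` is a decimal palindrome. -/
def IsPal (n : ℕ) : Prop := (Nat.digits 10 n).reverse = Nat.digits 10 n

/-- The candidates: palindromes `n ≥ 2` with an odd number of digits, prime to `10`. -/
def U : Set ℕ := {n | 2 ≤ n ∧ IsPal n ∧ Odd (Nat.digits 10 n).length ∧ n.Coprime 10}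

/-- All palindromic primes except `2`, `5`, `11` are candidates. -/
theorem prime_mem {n : ℕ} (hn : n.Prime) (hp : IsPal n) (h : n ∉ U) : n = 2 ∨ n = 5 ∨ n = 11 := by
  by_contra hcon
  push Not at hcon
  apply h
  refine ⟨hn.two_le, hp, ?_, ?_⟩
  · rw [← Nat.not_even_iff_odd]
    intro he
    have h1 : 11 ∣ n := Nat.eleven_dvd_of_palindrome ((List.Palindrome.iff_reverse_eq).2 hp) he
    exact hcon.2.2 ((Nat.prime_dvd_prime_iff_eq (by norm_num) hn).1 h1).symm
  · rw [hn.coprime_iff_not_dvd]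
    intro h1
    have h2 : n ∣ 2 * 5 := h1
    rcases (Nat.Prime.dvd_mul hn).1 h2 with h3 | h3
    · exact hcon.1 ((Nat.prime_dvd_prime_iff_eq hn (by norm_num)).1 h3)
    · exact hcon.2.1 ((Nat.prime_dvd_prime_iff_eq hn (by norm_num)).1 h3)

/-- The palindrome with the upper half `m`. -/
def pl (m : ℕ) : ℕ := Nat.ofDigits 10 ((Nat.digits 10 m).tail.reverse ++ Nat.digits 10 m)

theorem pl_eq (m : ℕ) : pl m = Nat.ofDigits 10 (Nat.digits 10 m).tail.reverse + 10 ^ ((Nat.digits 10 m).length - 1) * m := by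
  unfold pl
  rw [Nat.ofDigits_append, Nat.ofDigits_digits, List.length_reverse, List.length_tail]

theorem half_lt (m : ℕ) : Nat.ofDigits 10 (Nat.digits 10 m).tail.reverse < 10 ^ ((Nat.digits 10 m).length - 1) := by
  have h1 : Nat.ofDigits 10 (Nat.digits 10 m).tail.reverse < 10 ^ (Nat.digits 10 m).tail.reverse.length := by
    refine Nat.ofDigits_lt_base_pow_length (by norm_num) (fun x hx => ?_)
    rw [List.mem_reverse] at hx
    exact Nat.digits_lt_base (by norm_num) (List.mem_of_mem_tail hx)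
  rwa [List.length_reverse, List.length_tail] at h1

theorem pl_bounds (m : ℕ) : 10 ^ ((Nat.digits 10 m).length - 1) * m ≤ pl m ∧ pl m < 10 ^ ((Nat.digits 10 m).length - 1) * (m + 1) := by
  have h1 := pl_eq m
  have h2 := half_lt m
  constructor
  · omega
  · rw [mul_add, mul_one]
    omega

theorem digits_pl {m : ℕ} (hm : m ≠ 0) : Nat.digits 10 (pl m) = (Nat.digits 10 m).tail.reverse ++ Nat.digits 10 m := by
  unfold pl
  have hne : Nat.digits 10 m ≠ [] := Nat.digits_ne_nil_iff_ne_zero.2 hm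
  refine Nat.digits_ofDigits 10 (by norm_num) _ (fun l hl => ?_) (fun h => ?_)
  · rw [List.mem_append, List.mem_reverse] at hl
    rcases hl with hl | hl
    · exact Nat.digits_lt_base (by norm_num) (List.mem_of_mem_tail hl)
    · exact Nat.digits_lt_base (by norm_num) hl
  · rw [List.getLast_append_of_ne_nil _ hne]
    exact Nat.getLast_digit_ne_zero 10 hm

theorem pal_pl {m : ℕ} (hm : m ≠ 0) : IsPal (pl m) ∧ Odd (Nat.digits 10 (pl m)).length := by
  obtain ⟨a, s, hs⟩ : ∃ a s, Nat.digits 10 m = a :: s := by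
    rcases h : Nat.digits 10 m with _ | ⟨a, s⟩
    · exact absurd h (Nat.digits_ne_nil_iff_ne_zero.2 hm)
    · exact ⟨a, s, rfl⟩
  unfold IsPal
  rw [digits_pl hm, hs]
  constructor
  · simp
  · simp only [List.tail_cons, List.length_append, List.length_reverse, List.length_cons]
    exact ⟨s.length, by ring⟩

/-- Every palindrome with an odd number of digits is of this form. -/
theorem exists_pl {n : ℕ} (h1 : IsPal n) (h2 : Odd (Nat.digits 10 n).length) : ∃ m, m ≠ 0 ∧ n = pl m := by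
  obtain ⟨k, hk⟩ := h2
  obtain ⟨t, ht⟩ : ∃ t, t = (Nat.digits 10 n).drop k := ⟨_, rfl⟩
  have hlen : t.length = k + 1 := by
    rw [ht, List.length_drop]
    omega
  have hn0 : n ≠ 0 := by
    rintro rfl
    simp at hk
  have hne : t ≠ [] := by
    intro h
    rw [h] at hlen
    simp at hlen
  have hdig : Nat.digits 10 (Nat.ofDigits 10 t) = t := by
    refine Nat.digits_ofDigits 10 (by norm_num) _ (fun l hl => ?_) (fun h => ?_)
    · rw [ht] at hl
      exact Nat.digits_lt_base (by norm_num) (List.mem_of_mem_drop hl)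
    · have h3 : t.getLast h = (Nat.digits 10 n).getLast (Nat.digits_ne_nil_iff_ne_zero.2 hn0) := by
        subst ht
        exact List.getLast_drop h
      rw [h3]
      exact Nat.getLast_digit_ne_zero 10 hn0
  refine ⟨Nat.ofDigits 10 t, ?_, ?_⟩
  · intro h
    rw [h] at hdig
    simp only [Nat.digits_zero] at hdig
    exact hne hdig.symm
  · unfold pl
    rw [hdig]
    have h3 : t.tail.reverse ++ t = Nat.digits 10 n := by
      have h4 : t.tail = (Nat.digits 10 n).drop (k + 1) := by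
        rw [ht, List.tail_drop]
      have h5 : ((Nat.digits 10 n).drop (k + 1)).reverse = (Nat.digits 10 n).take k := by
        rw [List.reverse_drop, h1]
        congr 1
        omega
      rw [h4, h5, ht]
      exact List.take_append_drop k _
    rw [h3, Nat.ofDigits_digits]

/-- The number of the candidates below `x`. -/
noncomputable def P (x : ℕ) : ℕ := (ind U x).card

theorem mem_ind {x n : ℕ} : n ∈ ind U x ↔ n < x ∧ n ∈ U := by
  classical
  unfold ind
  rw [mem_filter, mem_range]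

theorem P_le (x : ℕ) : (P x : ℝ) ≤ Real.sqrt (10 * x) + 1 := by
  classical
  have h1 : ind U x ⊆ (range (Nat.sqrt (10 * x) + 1)).image pl := by
    intro n hn
    rw [mem_ind] at hn
    obtain ⟨hnx, -, h1, h2, -⟩ := hn
    obtain ⟨m, hm, rfl⟩ := exists_pl h1 h2
    refine mem_image.2 ⟨m, ?_, rfl⟩
    rw [mem_range, Nat.lt_succ_iff, Nat.le_sqrt]
    have h3 := (pl_bounds m).1
    have h4 : m < 10 ^ (Nat.digits 10 m).length := Nat.lt_base_pow_length_digits (by norm_num)
    have h5 : (Nat.digits 10 m).length ≠ 0 := fun h =>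
      (Nat.digits_ne_nil_iff_ne_zero.2 hm) (List.length_eq_zero_iff.1 h)
    obtain ⟨k, hk⟩ : ∃ k, (Nat.digits 10 m).length = k + 1 := ⟨_, (Nat.succ_pred_eq_of_ne_zero h5).symm⟩
    rw [hk] at h3 h4
    rw [Nat.add_sub_cancel] at h3
    rw [pow_succ] at h4
    calc m * m ≤ (10 ^ k * 10) * m := Nat.mul_le_mul_right m h4.le
      _ = 10 * (10 ^ k * m) := by ring
      _ ≤ 10 * pl m := Nat.mul_le_mul_left 10 h3
      _ ≤ 10 * x := Nat.mul_le_mul_left 10 hnx.le
  have h2 : P x ≤ Nat.sqrt (10 * x) + 1 := by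
    unfold P
    refine (card_le_card h1).trans (card_image_le.trans ?_)
    rw [card_range]
  have h3 : (P x : ℝ) ≤ (Nat.sqrt (10 * x) : ℝ) + 1 := by exact_mod_cast h2
  have h4 : (Nat.sqrt (10 * x) : ℝ) ≤ Real.sqrt (10 * x) := by
    have := Real.nat_sqrt_le_real_sqrt (a := 10 * x)
    push_cast at this
    exact this
  linarith

theorem length_of_range {m k : ℕ} (h1 : 10 ^ k ≤ m) (h2 : m < 2 * 10 ^ k) : (Nat.digits 10 m).length = k + 1 := by
  have hm : m ≠ 0 := by
    have : 0 < 10 ^ k := by positivity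
    omega
  apply le_antisymm
  · rw [Nat.digits_length_le_iff (by norm_num)]
    rw [pow_succ]
    omega
  · rw [Nat.succ_le_iff, Nat.lt_digits_length_iff (by norm_num)]
    exact h1

theorem pl_coprime {m k : ℕ} (h1 : 10 ^ k ≤ m) (h2 : m < 2 * 10 ^ k) : (pl m).Coprime 10 := by
  have hm : m ≠ 0 := by
    have : 0 < 10 ^ k := by positivity
    omega
  have hlen := length_of_range h1 h2
  obtain ⟨hp, -⟩ := pal_pl hm
  have hb := pl_bounds m
  rw [hlen, Nat.add_sub_cancel] at hb
  have hpow : 10 ^ (2 * k) = 10 ^ k * 10 ^ k := by rw [two_mul, pow_add]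
  have hlo : 10 ^ (2 * k) ≤ pl m := by
    rw [hpow]
    exact (Nat.mul_le_mul_left _ h1).trans hb.1
  have hhi : pl m < 2 * 10 ^ (2 * k) := by
    rw [hpow]
    calc pl m < 10 ^ k * (m + 1) := hb.2
      _ ≤ 10 ^ k * (2 * 10 ^ k) := Nat.mul_le_mul_left _ h2
      _ = 2 * (10 ^ k * 10 ^ k) := by ring
  have hlen2 : (Nat.digits 10 (pl m)).length = 2 * k + 1 := length_of_range hlo hhi
  -- the leading digit is `1`
  have h3 : (Nat.digits 10 (pl m)).getD (2 * k) 0 = 1 := by
    rw [Nat.getD_digits _ _ (by norm_num)]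
    have h4 : pl m / 10 ^ (2 * k) = 1 := by
      apply Nat.div_eq_of_lt_le
      · rw [one_mul]
        exact hlo
      · exact hhi
    rw [h4]
  have h4 : (Nat.digits 10 (pl m)).getD 0 0 = (Nat.digits 10 (pl m)).getD (2 * k) 0 := by
    have h5 : (Nat.digits 10 (pl m)).getD 0 0 = (Nat.digits 10 (pl m)).reverse.getD 0 0 := by
      rw [hp]
    rw [h5, List.getD_eq_getElem _ _ (by rw [List.length_reverse, hlen2]; omega), List.getD_eq_getElem _ _ (by rw [hlen2]; omega),
      List.getElem_reverse]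
    congr 1
    omega
  rw [h3, Nat.getD_digits _ _ (by norm_num), pow_zero, Nat.div_one] at h4
  have h5 : Nat.gcd (pl m) 10 = Nat.gcd (pl m % 10) 10 := (Nat.mod_add_div (pl m) 10).symm ▸ by simp
  rw [Nat.Coprime, h5, h4]
  norm_num

theorem le_P {x k : ℕ} (hk : 1 ≤ k) (hx : 2 * 10 ^ (2 * k) ≤ x) : 10 ^ k ≤ P x := by
  classical
  have h1 : (Ico (10 ^ k) (2 * 10 ^ k)).image pl ⊆ ind U x := by
    intro n hn
    obtain ⟨m, hm, rfl⟩ := mem_image.1 hn
    rw [mem_Ico] at hm
    have hm0 : m ≠ 0 := by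
      have : 0 < 10 ^ k := by positivity
      omega
    have hb := pl_bounds m
    rw [length_of_range hm.1 hm.2, Nat.add_sub_cancel] at hb
    have hpow : 10 ^ (2 * k) = 10 ^ k * 10 ^ k := by rw [two_mul, pow_add]
    rw [mem_ind]
    refine ⟨?_, ?_, (pal_pl hm0).1, (pal_pl hm0).2, pl_coprime hm.1 hm.2⟩
    · calc pl m < 10 ^ k * (m + 1) := hb.2
        _ ≤ 10 ^ k * (2 * 10 ^ k) := Nat.mul_le_mul_left _ hm.2
        _ = 2 * 10 ^ (2 * k) := by rw [hpow]; ring
        _ ≤ x := hx
    · have h2 : 10 ^ 1 ≤ 10 ^ k := Nat.pow_le_pow_right (by norm_num) hk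
      have h3 : 10 ^ k * 10 ^ k ≤ pl m := (Nat.mul_le_mul_left _ hm.1).trans hb.1
      nlinarith
  have h2 : Set.InjOn pl (Ico (10 ^ k) (2 * 10 ^ k) : Finset ℕ) := by
    intro m hm m' hm' he
    rw [mem_coe, mem_Ico] at hm hm'
    have hb := pl_bounds m
    have hb' := pl_bounds m'
    rw [length_of_range hm.1 hm.2, Nat.add_sub_cancel] at hb
    rw [length_of_range hm'.1 hm'.2, Nat.add_sub_cancel, ← he] at hb'
    have h3 : 0 < 10 ^ k := by positivity
    have h4 : m < m' + 1 := Nat.lt_of_mul_lt_mul_left (hb.1.trans_lt hb'.2)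
    have h5 : m' < m + 1 := Nat.lt_of_mul_lt_mul_left (hb'.1.trans_lt hb.2)
    omega
  unfold P
  calc 10 ^ k = (Ico (10 ^ k) (2 * 10 ^ k)).card := by
        rw [Nat.card_Ico]
        omega
    _ = ((Ico (10 ^ k) (2 * 10 ^ k)).image pl).card := (card_image_of_injOn h2).symm
    _ ≤ _ := card_le_card h1

theorem sqrt_le_P {x : ℕ} (hx : 200 ≤ x) : Real.sqrt x / 15 ≤ P x := by
  obtain ⟨k, hk⟩ : ∃ k, k = Nat.log 100 (x / 2) := ⟨_, rfl⟩
  have h1 : 100 ^ k ≤ x / 2 := by
    rw [hk]
    exact Nat.pow_log_le_self 100 (by omega)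
  have h2 : x / 2 < 100 ^ (k + 1) := by
    rw [hk]
    exact Nat.lt_pow_succ_log_self (by norm_num) _
  have h3 : 1 ≤ k := by
    rw [hk]
    exact Nat.log_pos (by norm_num) (by omega)
  have hpow : 10 ^ (2 * k) = 100 ^ k := by rw [pow_mul]; norm_num
  have h4 := le_P (x := x) h3 (by rw [hpow]; omega)
  have h5 : (x : ℝ) ≤ (15 * 10 ^ k) ^ 2 := by
    have h6 : x < 2 * 100 ^ (k + 1) := by omega
    have h7 : (x : ℝ) < 2 * 100 ^ (k + 1) := by exact_mod_cast h6
    have h8 : ((10 : ℝ) ^ k) ^ 2 = 100 ^ k := by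
      rw [← pow_mul, mul_comm, pow_mul]
      norm_num
    rw [mul_pow, h8]
    rw [pow_succ] at h7
    have h9 : (0 : ℝ) < 100 ^ k := by positivity
    linarith
  have h6 : Real.sqrt x ≤ 15 * 10 ^ k := by
    rw [← Real.sqrt_sq (show (0 : ℝ) ≤ 15 * 10 ^ k by positivity)]
    exact Real.sqrt_le_sqrt h5
  have h7 : ((10 : ℝ) ^ k) ≤ P x := by exact_mod_cast h4
  linarith

theorem P_le' {x : ℕ} (hx : 1 ≤ x) : (P x : ℝ) ≤ 5 * Real.sqrt x := by
  have h1 := P_le x
  have hx' : (1 : ℝ) ≤ x := by exact_mod_cast hx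
  have h2 : Real.sqrt (10 * x) ≤ 4 * Real.sqrt x := by
    rw [Real.sqrt_le_left (by positivity), mul_pow, Real.sq_sqrt (by linarith)]
    linarith
  have h3 : 1 ≤ Real.sqrt x := Real.one_le_sqrt.2 hx'
  linarith

end Pool.Agent.Q198.PP
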