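import Pool.Agent.Q120.ME.General

/-!
# The general theorem on random sets near a model, for any normalisation `E ~ mass`

`general` of `Q120.ME.General` and the information threshold for infinitude (from `Q83.RI.Main`, there for the repunit exponents), with a function
`E` asymptotic to the expected number of elements.
-/

set_option autoImplicit false

namespace Pool.Agent.Q198.PP

open Finset MeasureTheory Filter Pool.Agent.Q120.ET Pool.Agent.Q120.ME
open scoped Topology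

/-- The class `δ`: the relative entropy up to `x` is at most `(δ + o(1)) E x`. -/
def ECls (U : Set ℕ) (p E : ℕ → ℝ) (δ : ℝ) {Ω : Type*} [MeasurableSpace Ω] (μ : Measure Ω) (A : Ω → Set ℕ) : Prop :=
  IsRandomSet A ∧ ∀ ε : ℝ, 0 < ε → ∀ᶠ x : ℕ in atTop, relEnt p μ A (ind U x) ≤ (δ + ε) * E x

variable {U : Set ℕ} {p : ℕ → ℝ}

/-- The probability of finiteness, from the relative entropy along a sequence. -/
theorem fin_freq (hU : Rates U p) {t : ℝ} (Ω : Type) [MeasurableSpace Ω] (μ : Measure Ω) [IsProbabilityMeasure μ] (A : Ω → Set ℕ)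
    (hA : IsRandomSet A) (hD : ∀ ε : ℝ, 0 < ε → ∃ᶠ x : ℕ in atTop, relEnt p μ A (ind U x) ≤ (t + ε) * mass U p x) :
    μ.real {ω | (A ω ∩ U).Finite} ≤ t := by
  classical
  have hEVT : J_EVT := Pool.Agent.Q184.ME.t_EVT Pool.Agent.Q26.ME.t_DV
  have hN : ∀ N : ℕ, μ.real {ω | ∀ n ∈ A ω, n ∈ U → n < N} ≤ t := by
    intro N
    by_contra hlt
    push Not at hlt
    obtain ⟨P, hP⟩ : ∃ P : ℝ, P = μ.real {ω | ∀ n ∈ A ω, n ∈ U → n < N} := ⟨_, rfl⟩
    rw [← hP] at hlt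
    obtain ⟨ε, hε⟩ : ∃ ε : ℝ, ε = (P - t) / 2 := ⟨_, rfl⟩
    have hε0 : 0 < ε := by
      rw [hε]
      linarith
    have hbig : ∀ᶠ x : ℕ in atTop, (P * mass U p N + Real.log 2) / ε < mass U p x :=
      hU.div.eventually_gt_atTop _
    obtain ⟨x, hx1, hx2, hx3⟩ := ((hD ε hε0).and_eventually (hbig.and (eventually_ge_atTop N))).exists
    have hF : ∀ n ∈ ind U x, 0 < p n ∧ p n < 1 := fun n hn =>
      ⟨hU.pos n (Pool.Agent.Q24.ME.mem_ind.1 hn).2, hU.lt_one n (Pool.Agent.Q24.ME.mem_ind.1 hn).2⟩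
    have h1 := (hEVT p (ind U x) hF Ω μ A hA).2 (fun T => ∀ n ∈ T, n < N)
      (mass U p x - mass U p N) (by
        rw [Pool.Agent.Q24.ME.sum_bern_below, ← Pool.Agent.Q24.ME.mass_sub U p hx3]
        exact Pool.Agent.Q24.ME.prod_below_le p _ N (fun n hn => (hF n hn).2))
    have h2 : P ≤ μ.real {ω | ∀ n ∈ tr A (ind U x) ω, n < N} := by
      rw [hP]
      refine measureReal_mono ?_
      intro ω hω n hn
      rw [mem_tr, Pool.Agent.Q24.ME.mem_ind] at hn
      exact hω n hn.2 hn.1.2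
    have h3 : 0 ≤ mass U p x - mass U p N := by
      rw [← Pool.Agent.Q24.ME.mass_sub U p hx3]
      exact Finset.sum_nonneg (fun n hn => (hF n (mem_filter.1 hn).1).1.le)
    have h4 : P * (mass U p x - mass U p N) ≤ (t + ε) * mass U p x + Real.log 2 := by
      have h5 := mul_le_mul_of_nonneg_right h2 h3
      linarith
    rw [div_lt_iff₀ hε0] at hx2
    have h5 : P = t + 2 * ε := by
      rw [hε]
      ring
    have h6 : P * mass U p x = (t + 2 * ε) * mass U p x := by rw [← h5]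
    nlinarith
  simp only [finite_iff']
  have h1 : {ω | ∃ N : ℕ, ∀ n ∈ A ω, n ∈ U → n < N} = ⋃ N : ℕ, {ω | ∀ n ∈ A ω, n ∈ U → n < N} := by
    ext ω
    simp
  have hmono : Monotone (fun N : ℕ => {ω | ∀ n ∈ A ω, n ∈ U → n < N}) := by
    intro N M hNM ω hω n hn hU
    exact lt_of_lt_of_le (hω n hn hU) hNM
  have h2 := tendsto_measure_iUnion_atTop (μ := μ) hmono
  have h3 : Tendsto (fun N : ℕ => μ.real {ω | ∀ n ∈ A ω, n ∈ U → n < N}) atTop
      (𝓝 (μ.real (⋃ N : ℕ, {ω | ∀ n ∈ A ω, n ∈ U → n < N}))) := by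
    have := (ENNReal.tendsto_toReal (measure_ne_top μ (⋃ N : ℕ, {ω | ∀ n ∈ A ω, n ∈ U → n < N}))).comp h2
    exact this
  rw [h1]
  exact le_of_tendsto' h3 hN

/-- The exact information threshold for infinitude. -/
theorem threshold (hU : Rates U p) (d : ℕ → ℝ) {t : ℝ} (ht : 0 ≤ t) (ht1 : t < 1) :
    (∀ (Ω : Type) [MeasurableSpace Ω] (μ : Measure Ω) [IsProbabilityMeasure μ] (A : Ω → Set ℕ), IsRandomSet A →
      (∀ᶠ x : ℕ in atTop, relEnt p μ A (ind U x) ≤ d x) → μ.real {ω | (A ω ∩ U).Finite} ≤ t) ↔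
    ∀ ε : ℝ, 0 < ε → ∃ᶠ x : ℕ in atTop, d x ≤ (t + ε) * mass U p x := by
  constructor
  · intro h
    by_contra hne
    push Not at hne
    obtain ⟨ε, hε, hev⟩ := hne
    obtain ⟨s, hs⟩ : ∃ s : ℝ, s = min ((1 + t) / 2) (t + ε / 2) := ⟨_, rfl⟩
    have hts : t < s := by
      rw [hs]
      exact lt_min (by linarith) (by linarith)
    have hs1 : s < 1 := by
      rw [hs]
      exact (min_le_left _ _).trans_lt (by linarith)
    have hs2 : s ≤ t + ε / 2 := by
      rw [hs]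
      exact min_le_right _ _
    have hs0 : 0 ≤ s := by linarith
    obtain ⟨-, -, Ω, m, μ, hμ, A, hA, hfin⟩ := (general U p hU).2 s hs0
    have h1 : ∀ᶠ x : ℕ in atTop, relEnt p μ A (ind U x) ≤ d x := by
      filter_upwards [hA.2 (ε / 2) (by positivity), hev, hU.div.eventually_gt_atTop 0] with x h2 h3 h4
      refine h2.trans (le_trans ?_ h3.le)
      apply mul_le_mul_of_nonneg_right _ h4.le
      linarith
    have h2 := h Ω μ A hA.1 h1
    rw [hfin, min_eq_right hs1.le] at h2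
    linarith
  · intro h Ω _ μ _ A hA hD
    refine fin_freq hU Ω μ A hA (fun ε hε => ?_)
    exact ((h ε hε).and_eventually hD).mono (fun x hx => hx.2.trans hx.1)

/-- Comparison of two normalisations. -/
theorem cmp {M E : ℕ → ℝ} (h : Tendsto (fun x => M x / E x) atTop (𝓝 1)) (hE : ∀ᶠ x : ℕ in atTop, 0 < E x) {t ε : ℝ}
    (hε : 0 < ε) : ∀ᶠ x : ℕ in atTop, (t + ε / 2) * M x ≤ (t + ε) * E x := by
  have h1 := h.const_mul (t + ε / 2)
  rw [mul_one] at h1
  filter_upwards [h1.eventually (gt_mem_nhds (show t + ε / 2 < t + ε by linarith)), hE] with x h2 h3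
  rw [← mul_div_assoc, div_lt_iff₀ h3] at h2
  exact h2.le

section equiv

variable {E : ℕ → ℝ}

theorem inv_lim (hE : Tendsto (fun x => mass U p x / E x) atTop (𝓝 1)) :
    Tendsto (fun x => E x / mass U p x) atTop (𝓝 1) := by
  have h1 := hE.inv₀ one_ne_zero
  rw [inv_one] at h1
  refine h1.congr (fun x => ?_)
  rw [inv_div]

theorem ev_iff (hU : Rates U p) (hE : Tendsto (fun x => mass U p x / E x) atTop (𝓝 1)) (hE0 : ∀ᶠ x : ℕ in atTop, 0 < E x)
    {t : ℝ} {f : ℕ → ℝ} : (∀ ε : ℝ, 0 < ε → ∀ᶠ x : ℕ in atTop, f x ≤ (t + ε) * mass U p x) ↔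
      ∀ ε : ℝ, 0 < ε → ∀ᶠ x : ℕ in atTop, f x ≤ (t + ε) * E x := by
  constructor
  · intro h ε hε
    filter_upwards [h (ε / 2) (by positivity), cmp hE hE0 (t := t) hε] with x h1 h2
    exact h1.trans h2
  · intro h ε hε
    filter_upwards [h (ε / 2) (by positivity), cmp (inv_lim hE) (hU.div.eventually_gt_atTop 0) (t := t) hε] with x h1 h2
    exact h1.trans h2

theorem fr_iff (hU : Rates U p) (hE : Tendsto (fun x => mass U p x / E x) atTop (𝓝 1)) (hE0 : ∀ᶠ x : ℕ in atTop, 0 < E x)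
    {t : ℝ} {f : ℕ → ℝ} : (∀ ε : ℝ, 0 < ε → ∃ᶠ x : ℕ in atTop, f x ≤ (t + ε) * mass U p x) ↔
      ∀ ε : ℝ, 0 < ε → ∃ᶠ x : ℕ in atTop, f x ≤ (t + ε) * E x := by
  constructor
  · intro h ε hε
    exact ((h (ε / 2) (by positivity)).and_eventually (cmp hE hE0 (t := t) hε)).mono (fun x hx => hx.1.trans hx.2)
  · intro h ε hε
    exact ((h (ε / 2) (by positivity)).and_eventually (cmp (inv_lim hE) (hU.div.eventually_gt_atTop 0) (t := t) hε)).mono
      (fun x hx => hx.1.trans hx.2)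

theorem lim_iff (hU : Rates U p) (hE : Tendsto (fun x => mass U p x / E x) atTop (𝓝 1)) (hE0 : ∀ᶠ x : ℕ in atTop, 0 < E x)
    (f : ℕ → ℝ) (l : ℝ) : Tendsto (fun x : ℕ => f x / mass U p x) atTop (𝓝 l) ↔ Tendsto (fun x : ℕ => f x / E x) atTop (𝓝 l) := by
  have h2 : ∀ᶠ x : ℕ in atTop, 0 < mass U p x := hU.div.eventually_gt_atTop 0
  constructor
  · intro h
    have h3 := h.mul hE
    rw [mul_one] at h3
    refine h3.congr' ?_
    filter_upwards [h2, hE0] with x h4 h5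
    field_simp
  · intro h
    have h3 := h.mul (inv_lim hE)
    rw [mul_one] at h3
    refine h3.congr' ?_
    filter_upwards [h2, hE0] with x h4 h5
    field_simp

/-- **The general theorem for the normalisation `E`.** (1) For every `d` and `0 ≤ t < 1`: all random sets with relative entropies at most `d x`
for large `x` have `A ∩ U` finite with probability at most `t` iff `liminf d / E ≤ t`. (2) For nondecreasing `d ≥ 0` all these sets almost surely
have `cnt ~ E` iff `∑_{n ∈ U} p n * d n / mass n ^ 2 < ∞`. (3) A probability measure `ν` is the law of `lim cnt / E` for some random set of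
class `δ` iff it lives on `[0, ∞)` and `∫ (u log u - u + 1) dν ≤ δ`. -/
theorem general_equiv (hU : Rates U p) (hE : Tendsto (fun x => mass U p x / E x) atTop (𝓝 1)) (hE0 : ∀ᶠ x : ℕ in atTop, 0 < E x) :
    (∀ (d : ℕ → ℝ) (t : ℝ), 0 ≤ t → t < 1 →
      ((∀ (Ω : Type) [MeasurableSpace Ω] (μ : Measure Ω) [IsProbabilityMeasure μ] (A : Ω → Set ℕ), IsRandomSet A →
        (∀ᶠ x : ℕ in atTop, relEnt p μ A (ind U x) ≤ d x) → μ.real {ω | (A ω ∩ U).Finite} ≤ t) ↔
      ∀ ε : ℝ, 0 < ε → ∃ᶠ x : ℕ in atTop, d x ≤ (t + ε) * E x)) ∧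
    (∀ d : ℕ → ℝ, Monotone d → (∀ n, 0 ≤ d n) →
      ((∀ (Ω : Type) [MeasurableSpace Ω] (μ : Measure Ω) [IsProbabilityMeasure μ] (A : Ω → Set ℕ), IsRandomSet A →
        (∀ᶠ x : ℕ in atTop, relEnt p μ A (ind U x) ≤ d x) →
          ∀ᵐ ω ∂μ, Tendsto (fun x : ℕ => (cnt U (A ω) x : ℝ) / E x) atTop (𝓝 1)) ↔ Conv U p d)) ∧
    ∀ δ : ℝ, 0 ≤ δ → ∀ ν : Measure ℝ, IsProbabilityMeasure ν →
      ((∃ (Ω : Type) (_ : MeasurableSpace Ω) (μ : Measure Ω) (_ : IsProbabilityMeasure μ) (A : Ω → Set ℕ) (L : Ω → ℝ), ECls U p E δ μ A ∧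
        Measurable L ∧ μ.map L = ν ∧ ∀ᵐ ω ∂μ, Tendsto (fun x : ℕ => (cnt U (A ω) x : ℝ) / E x) atTop (𝓝 (L ω))) ↔
      ν (Set.Iio 0) = 0 ∧ ∫⁻ u, ENNReal.ofReal (u * Real.log u - u + 1) ∂ν ≤ ENNReal.ofReal δ) := by
  obtain ⟨g1, g2⟩ := general U p hU
  refine ⟨fun d t ht ht1 => ?_, fun d hm hd => ?_, fun δ hδ ν hν => ?_⟩
  · rw [← fr_iff hU hE hE0]
    exact threshold hU d ht ht1
  · rw [← g1 d hm hd]
    constructor
    · intro h Ω _ μ _ A hA hD
      filter_upwards [h Ω μ A hA hD] with ω hω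
      exact (lim_iff hU hE hE0 _ _).2 hω
    · intro h Ω _ μ _ A hA hD
      filter_upwards [h Ω μ A hA hD] with ω hω
      exact (lim_iff hU hE hE0 _ _).1 hω
  · rw [← (g2 δ hδ).1 ν hν]
    constructor
    · rintro ⟨Ω, m, μ, hμ, A, L, ⟨hA, hc⟩, hL, hmap, hlim⟩
      refine ⟨Ω, m, μ, hμ, A, L, ⟨hA, (ev_iff hU hE hE0).2 hc⟩, hL, hmap, ?_⟩
      filter_upwards [hlim] with ω hω
      exact (lim_iff hU hE hE0 _ _).2 hω
    · rintro ⟨Ω, m, μ, hμ, A, L, ⟨hA, hc⟩, hL, hmap, hlim⟩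
      refine ⟨Ω, m, μ, hμ, A, L, ⟨hA, (ev_iff hU hE hE0).1 hc⟩, hL, hmap, ?_⟩
      filter_upwards [hlim] with ω hω
      exact (lim_iff hU hE hE0 _ _).1 hω

end equiv

end Pool.Agent.Q198.PP
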