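import Pool.Agent.Q198.PP.Gen
import Pool.Agent.Q198.PP.Count

/-!
# Random sets near the model of the palindromic primes
-/

set_option autoImplicit false

namespace Pool.Agent.Q198.PP

open Finset MeasureTheory Filter Pool.Agent.Q120.ET Pool.Agent.Q120.ME
open scoped Topology

/-- The probability that the candidate `n` is a prime: `1 / log n` times `10 / φ(10)`, at most `1 / 2`. -/
noncomputable def rate (n : ℕ) : ℝ := min (1 / 2) (5 / 2 / Real.log n)

/-- The expected number of elements below `x`, up to a factor `1 + o(1)`. -/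
noncomputable def E (x : ℕ) : ℝ := 5 / 2 * P x / Real.log x

theorem log_tendsto : Tendsto (fun x : ℕ => Real.log x) atTop atTop := Real.tendsto_log_atTop.comp tendsto_natCast_atTop_atTop

theorem rate_pos {n : ℕ} (hn : n ∈ U) : 0 < rate n := by
  have h1 : 2 ≤ n := hn.1
  have h2 : 0 < Real.log n := Real.log_pos (by exact_mod_cast (by omega : 1 < n))
  unfold rate
  exact lt_min (by norm_num) (by positivity)

theorem rate_nonneg (n : ℕ) : 0 ≤ rate n := by
  have h2 : 0 ≤ Real.log n := Real.log_natCast_nonneg n
  unfold rate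
  exact le_min (by norm_num) (by positivity)

theorem rate_le_half (n : ℕ) : rate n ≤ 1 / 2 := min_le_left _ _

theorem rate_lim : Tendsto rate atTop (𝓝 0) := by
  have h1 : Tendsto (fun n : ℕ => 5 / 2 / Real.log n) atTop (𝓝 0) := tendsto_const_nhds.div_atTop log_tendsto
  exact squeeze_zero rate_nonneg (fun n => min_le_right _ _) h1

/-- The mass from below. -/
theorem mass_ge {x : ℕ} (hx : 5 ≤ Real.log x) : E x ≤ mass U rate x := by
  have h0 : 0 < Real.log x := by linarith
  have h1 : ∀ n ∈ ind U x, 5 / 2 / Real.log x ≤ rate n := by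
    intro n hn
    rw [mem_ind] at hn
    have h2 : 2 ≤ n := hn.2.1
    have h3 : 0 < Real.log n := Real.log_pos (by exact_mod_cast (by omega : 1 < n))
    unfold rate
    refine le_min ?_ ?_
    · rw [div_le_div_iff₀ h0 (by norm_num)]
      linarith
    · refine div_le_div_of_nonneg_left (by norm_num) h3 ?_
      exact Real.log_le_log (by exact_mod_cast (by omega : 0 < n)) (by exact_mod_cast hn.1.le)
  have h2 := sum_le_sum h1
  rw [sum_const, nsmul_eq_mul] at h2
  unfold E mass
  refine le_trans (le_of_eq ?_) h2
  unfold P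
  ring

/-- The mass from above. -/
theorem mass_le {x y : ℕ} (hy : 3 ≤ y) : mass U rate x ≤ P y + P x * (5 / 2 / Real.log y) := by
  classical
  have hly : 0 < Real.log y := Real.log_pos (by exact_mod_cast (by omega : 1 < y))
  have h1 : ∀ n ∈ ind U x, rate n ≤ (if n < y then 1 else 0) + 5 / 2 / Real.log y := by
    intro n hn
    split_ifs with h
    · have h2 := rate_le_half n
      have h3 : 0 ≤ 5 / 2 / Real.log y := by positivity
      linarith
    · rw [zero_add]
      refine (min_le_right _ _).trans ?_
      refine div_le_div_of_nonneg_left (by norm_num) hly ?_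
      exact Real.log_le_log (by exact_mod_cast (by omega : 0 < y)) (by exact_mod_cast not_lt.1 h)
  unfold mass
  refine (sum_le_sum h1).trans ?_
  rw [sum_add_distrib, sum_const, nsmul_eq_mul, ← sum_filter, sum_const, nsmul_eq_mul, mul_one]
  refine add_le_add ?_ le_rfl
  have h2 : (ind U x).filter (fun n => n < y) ⊆ ind U y := by
    intro n hn
    rw [mem_filter, mem_ind] at hn
    rw [mem_ind]
    exact ⟨hn.2, hn.1.2⟩
  unfold P
  exact_mod_cast card_le_card h2

theorem E_pos : ∀ᶠ x : ℕ in atTop, 0 < E x := by
  filter_upwards [eventually_ge_atTop 200, log_tendsto.eventually_gt_atTop 0] with x hx hl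
  have h1 := sqrt_le_P hx
  have h2 : 0 < Real.sqrt x := Real.sqrt_pos.2 (by exact_mod_cast (by omega : 0 < x))
  have h3 : (0 : ℝ) < P x := by linarith
  unfold E
  positivity

/-- The expected number. -/
theorem mass_lim : Tendsto (fun x : ℕ => mass U rate x / E x) atTop (𝓝 1) := by
  rw [Metric.tendsto_atTop']
  intro ε hε
  -- `η` with `1 / (1 - η) ≤ 1 + ε / 2`
  obtain ⟨η, hη⟩ : ∃ η : ℝ, η = min (1 / 2) (ε / 8) := ⟨_, rfl⟩
  have hη0 : 0 < η := by
    rw [hη]
    exact lt_min (by norm_num) (by linarith)
  have hη1 : η ≤ 1 / 2 := by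
    rw [hη]
    exact min_le_left _ _
  have hη2 : η ≤ ε / 8 := by
    rw [hη]
    exact min_le_right _ _
  have hinv : 1 / (1 - η) ≤ 1 + 2 * η := by
    rw [div_le_iff₀ (by linarith)]
    nlinarith
  have hinv2 : 1 / (1 - η) ≤ 1 + ε / 4 := by linarith
  -- the small part
  have hsm : Tendsto (fun x : ℝ => 60 * Real.log x / x ^ (η / 2)) atTop (𝓝 0) := by
    have h1 := (isLittleO_log_rpow_atTop (show 0 < η / 2 by linarith)).tendsto_div_nhds_zero
    have h2 := h1.const_mul 60
    rw [mul_zero] at h2
    refine h2.congr (fun x => ?_)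
    ring
  have hsm' := (hsm.comp tendsto_natCast_atTop_atTop).eventually (gt_mem_nhds (show (0 : ℝ) < ε / 4 by linarith))
  have hbig : Tendsto (fun x : ℕ => (x : ℝ) ^ (1 - η)) atTop atTop :=
    (tendsto_rpow_atTop (by linarith)).comp tendsto_natCast_atTop_atTop
  have hev : ∀ᶠ x : ℕ in atTop, |mass U rate x / E x - 1| < ε := by
    filter_upwards [hsm', hbig.eventually_ge_atTop 3, eventually_ge_atTop 200, log_tendsto.eventually_ge_atTop 5, E_pos]
      with x h1 h2 h3 h4 h5
    have hx0 : (0 : ℝ) < x := by exact_mod_cast (by omega : 0 < x)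
    have hlx : 0 < Real.log x := by linarith
    have hlow : 1 ≤ mass U rate x / E x := by
      rw [one_le_div h5]
      exact mass_ge h4
    have hup : mass U rate x / E x < 1 + ε := by
      obtain ⟨y, hy⟩ : ∃ y : ℕ, y = ⌈(x : ℝ) ^ (1 - η)⌉₊ := ⟨_, rfl⟩
      have hy1 : (x : ℝ) ^ (1 - η) ≤ y := by
        rw [hy]
        exact Nat.le_ceil _
      have hy2 : (y : ℝ) ≤ 2 * (x : ℝ) ^ (1 - η) := by
        have h6 : (y : ℝ) < (x : ℝ) ^ (1 - η) + 1 := by
          rw [hy]
          exact Nat.ceil_lt_add_one (by positivity)
        linarith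
      have hy3 : 3 ≤ y := by
        have : (3 : ℝ) ≤ y := h2.trans hy1
        exact_mod_cast this
      have hly : (1 - η) * Real.log x ≤ Real.log y := by
        rw [← Real.log_rpow hx0]
        exact Real.log_le_log (by positivity) hy1
      have hPy : (P y : ℝ) ≤ 8 * (x : ℝ) ^ ((1 - η) / 2) := by
        have h6 := P_le' (x := y) (by omega)
        have h7 : Real.sqrt y ≤ 8 / 5 * (x : ℝ) ^ ((1 - η) / 2) := by
          have h8 : ((x : ℝ) ^ ((1 - η) / 2)) ^ 2 = (x : ℝ) ^ (1 - η) := by
            rw [← Real.rpow_natCast, ← Real.rpow_mul hx0.le]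
            congr 1
            push_cast
            ring
          rw [Real.sqrt_le_left (by positivity), mul_pow, h8]
          have h10 : (0 : ℝ) < (x : ℝ) ^ (1 - η) := by positivity
          norm_num
          linarith
        linarith
      have hm := mass_le (x := x) hy3
      have hPx := sqrt_le_P h3
      have hsq : 0 < Real.sqrt x := Real.sqrt_pos.2 hx0
      have hP0 : (0 : ℝ) < P x := by linarith
      -- the two parts
      have g1 : P x * (5 / 2 / Real.log y) ≤ (1 + ε / 4) * E x := by
        have g2 : 5 / 2 / Real.log y ≤ 5 / 2 / ((1 - η) * Real.log x) :=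
          div_le_div_of_nonneg_left (by norm_num) (mul_pos (by linarith) hlx) hly
        have g3 : P x * (5 / 2 / ((1 - η) * Real.log x)) = 1 / (1 - η) * E x := by
          unfold E
          have : (1 - η) ≠ 0 := by linarith
          field_simp
        calc P x * (5 / 2 / Real.log y) ≤ P x * (5 / 2 / ((1 - η) * Real.log x)) := mul_le_mul_of_nonneg_left g2 hP0.le
          _ = 1 / (1 - η) * E x := g3
          _ ≤ _ := mul_le_mul_of_nonneg_right hinv2 h5.le
      have g4 : (P y : ℝ) < ε / 4 * E x := by
        have g5 : (x : ℝ) ^ ((1 - η) / 2) * (x : ℝ) ^ (η / 2) = Real.sqrt x := by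
          rw [← Real.rpow_add hx0, Real.sqrt_eq_rpow]
          congr 1
          ring
        have g6 : 0 < (x : ℝ) ^ (η / 2) := by positivity
        have g7 : 60 * Real.log x < ε / 4 * (x : ℝ) ^ (η / 2) := by
          simp only [Function.comp_apply] at h1
          rwa [div_lt_iff₀ g6] at h1
        have g8 : 0 < (x : ℝ) ^ ((1 - η) / 2) := by positivity
        have g9 : 60 * Real.log x * (x : ℝ) ^ ((1 - η) / 2) < ε / 4 * Real.sqrt x := by
          rw [← g5]
          nlinarith
        have g10 : E x * Real.log x = 5 / 2 * P x := by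
          unfold E
          field_simp
        have g11 : (P y : ℝ) * Real.log x < ε / 4 * E x * Real.log x := by
          rw [mul_assoc (ε / 4), g10]
          nlinarith
        exact lt_of_mul_lt_mul_right g11 hlx.le
      rw [div_lt_iff₀ h5]
      nlinarith
    rw [abs_lt]
    constructor <;> linarith
  obtain ⟨N, hN⟩ := eventually_atTop.1 hev
  exact ⟨N, fun x hx => by
    rw [Real.dist_eq]
    exact hN x hx.le⟩

theorem rates : Rates U rate where
  pos := fun _ hn => rate_pos hn
  lt_one := fun n _ => (rate_le_half n).trans_lt (by norm_num)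
  small := by
    intro ε hε
    filter_upwards [rate_lim.eventually (gt_mem_nhds hε)] with n hn _
    exact hn
  div := by
    have h1 : Tendsto (fun x : ℝ => x ^ (1 / 2 : ℝ) / Real.log x) atTop atTop := by
      have h2 := (isLittleO_log_rpow_atTop (show (0 : ℝ) < 1 / 2 by norm_num)).tendsto_div_nhds_zero
      have h3 : Tendsto (fun x : ℝ => Real.log x / x ^ (1 / 2 : ℝ)) atTop (𝓝[>] 0) := by
        refine tendsto_nhdsWithin_iff.2 ⟨h2, ?_⟩
        filter_upwards [eventually_gt_atTop (1 : ℝ)] with x hx
        have : 0 < Real.log x := Real.log_pos hx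
        exact Set.mem_Ioi.2 (by positivity)
      refine h3.inv_tendsto_nhdsGT_zero.congr (fun x => ?_)
      simp [inv_div]
    have h2 := (h1.comp tendsto_natCast_atTop_atTop).const_mul_atTop (show (0 : ℝ) < 1 / 6 by norm_num)
    refine tendsto_atTop_mono' _ ?_ h2
    filter_upwards [eventually_ge_atTop 200, log_tendsto.eventually_ge_atTop 5] with x hx hl
    refine le_trans ?_ (mass_ge hl)
    have h3 := sqrt_le_P hx
    have h4 : 0 < Real.log x := by linarith
    unfold E
    simp only [Function.comp_apply]
    rw [← Real.sqrt_eq_rpow, ← mul_div_assoc]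
    refine div_le_div_of_nonneg_right ?_ h4.le
    linarith

/-- The condition of the almost sure law. -/
theorem conv_iff {d : ℕ → ℝ} (hd : ∀ n, 0 ≤ d n) :
    Conv U rate d ↔ Summable (fun n : ℕ => open Classical in if n ∈ U then d n * Real.log n / n else 0) := by
  classical
  unfold Conv
  have hw : ∀ᶠ n : ℕ in atTop, rate n = 5 / 2 / Real.log n := by
    filter_upwards [log_tendsto.eventually_ge_atTop 5] with n hn
    unfold rate
    apply min_eq_right
    rw [div_le_div_iff₀ (by linarith) (by norm_num)]
    linarith
  have key : ∀ᶠ n : ℕ in atTop, rate n * d n / mass U rate n ^ 2 ≤ 90 * (d n * Real.log n / n) ∧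
      d n * Real.log n / n ≤ 250 * (rate n * d n / mass U rate n ^ 2) := by
    filter_upwards [mass_lim.eventually (gt_mem_nhds (show (1 : ℝ) < 2 by norm_num)), hw, E_pos,
      eventually_ge_atTop 200, log_tendsto.eventually_ge_atTop 5] with n h1 h2 h3 h4 h5
    have hn : (0 : ℝ) < n := by exact_mod_cast (by omega : 0 < n)
    have hl : 0 < Real.log n := by linarith
    have hm1 := mass_ge h5
    rw [div_lt_iff₀ h3] at h1
    have hP1 := sqrt_le_P h4
    have hP2 := P_le' (x := n) (by omega)
    have hs : Real.sqrt n ^ 2 = n := Real.sq_sqrt hn.le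
    have hs0 : 0 < Real.sqrt n := Real.sqrt_pos.2 hn
    have hE : E n * Real.log n = 5 / 2 * P n := by
      unfold E
      field_simp
    have hml : 1 / 6 * Real.sqrt n ≤ mass U rate n * Real.log n := by
      have := mul_le_mul_of_nonneg_right hm1 hl.le
      linarith
    have hmu : mass U rate n * Real.log n ≤ 25 * Real.sqrt n := by
      have := mul_le_mul_of_nonneg_right h1.le hl.le
      nlinarith
    have hm0 : 0 < mass U rate n := lt_of_lt_of_le h3 hm1
    have hsq1 : 1 / 36 * n ≤ (mass U rate n * Real.log n) ^ 2 := by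
      have h6 := pow_le_pow_left₀ (by positivity) hml 2
      rw [mul_pow, hs] at h6
      linarith
    have hsq2 : (mass U rate n * Real.log n) ^ 2 ≤ 625 * n := by
      have h6 := pow_le_pow_left₀ (by positivity) hmu 2
      have h7 : (25 * Real.sqrt n) ^ 2 = 625 * n := by
        rw [mul_pow, hs]
        norm_num
      rw [h7] at h6
      exact h6
    have h7 := hd n
    rw [h2]
    have h8 : 5 / 2 / Real.log n * d n / mass U rate n ^ 2 = 5 / 2 * (d n * Real.log n) / (mass U rate n * Real.log n) ^ 2 := by
      field_simp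
    rw [h8]
    constructor
    · calc 5 / 2 * (d n * Real.log n) / (mass U rate n * Real.log n) ^ 2 ≤ 5 / 2 * (d n * Real.log n) / (1 / 36 * n) :=
            div_le_div_of_nonneg_left (by positivity) (by positivity) hsq1
        _ = 90 * (d n * Real.log n / n) := by
            field_simp
            ring
    · calc d n * Real.log n / n = 250 * (5 / 2 * (d n * Real.log n) / (625 * n)) := by
            field_simp
            ring
        _ ≤ _ := by
            refine mul_le_mul_of_nonneg_left ?_ (by norm_num)
            exact div_le_div_of_nonneg_left (by positivity) (by positivity) hsq2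
  constructor
  · intro h
    refine Summable.of_norm_bounded_eventually_nat (h.mul_left 250) ?_
    filter_upwards [key, log_tendsto.eventually_gt_atTop 0] with n h1 h2
    by_cases hp : n ∈ U
    · have h3 := hd n
      rw [if_pos hp, if_pos hp, Real.norm_eq_abs, abs_of_nonneg (by positivity)]
      exact h1.2
    · rw [if_neg hp, if_neg hp, norm_zero, mul_zero]
  · intro h
    refine Summable.of_norm_bounded_eventually_nat (h.mul_left 90) ?_
    filter_upwards [key, log_tendsto.eventually_gt_atTop 0] with n h1 h2
    by_cases hp : n ∈ U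
    · have h3 := rate_pos hp
      have h4 := hd n
      rw [if_pos hp, if_pos hp, Real.norm_eq_abs, abs_of_nonneg (by positivity)]
      exact h1.1
    · rw [if_neg hp, if_neg hp, norm_zero, mul_zero]

end Pool.Agent.Q198.PP
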