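import Mathlib
import Pool.Agent.Q110.RS.Pow
import Pool.Agent.Q198.CC.L9

/-! # Gaps of random sets with negatively correlated void events: the almost sure value of the limsup

Adapted from `Pool.Agent.Q110.RS.Formula` and `Pool.Agent.Q110.RS.Lower` (helper110), where the events
`m ∈ S` are independent. -/

set_option autoImplicit false

namespace Q198.PP

open Filter Finset MeasureTheory ProbabilityTheory
open scoped ENNReal Topology
open Pool.Agent.Q110.RS (gapLim Emp exists_emp le_gapLim Scale reg window_sub grid grid_lt grid_mono grid_ge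
  grid_step_le grid_step_gt sum_blocks exists_block tsum_classes)

/-- `S ω` is a random set of natural numbers; the probability that `F` is avoided is `V F`; the void events of
disjoint sets are negatively correlated. -/
structure RV {Ω : Type} [MeasurableSpace Ω] (μ : Measure Ω) (S : Ω → Set ℕ) (V : Finset ℕ → ℝ) : Prop where
  meas : ∀ m, MeasurableSet {ω | m ∈ S ω}
  prob : ∀ F : Finset ℕ, μ {ω | ∀ m ∈ F, m ∉ S ω} = ENNReal.ofReal (V F)
  nonneg : ∀ F, 0 ≤ V F
  le_one : ∀ F, V F ≤ 1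
  neg : ∀ F G, Disjoint F G → V (F ∪ G) ≤ V F * V G
  inf : ∀ᵐ ω ∂μ, (S ω).Infinite

theorem bc2_neg {Ω : Type} [MeasurableSpace Ω] {μ : Measure Ω} [IsProbabilityMeasure μ] {A : ℕ → Set Ω}
    (hA : ∀ i, MeasurableSet (A i))
    (h2 : ∀ i j, i ≠ j → μ.real (A i ∩ A j) ≤ μ.real (A i) * μ.real (A j))
    (hs : ¬ Summable fun i => μ.real (A i)) : ∀ᵐ ω ∂μ, ∃ᶠ i in atTop, ω ∈ A i := by
  classical
  have hT := (not_summable_iff_tendsto_nat_atTop_of_nonneg (fun i => measureReal_nonneg)).1 hs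
  have key : ∀ M : ℕ, μ (⋂ i ∈ Set.Ici M, (A i)ᶜ) = 0 := by
    intro M
    have h3 : ∀ K : ℝ, 0 < K → μ.real (⋂ i ∈ Set.Ici M, (A i)ᶜ) ≤ 2 / K := by
      intro K hK
      obtain ⟨N, hN, hMN⟩ := ((hT.eventually_ge_atTop (K + ∑ i ∈ range M, μ.real (A i))).and
        (eventually_ge_atTop M)).exists
      have h4 : K ≤ ∑ i ∈ Ico M N, μ.real (A i) := by
        rw [Finset.sum_Ico_eq_sub _ hMN]
        linarith
      set B := (Ico M N).filter (fun i => 0 < μ.real (A i)) with hB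
      have h5 : ∑ i ∈ B, μ.real (A i) = ∑ i ∈ Ico M N, μ.real (A i) := by
        apply Finset.sum_subset (filter_subset _ _)
        intro i hi hiB
        by_contra hcon
        exact hiB (mem_filter.2 ⟨hi, lt_of_le_of_ne measureReal_nonneg (Ne.symm hcon)⟩)
      have hne : B.Nonempty := by
        rw [nonempty_iff_ne_empty]
        intro h6
        rw [h6, sum_empty] at h5
        linarith
      have h6 := Q198.CC.second_ind (P := μ) (B := B) hA (q := fun i => μ.real (A i))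
        (fun j hj => (mem_filter.1 hj).2) (τ := 0) le_rfl (by norm_num) (fun j _ => by simp)
        (fun i _ j _ hij => by simpa using h2 i j hij) hne
      have h7 : (⋂ i ∈ Set.Ici M, (A i)ᶜ) ⊆ ⋂ j ∈ B, (A j)ᶜ := by
        intro ω hω
        simp only [Set.mem_iInter] at hω ⊢
        intro i hi
        exact hω i (mem_Ico.1 (mem_filter.1 hi).1).1
      refine (measureReal_mono h7).trans (h6.trans ?_)
      rw [mul_zero, add_zero, h5]
      exact div_le_div_of_nonneg_left (by norm_num) hK h4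
    have h4 : μ.real (⋂ i ∈ Set.Ici M, (A i)ᶜ) = 0 := by
      apply le_antisymm _ measureReal_nonneg
      by_contra hcon
      push Not at hcon
      have h5 := h3 (4 / μ.real (⋂ i ∈ Set.Ici M, (A i)ᶜ)) (by positivity)
      rw [div_div_eq_mul_div] at h5
      linarith
    rwa [measureReal_eq_zero_iff] at h4
  have h5 : ∀ᵐ ω ∂μ, ∀ M : ℕ, ω ∉ ⋂ i ∈ Set.Ici M, (A i)ᶜ := by
    rw [ae_all_iff]
    intro M
    exact measure_eq_zero_iff_ae_notMem.1 (key M)
  filter_upwards [h5] with ω hω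
  rw [frequently_atTop]
  intro M
  have h6 := hω M
  simp only [Set.mem_iInter, Set.mem_compl_iff, not_forall, not_not, Set.mem_Ici] at h6
  obtain ⟨i, hi, hi2⟩ := h6
  exact ⟨i, hi, hi2⟩

section RVs

variable {Ω : Type} [MeasurableSpace Ω] {μ : Measure Ω} {S : Ω → Set ℕ} {V : Finset ℕ → ℝ}

theorem RV.anti (h : RV μ S V) {F G : Finset ℕ} (hFG : F ⊆ G) : V G ≤ V F := by
  have h1 := h.neg F (G \ F) disjoint_sdiff
  rw [Finset.union_sdiff_of_subset hFG] at h1
  have h2 := h.nonneg F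
  have h3 := h.le_one (G \ F)
  nlinarith

theorem RV.meas_avoid (h : RV μ S V) (F : Finset ℕ) : MeasurableSet {ω | ∀ m ∈ F, m ∉ S ω} := by
  have h2 : {ω | ∀ m ∈ F, m ∉ S ω} = ⋂ m ∈ F, ({ω | m ∈ S ω})ᶜ := by
    ext ω
    simp
  rw [h2]
  exact Finset.measurableSet_biInter F fun m _ => (h.meas m).compl

theorem RV.real (h : RV μ S V) (F : Finset ℕ) : μ.real {ω | ∀ m ∈ F, m ∉ S ω} = V F := by
  rw [measureReal_def, h.prob F, ENNReal.toReal_ofReal (h.nonneg F)]

/-- second Borel-Cantelli lemma for disjoint windows -/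
theorem RV.bc2 [IsProbabilityMeasure μ] (h : RV μ S V) (W : ℕ → Finset ℕ)
    (hW : ∀ i j, i ≠ j → Disjoint (W i) (W j))
    (hs : ∑' i, ENNReal.ofReal (V (W i)) = ⊤) :
    ∀ᵐ ω ∂μ, ∃ᶠ i in atTop, ∀ m ∈ W i, m ∉ S ω := by
  apply bc2_neg (A := fun i => {ω | ∀ m ∈ W i, m ∉ S ω}) (fun i => h.meas_avoid (W i))
  · intro i j hij
    have h2 : {ω | ∀ m ∈ W i, m ∉ S ω} ∩ {ω | ∀ m ∈ W j, m ∉ S ω} = {ω | ∀ m ∈ W i ∪ W j, m ∉ S ω} := by
      ext ω
      simp only [Set.mem_inter_iff, Set.mem_ofPred_eq, Finset.mem_union]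
      constructor
      · rintro ⟨h3, h4⟩ m (hm | hm)
        · exact h3 m hm
        · exact h4 m hm
      · intro h3
        exact ⟨fun m hm => h3 m (Or.inl hm), fun m hm => h3 m (Or.inr hm)⟩
    rw [h2, h.real, h.real, h.real]
    exact h.neg _ _ (hW i j hij)
  · intro hcon
    have h3 : Summable fun i => V (W i) := by
      refine hcon.congr fun i => ?_
      exact h.real (W i)
    exact h3.tsum_ofReal_ne_top hs

/-- first Borel-Cantelli lemma -/
theorem RV.bc1 (h : RV μ S V) (W : ℕ → Finset ℕ) (hs : ∑' i, ENNReal.ofReal (V (W i)) ≠ ⊤) :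
    ∀ᵐ ω ∂μ, ∀ᶠ i in atTop, ¬ ∀ m ∈ W i, m ∉ S ω := by
  have h2 := ae_eventually_notMem (μ := μ) (s := fun i => {ω | ∀ m ∈ W i, m ∉ S ω}) (by
    have : ∑' i, μ {ω | ∀ m ∈ W i, m ∉ S ω} = ∑' i, ENNReal.ofReal (V (W i)) :=
      tsum_congr fun i => h.prob (W i)
    rw [this]
    exact hs)
  exact h2

end RVs

/-- the probability that the window `(n, n + C g(n)]` is avoided -/
noncomputable def Q (g : ℕ → ℝ) (V : Finset ℕ → ℝ) (C : ℝ) (n : ℕ) : ℝ := V (Ioc n (n + ⌊C * g n⌋₊))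

/-- upper bound -/
theorem upper {Ω : Type} [MeasurableSpace Ω] {μ : Measure Ω} {S : Ω → Set ℕ} {V : Finset ℕ → ℝ} {g : ℕ → ℝ}
    (hg : Scale g) (h : RV μ S V) {C C' : ℝ} (hC : 0 ≤ C) (hCC : C < C')
    (hs : Summable fun n => Q g V C n / g n) :
    ∀ᵐ ω ∂μ, ∀ᶠ n in atTop, ¬ Emp g C' (S ω) n := by
  obtain ⟨D, hD1, hD2⟩ : ∃ D, C < D ∧ D < C' := exists_between hCC
  obtain ⟨η1, hη1, r1⟩ := reg hg hC hD1
  obtain ⟨η2, hη2, r2⟩ := reg hg (hC.trans hD1.le) hD2
  obtain ⟨η, hηd⟩ : ∃ η, η = min η1 η2 := ⟨_, rfl⟩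
  have hη : 0 < η := by rw [hηd]; exact lt_min hη1 hη2
  obtain ⟨N, hN⟩ := eventually_atTop.1 ((r1 η hη (by rw [hηd]; exact min_le_left _ _)).and
    ((r2 η hη (by rw [hηd]; exact min_le_right _ _)).and ((hg.slow (η + 1) 1 (by positivity) one_pos).and
      (hg.top.eventually_ge_atTop 1))))
  set b := grid g η N with hb
  have hbN : ∀ j, N ≤ b j := fun j => (Nat.le_add_right N j).trans (grid_ge g η N j)
  have hblock : ∀ j, η / 2 * Q g V D (b j) ≤ ∑ n ∈ Ico (b j) (b (j + 1)), Q g V C n / g n := by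
    intro j
    obtain ⟨e1, e2, e3, e4⟩ := hN (b j) (hbN j)
    have hgb : 0 < g (b j) := by linarith
    have h2 : ∀ n ∈ Ico (b j) (b (j + 1)), Q g V D (b j) / (2 * g (b j)) ≤ Q g V C n / g n := by
      intro n hn
      rw [Finset.mem_Ico] at hn
      have h3 : (n : ℝ) ≤ b j + η * g (b j) + 1 := by
        have h4 : (n : ℝ) ≤ b (j + 1) := by exact_mod_cast hn.2.le
        exact h4.trans (grid_step_le hg.nonneg hη N j)
      have h5 : Q g V D (b j) ≤ Q g V C n := h.anti (window_sub hg.nonneg hC hn.1 (e1 n hn.1 h3))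
      have h6 : g n ≤ 2 * g (b j) := by
        have h7 : n ≤ b j + ⌊(η + 1) * g (b j)⌋₊ := by
          have h8 : n - b j ≤ ⌊(η + 1) * g (b j)⌋₊ := by
            apply Nat.le_floor
            rw [Nat.cast_sub hn.1]
            linarith
          omega
        have h9 := (hg.mono h7).trans e3
        linarith
      have h10 : 0 < g n := lt_of_lt_of_le hgb (hg.mono hn.1)
      exact div_le_div₀ (h.nonneg _) h5 h10 h6
    have h11 := Finset.card_nsmul_le_sum _ _ _ h2
    refine le_trans ?_ h11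
    rw [Nat.card_Ico, nsmul_eq_mul, Nat.cast_sub (grid_lt g η N j).le]
    have h12 := grid_step_gt g η N j
    have h13 : η * g (b j) ≤ (b (j + 1) : ℝ) - b j := by linarith
    have h14 : 0 ≤ Q g V D (b j) / (2 * g (b j)) := div_nonneg (h.nonneg _) (by positivity)
    calc η / 2 * Q g V D (b j) = η * g (b j) * (Q g V D (b j) / (2 * g (b j))) := by
          field_simp
      _ ≤ _ := mul_le_mul_of_nonneg_right h13 h14
  have hterm : ∀ n, 0 ≤ Q g V C n / g n := fun n => div_nonneg (h.nonneg _) (hg.nonneg n)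
  have hsum : Summable fun j => Q g V D (b j) := by
    apply summable_of_sum_range_le (c := 2 / η * ∑' n, Q g V C n / g n) (fun j => h.nonneg _)
    intro J
    have h2 : η / 2 * ∑ j ∈ range J, Q g V D (b j) ≤ ∑' n, Q g V C n / g n := by
      rw [Finset.mul_sum]
      refine (Finset.sum_le_sum fun j _ => hblock j).trans ?_
      rw [sum_blocks _ b (grid_mono g η N).monotone J]
      exact hs.sum_le_tsum _ fun n _ => hterm n
    calc ∑ j ∈ range J, Q g V D (b j) = 2 / η * (η / 2 * ∑ j ∈ range J, Q g V D (b j)) := by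
          field_simp
      _ ≤ _ := mul_le_mul_of_nonneg_left h2 (by positivity)
  have hne : ∑' j, ENNReal.ofReal (V (Ioc (b j) (b j + ⌊D * g (b j)⌋₊))) ≠ ⊤ := hsum.tsum_ofReal_ne_top
  filter_upwards [h.bc1 _ hne] with ω hω
  obtain ⟨J, hJ⟩ := eventually_atTop.1 hω
  filter_upwards [eventually_gt_atTop (b (J + 1))] with n hn hE
  obtain ⟨j, hj1, hj2⟩ := exists_block (grid_mono g η N)
    (lt_of_le_of_lt ((grid_mono g η N).monotone (Nat.zero_le (J + 1))) hn)
  have hjJ : J ≤ j + 1 := by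
    by_contra hcon
    push Not at hcon
    have : b (j + 1) ≤ b (J + 1) := (grid_mono g η N).monotone (by omega)
    change n ≤ b (j + 1) at hj2
    omega
  refine hJ (j + 1) hjJ fun m hm => hE m ?_
  obtain ⟨-, e2, -, -⟩ := hN n (by
    have := hbN (J + 1)
    omega)
  refine window_sub hg.nonneg (hC.trans hD1.le) hj2 (e2 _ hj2 ?_) hm
  have h3 := grid_step_le hg.nonneg hη N j
  have h4 : ((b j : ℕ) : ℝ) ≤ n := by exact_mod_cast hj1.le
  have h5 : η * g (b j) ≤ η * g n := mul_le_mul_of_nonneg_left (hg.mono hj1.le) hη.le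
  change ((b (j + 1) : ℕ) : ℝ) ≤ _
  change ((b (j + 1) : ℕ) : ℝ) ≤ (b j : ℝ) + η * g (b j) + 1 at h3
  linarith

/-- lower bound -/
theorem lower {Ω : Type} [MeasurableSpace Ω] {μ : Measure Ω} [IsProbabilityMeasure μ] {S : Ω → Set ℕ}
    {V : Finset ℕ → ℝ} {g : ℕ → ℝ} (hg : Scale g)
    (h : RV μ S V) {C C' : ℝ} (hC : 0 ≤ C) (hCC : C < C')
    (hs : ¬ Summable fun n => Q g V C' n / g n) :
    ∀ᵐ ω ∂μ, ∃ᶠ n in atTop, Emp g C (S ω) n := by
  obtain ⟨η, hη, r1⟩ := reg hg hC hCC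
  obtain ⟨N, hN⟩ := eventually_atTop.1 ((r1 η hη le_rfl).and (hg.top.eventually_ge_atTop 1))
  set b := grid g η N with hb
  have hbN : ∀ j, N ≤ b j := fun j => (Nat.le_add_right N j).trans (grid_ge g η N j)
  have hmono := grid_mono g η N
  have hterm : ∀ n, 0 ≤ Q g V C' n / g n := fun n => div_nonneg (h.nonneg _) (hg.nonneg n)
  have hblock : ∀ j, ∑ n ∈ Ico (b j) (b (j + 1)), Q g V C' n / g n ≤ (η + 1) * Q g V C (b (j + 1)) := by
    intro j
    obtain ⟨-, e4⟩ := hN (b j) (hbN j)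
    have hgb : 0 < g (b j) := by linarith
    have h2 : ∀ n ∈ Ico (b j) (b (j + 1)), Q g V C' n / g n ≤ Q g V C (b (j + 1)) / g (b j) := by
      intro n hn
      rw [Finset.mem_Ico] at hn
      obtain ⟨e1, -⟩ := hN n ((hbN j).trans hn.1)
      have h3 : ((b (j + 1) : ℕ) : ℝ) ≤ n + η * g n + 1 := by
        have h4 := grid_step_le hg.nonneg hη N j
        change ((b (j + 1) : ℕ) : ℝ) ≤ (b j : ℝ) + η * g (b j) + 1 at h4
        have h5 : ((b j : ℕ) : ℝ) ≤ n := by exact_mod_cast hn.1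
        have h6 : η * g (b j) ≤ η * g n := mul_le_mul_of_nonneg_left (hg.mono hn.1) hη.le
        linarith
      have h5 : Q g V C' n ≤ Q g V C (b (j + 1)) := h.anti (window_sub hg.nonneg hC hn.2.le (e1 _ hn.2.le h3))
      exact div_le_div₀ (h.nonneg _) h5 hgb (hg.mono hn.1)
    refine (Finset.sum_le_card_nsmul _ _ _ h2).trans ?_
    rw [Nat.card_Ico, nsmul_eq_mul, Nat.cast_sub (grid_lt g η N j).le]
    have h12 := grid_step_le hg.nonneg hη N j
    have h13 : (b (j + 1) : ℝ) - b j ≤ (η + 1) * g (b j) := by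
      change ((b (j + 1) : ℕ) : ℝ) ≤ (b j : ℝ) + η * g (b j) + 1 at h12
      linarith
    have h14 : 0 ≤ Q g V C (b (j + 1)) / g (b j) := div_nonneg (h.nonneg _) hgb.le
    calc ((b (j + 1) : ℝ) - b j) * (Q g V C (b (j + 1)) / g (b j)) ≤
          (η + 1) * g (b j) * (Q g V C (b (j + 1)) / g (b j)) := mul_le_mul_of_nonneg_right h13 h14
      _ = (η + 1) * Q g V C (b (j + 1)) := by field_simp
  -- divergence
  have hdiv : ¬ Summable fun j => Q g V C (b (j + 1)) := by
    intro hcon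
    apply hs
    rw [← summable_nat_add_iff N]
    apply summable_of_sum_range_le (c := (η + 1) * ∑' j, Q g V C (b (j + 1))) (fun n => hterm (n + N))
    intro M
    have h2 : ∑ n ∈ range M, Q g V C' (n + N) / g (n + N) = ∑ n ∈ Ico N (N + M), Q g V C' n / g n := by
      rw [Finset.sum_Ico_eq_sum_range]
      simp only [Nat.add_sub_cancel_left]
      exact Finset.sum_congr rfl fun n _ => by rw [add_comm]
    have h3 : ∑ n ∈ Ico N (N + M), Q g V C' n / g n ≤ ∑ n ∈ Ico (b 0) (b M), Q g V C' n / g n := by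
      apply Finset.sum_le_sum_of_subset_of_nonneg
      · exact Finset.Ico_subset_Ico le_rfl (grid_ge g η N M)
      · intro n _ _
        exact hterm n
    rw [h2]
    refine h3.trans ?_
    rw [← sum_blocks _ b hmono.monotone M]
    refine (Finset.sum_le_sum fun j _ => hblock j).trans ?_
    rw [← Finset.mul_sum]
    exact mul_le_mul_of_nonneg_left (hcon.sum_le_tsum _ fun j _ => h.nonneg _) (by positivity)
  have htop : ∑' j, ENNReal.ofReal (Q g V C (b (j + 1))) = ⊤ := by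
    by_contra hcon
    apply hdiv
    have h2 := ENNReal.summable_toReal hcon
    refine h2.congr fun j => ?_
    exact ENNReal.toReal_ofReal (h.nonneg _)
  -- classes
  obtain ⟨R, hR⟩ : ∃ R : ℕ, C / η ≤ R := exists_nat_ge _
  have hRne : NeZero (R + 1) := ⟨Nat.succ_ne_zero R⟩
  rw [tsum_classes (R + 1)] at htop
  obtain ⟨r, -, hr⟩ := ENNReal.sum_eq_top.1 htop
  -- disjoint windows
  have hstep : ∀ k t : ℕ, (b k : ℝ) + t * (η * g (b k)) ≤ b (k + t) := by
    intro k t
    induction t with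
    | zero => simp
    | succ t ih =>
      have h2 := grid_step_gt g η N (k + t)
      change ((b (k + t) : ℕ) : ℝ) + η * g (b (k + t)) < b (k + t + 1) at h2
      have h3 : η * g (b k) ≤ η * g (b (k + t)) :=
        mul_le_mul_of_nonneg_left (hg.mono (hmono.monotone (Nat.le_add_right k t))) hη.le
      rw [← add_assoc]
      push_cast
      linarith
  have hend : ∀ k k' : ℕ, k + (R + 1) ≤ k' → b k + ⌊C * g (b k)⌋₊ ≤ b k' := by
    intro k k' hk
    have h2 := hstep k (R + 1)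
    have h3 : C * g (b k) ≤ (R + 1 : ℕ) * (η * g (b k)) := by
      rw [← mul_assoc]
      apply mul_le_mul_of_nonneg_right _ (hg.nonneg _)
      rw [div_le_iff₀ hη] at hR
      push_cast
      nlinarith
    have h4 : ((b k + ⌊C * g (b k)⌋₊ : ℕ) : ℝ) ≤ ((b (k + (R + 1)) : ℕ) : ℝ) := by
      push_cast
      have := Nat.floor_le (mul_nonneg hC (hg.nonneg (b k)))
      linarith
    have h5 : b k + ⌊C * g (b k)⌋₊ ≤ b (k + (R + 1)) := by exact_mod_cast h4
    exact h5.trans (hmono.monotone hk)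
  set ix : ℕ → ℕ := fun i => i * (R + 1) + r + 1 with hix
  have hdisj : ∀ i j, i ≠ j → Disjoint (Ioc (b (ix i)) (b (ix i) + ⌊C * g (b (ix i))⌋₊))
      (Ioc (b (ix j)) (b (ix j) + ⌊C * g (b (ix j))⌋₊)) := by
    have key : ∀ i j, i < j → Disjoint (Ioc (b (ix i)) (b (ix i) + ⌊C * g (b (ix i))⌋₊))
      (Ioc (b (ix j)) (b (ix j) + ⌊C * g (b (ix j))⌋₊)) := by
      intro i j hij
      have h2 := hend (ix i) (ix j) (by
        simp only [hix]
        nlinarith)
      rw [Finset.disjoint_left]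
      intro x hx hx'
      rw [Finset.mem_Ioc] at hx hx'
      omega
    intro i j hij
    rcases lt_or_gt_of_ne hij with h2 | h2
    · exact key i j h2
    · exact (key j i h2).symm
  filter_upwards [h.bc2 _ hdisj hr] with ω hω
  have hix' : Tendsto (fun i => b (ix i)) atTop atTop := by
    apply hmono.tendsto_atTop.comp
    apply tendsto_atTop_mono (f := fun i => i) _ tendsto_id
    intro i
    simp only [hix]
    nlinarith [Nat.zero_le i, Nat.zero_le R]
  exact hix'.frequently hω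

/-- the almost sure value of the limsup of the gaps -/
noncomputable def LamV (g : ℕ → ℝ) (V : Finset ℕ → ℝ) : ℝ≥0∞ :=
  sInf {x : ℝ≥0∞ | ∃ C : ℝ, 0 < C ∧ x = ENNReal.ofReal C ∧ Summable fun n => Q g V C n / g n}

theorem formula {Ω : Type} [MeasurableSpace Ω] {μ : Measure Ω} [IsProbabilityMeasure μ] {S : Ω → Set ℕ}
    {V : Finset ℕ → ℝ} {g : ℕ → ℝ} (hg : Scale g) (h : RV μ S V) :
    ∀ᵐ ω ∂μ, gapLim g (S ω) = LamV g V := by
  have hU : ∀ q : ℚ, LamV g V < ENNReal.ofReal q → ∀ᵐ ω ∂μ, ∀ᶠ n in atTop, ¬ Emp g q (S ω) n := by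
    intro q hq
    obtain ⟨x, ⟨C, hC, rfl, hs⟩, hxq⟩ := sInf_lt_iff.1 hq
    have hCq : C < q := by
      by_contra hcon
      push Not at hcon
      exact absurd (ENNReal.ofReal_le_ofReal hcon) (not_le.2 hxq)
    exact upper hg h hC.le hCq hs
  have hL : ∀ q : ℚ, 0 < q → ENNReal.ofReal q < LamV g V → ∀ᵐ ω ∂μ, ∃ᶠ n in atTop, Emp g q (S ω) n := by
    intro q hq0 hq
    obtain ⟨r, hr1, hr2⟩ := ENNReal.lt_iff_exists_nnreal_btwn.1 hq
    have hqr : (q : ℝ) < r := by
      by_contra hcon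
      push Not at hcon
      have h2 := ENNReal.ofReal_le_ofReal hcon
      rw [ENNReal.ofReal_coe_nnreal] at h2
      exact absurd h2 (not_le.2 hr1)
    have hq0' : (0 : ℝ) < q := by exact_mod_cast hq0
    refine lower hg h hq0'.le hqr ?_
    intro hs
    have h3 : LamV g V ≤ ENNReal.ofReal (r : ℝ) := sInf_le ⟨r, hq0'.trans hqr, rfl, hs⟩
    rw [ENNReal.ofReal_coe_nnreal] at h3
    exact absurd h3 (not_le.2 hr2)
  have hU' : ∀ᵐ ω ∂μ, ∀ q : ℚ, LamV g V < ENNReal.ofReal q → ∀ᶠ n in atTop, ¬ Emp g q (S ω) n := by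
    rw [ae_all_iff]
    intro q
    by_cases hq : LamV g V < ENNReal.ofReal q
    · filter_upwards [hU q hq] with ω hω _
      exact hω
    · exact Eventually.of_forall fun ω hq' => absurd hq' hq
  have hL' : ∀ᵐ ω ∂μ, ∀ q : ℚ, 0 < q → ENNReal.ofReal q < LamV g V → ∃ᶠ n in atTop, Emp g q (S ω) n := by
    rw [ae_all_iff]
    intro q
    by_cases hq : 0 < q ∧ ENNReal.ofReal q < LamV g V
    · filter_upwards [hL q hq.1 hq.2] with ω hω _ _
      exact hω
    · exact Eventually.of_forall fun ω hq1 hq2 => absurd ⟨hq1, hq2⟩ hq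
  have hpos : ∀ᶠ n in atTop, 0 < g n := hg.top.eventually_gt_atTop 0
  filter_upwards [h.inf, hU', hL'] with ω hω1 hω2 hω3
  apply le_antisymm
  · apply le_of_forall_gt_imp_ge_of_dense
    intro a ha
    by_contra hcon
    push Not at hcon
    obtain ⟨q, hq0, hq1, hq2⟩ := ENNReal.lt_iff_exists_rat_btwn.1 (ha.trans hcon)
    have hq3 : LamV g V < ENNReal.ofReal q := hq1
    have hq4 : ENNReal.ofReal q < gapLim g (S ω) := hq2
    have h5 := exists_emp hω1 hg.nonneg (by exact_mod_cast hq0) hq4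
    exact h5 (hω2 q hq3)
  · apply le_of_forall_lt_imp_le_of_dense
    intro a ha
    obtain ⟨q, hq0, hq1, hq2⟩ := ENNReal.lt_iff_exists_rat_btwn.1 ha
    have hq3 : ENNReal.ofReal q < LamV g V := hq2
    have hqpos : 0 < q := by
      rcases hq0.lt_or_eq with h4 | h4
      · exact h4
      · rw [← h4] at hq1
        simp at hq1
    refine hq1.le.trans ?_
    exact le_gapLim hω1 hg.mono hpos (by exact_mod_cast hq0) (hω3 q hqpos hq3)

end Q198.PP
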