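import Pool.Agent.Q198.PP.P5
import Pool.Agent.Q110.RS.M4

/-! # Lower bounds for the gaps of the moved primes from the matrix of Maier -/

set_option autoImplicit false

namespace Q198.PP

open Filter Finset MeasureTheory ProbabilityTheory
open scoped ENNReal Topology
open Pool.Agent.Q110.RS (tlog log_nat_nonneg pow_growth lpw lpw_nonneg log_ge_one)
open Pool.Agent.Q110.RS.M (om om_pos NFu few_freq')
open Pool.Agent.H510R2.Maier (cntP cntP_eq)

theorem card_prs (m Y : ℕ) : (prs m (m + Y)).card = cntP Nat.Prime m Y := by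
  classical
  rw [cntP_eq]
  symm
  apply Finset.card_bij (fun h _ => m + h)
  · intro h hh
    rw [mem_filter, mem_Icc] at hh
    unfold prs
    rw [mem_filter, mem_Ioc]
    exact ⟨by omega, hh.2⟩
  · intro a _ b _ hab
    omega
  · intro p hp
    unfold prs at hp
    rw [mem_filter, mem_Ioc] at hp
    exact ⟨p - m, by
      rw [mem_filter, mem_Icc]
      refine ⟨by omega, ?_⟩
      have : m + (p - m) = p := by omega
      rw [this]
      exact hp.2, by omega⟩

theorem not_summable_maier {H : ℕ → ℕ} {c c' u C : ℝ} (hu : 2 ≤ u) (hu3 : u < 3) (hc : 0 < c) (hc' : 0 < c')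
    (hC : 0 < C)
    (hcC : C < c * (1 - Real.exp (-1 / (c * (Real.exp Real.eulerMascheroniConstant * om u)))))
    (hH : ∀ᶠ p : ℕ in atTop, c * Real.log p ^ 2 ≤ H p)
    (hH' : ∀ᶠ p : ℕ in atTop, (H p : ℝ) ≤ c' * Real.log p ^ u) :
    ¬ Summable fun n => Q (lpw 2) (vd PR id (wU H)) C n / lpw 2 n := by
  classical
  intro hsum
  set θ := Real.exp Real.eulerMascheroniConstant * om u with hθ
  have hθ0 : 0 < θ := mul_pos (Real.exp_pos _) (om_pos hu)
  obtain ⟨r, hr1, hr2⟩ : ∃ r, C / c < r ∧ r < 1 - Real.exp (-1 / (c * θ)) := by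
    apply _root_.exists_between
    rw [div_lt_iff₀ hc, mul_comm]
    exact hcC
  have hexp := Real.exp_pos (-1 / (c * θ))
  have hr0 : 0 < r := lt_trans (by positivity) hr1
  have hr3 : r < 1 := by linarith
  have hlog : -1 / (c * θ) < Real.log (1 - r) := by
    rw [Real.lt_log_iff_exp_lt (by linarith)]
    linarith
  have hlog2 : Real.log (1 - r) < 0 := Real.log_neg (by linarith) (by linarith)
  obtain ⟨K, hKd⟩ : ∃ K, K = - Real.log (1 - r) / r := ⟨_, rfl⟩
  have hKr : K * r = - Real.log (1 - r) := by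
    rw [hKd]
    field_simp
  have hK0 : 0 < K := by
    rw [hKd]
    exact div_pos (by linarith) hr0
  have hCrc : C < r * c := by
    rw [div_lt_iff₀ hc] at hr1
    exact hr1
  have hKC : K * C * θ < 1 := by
    have h1 : K * C * θ < K * (r * c) * θ := by gcongr
    have h2 : K * (r * c) * θ = - Real.log (1 - r) * (c * θ) := by rw [← mul_assoc K, hKr]; ring
    have h3 : - Real.log (1 - r) * (c * θ) < 1 := by
      rw [div_lt_iff₀ (by positivity)] at hlog
      linarith
    linarith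
  -- the factor b
  obtain ⟨b, hb1, hb2, hb3, hb4⟩ : ∃ b : ℝ, 1 < b ∧ b < 2 ∧ C * b ^ 4 < r * c ∧ K * C * θ * b ^ 4 < 1 := by
    have t1 : Tendsto (fun b : ℝ => C * b ^ 4) (𝓝[>] 1) (𝓝 (C * 1 ^ 4)) :=
      ((continuous_const.mul (continuous_pow 4)).tendsto 1).mono_left nhdsWithin_le_nhds
    have t2 : Tendsto (fun b : ℝ => K * C * θ * b ^ 4) (𝓝[>] 1) (𝓝 (K * C * θ * 1 ^ 4)) :=
      ((continuous_const.mul (continuous_pow 4)).tendsto 1).mono_left nhdsWithin_le_nhds
    have t3 : Tendsto (fun b : ℝ => b) (𝓝[>] 1) (𝓝 1) := tendsto_id.mono_left nhdsWithin_le_nhds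
    obtain ⟨b, h1, h2, h3, h4⟩ := ((t1.eventually_lt_const (by simpa using hCrc)).and
      ((t2.eventually_lt_const (by simpa using hKC)).and
        ((t3.eventually_lt_const (show (1 : ℝ) < 2 by norm_num)).and
          (eventually_nhdsWithin_of_forall (s := Set.Ioi (1 : ℝ)) fun b hb => hb)))).exists
    exact ⟨b, h4, h3, h1, h2⟩
  set σ := K * C * θ * b ^ 4 with hσ
  have hσ0 : 0 < σ := by positivity
  -- the windows
  obtain ⟨c₁, hc₁⟩ : ∃ c₁, c₁ = (C * b ^ 2 + c' + 1) * b / (b - 1) := ⟨_, rfl⟩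
  have hc₁0 : 0 < c₁ := by
    rw [hc₁]
    apply div_pos _ (by linarith)
    positivity
  have hc₁b : C * b ^ 2 + c' + 1 = c₁ - c₁ / b := by
    have hb0 : b - 1 ≠ 0 := by linarith
    have hb0' : b ≠ 0 := by linarith
    rw [hc₁]
    field_simp
  set κ := c₁ * θ * b with hκ
  have hκ0 : 0 < κ := by positivity
  have hfreq := few_freq' (κ := κ) (c := c₁) (u := u) (η := (1 - σ) / 2) hu hu3 hκ0 hc₁0 (by
    rw [hκ, ← hθ]
    exact lt_mul_of_one_lt_right (by positivity) hb1) (by linarith)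
  obtain ⟨P0, hP0⟩ := eventually_atTop.1 (hH.and hH')
  obtain ⟨M, hM⟩ : ∃ M : ℕ, ∀ p < P0, p + H p ≤ M :=
    ⟨(range P0).sup (fun p => p + H p), fun p hp => Finset.le_sup (f := fun p => p + H p) (mem_range.2 hp)⟩
  -- one window
  set Y : ℕ → ℕ := fun m => ⌊c₁ * Real.log m ^ u⌋₊ with hY
  set tt : ℕ → ℕ := fun m => ⌊C * (b * Real.log m) ^ 2⌋₊ with htt
  set hh : ℕ → ℕ := fun m => ⌊c' * Real.log m ^ u⌋₊ with hhh
  set NN : ℕ → Finset ℕ := fun m => Ioc (m + hh m) (m + Y m - tt m) with hNN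
  have hwin : ∀ᶠ m : ℕ in atTop, (cntP Nat.Prime m (Y m) : ℝ) ≤ κ * Real.log m ^ (u - 1) →
      (m : ℝ) ^ (-σ) ≤ ∑ n ∈ NN m, vd PR id (wU H) (Ioc n (n + tt m)) ∧
      (∀ n ∈ NN m, Real.log n ≤ b * Real.log m ∧ m < n ∧ n ≤ m + Y m) := by
    filter_upwards [log_near hb1, eventually_gt_atTop (M + P0 + 3), pow_growth u 1 c₁ one_pos,
      tlog.eventually_ge_atTop 1, tlog.eventually_ge_atTop ((b / c₁) + 1)] with m h2 h3 h4 h5 h6 hgood
    have hm0 : (0 : ℝ) < m := by exact_mod_cast (by omega : 0 < m)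
    set l := Real.log m with hl
    have hl0 : 0 < l := by linarith
    have hlu : 0 < l ^ u := Real.rpow_pos_of_pos hl0 u
    have hl2u : l ^ 2 ≤ l ^ u := by
      rw [← Real.rpow_natCast l 2]
      exact Real.rpow_le_rpow_of_exponent_le h5 (by exact_mod_cast hu)
    have hlle : l ≤ l ^ u := by
      calc l = l ^ (1 : ℝ) := (Real.rpow_one l).symm
        _ ≤ _ := Real.rpow_le_rpow_of_exponent_le h5 (by linarith)
    have hYr : (Y m : ℝ) ≤ c₁ * l ^ u := Nat.floor_le (by positivity)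
    have hYr2 : c₁ * l ^ u < (Y m : ℝ) + 1 := Nat.lt_floor_add_one _
    have htr : (tt m : ℝ) ≤ C * (b * l) ^ 2 := Nat.floor_le (by positivity)
    have hhr : (hh m : ℝ) ≤ c' * l ^ u := Nat.floor_le (by positivity)
    have hYm : (Y m : ℝ) ≤ m := by
      rw [Real.rpow_one] at h4
      linarith
    have hNr : c₁ / b * l ^ u ≤ (Y m : ℝ) - tt m - hh m := by
      have h7 : (tt m : ℝ) ≤ C * b ^ 2 * l ^ u := by
        calc (tt m : ℝ) ≤ C * (b * l) ^ 2 := htr
          _ = C * b ^ 2 * l ^ 2 := by ring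
          _ ≤ _ := mul_le_mul_of_nonneg_left hl2u (by positivity)
      have h8 : (C * b ^ 2 + c' + 1) * l ^ u = (c₁ - c₁ / b) * l ^ u := by rw [hc₁b]
      have h9 : 1 ≤ l ^ u := by linarith
      nlinarith
    have hbl : 1 ≤ c₁ / b * l ^ u := by
      have h7 : b / c₁ ≤ l ^ u := by linarith
      calc (1 : ℝ) = c₁ / b * (b / c₁) := by field_simp
        _ ≤ _ := mul_le_mul_of_nonneg_left h7 (by positivity)
    have hNcard : ((NN m).card : ℝ) = (Y m : ℝ) - tt m - hh m := by
      have h7 : hh m + tt m ≤ Y m := by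
        have : ((hh m + tt m : ℕ) : ℝ) ≤ Y m := by
          push_cast
          linarith
        exact_mod_cast this
      simp only [hNN]
      rw [Nat.card_Ioc]
      have h8 : m + Y m - tt m - (m + hh m) = Y m - (hh m + tt m) := by omega
      rw [h8, Nat.cast_sub h7]
      push_cast
      ring
    have hNcard1 : (1 : ℝ) ≤ (NN m).card := by
      rw [hNcard]
      linarith
    have hNne : (NN m).Nonempty := by
      rw [← card_pos]
      exact_mod_cast (by linarith : (0 : ℝ) < (NN m).card)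
    have hnlog : ∀ n ∈ NN m, Real.log n ≤ b * l ∧ m < n ∧ n ≤ m + Y m := by
      intro n hn
      simp only [hNN] at hn
      rw [mem_Ioc] at hn
      have h7 : (n : ℝ) ≤ 4 * m := by
        have : (n : ℝ) ≤ m + Y m := by exact_mod_cast (by omega : n ≤ m + Y m)
        linarith only [hYm, hm0, this]
      have h8 : (m : ℝ) ≤ n := by exact_mod_cast (by omega : m ≤ n)
      exact ⟨(h2 n (by linarith only [hm0, h8]) h7).2, by omega, by omega⟩
    refine ⟨?_, hnlog⟩
    have main := sum_vd_lower (A := PR) (H := H) (t := tt m) (N := NN m) (PW := prs m (m + Y m))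
      hK0.le hNne (by
        intro n hn p hp
        apply exp_chord hr0 hr3 hKr (hit_wU_nonneg H p n _)
        rw [hit_wU, div_le_iff₀ (by positivity)]
        unfold prs at hp
        rw [mem_filter, mem_Ioc] at hp
        have hpm : (m : ℝ) ≤ p := by exact_mod_cast hp.1.1.le
        have h7 := (hP0 p (by omega)).1
        have h9 : (ovl H p n (tt m) : ℝ) ≤ tt m := by exact_mod_cast ovl_le H p n (tt m)
        have h10 : l ^ 2 ≤ Real.log p ^ 2 := pow_le_pow_left₀ hl0.le (Real.log_le_log hm0 hpm) 2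
        have h11 : C * (b * l) ^ 2 ≤ C * b ^ 4 * Real.log p ^ 2 := by
          have hbb : b ^ 2 ≤ b ^ 4 := pow_le_pow_right₀ hb1.le (by norm_num)
          calc C * (b * l) ^ 2 = C * b ^ 2 * l ^ 2 := by ring
            _ ≤ C * b ^ 4 * Real.log p ^ 2 := by gcongr
        have h12 : C * b ^ 4 * Real.log p ^ 2 ≤ r * c * Real.log p ^ 2 :=
          mul_le_mul_of_nonneg_right hb3.le (by positivity)
        have h13 : r * (c * Real.log p ^ 2) ≤ r * H p := mul_le_mul_of_nonneg_left h7 hr0.le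
        nlinarith)
      (by
        intro n hn p hp hpn hnp
        simp only [hNN] at hn
        rw [mem_Ioc] at hn
        unfold prs
        rw [mem_filter, mem_Ioc]
        refine ⟨⟨?_, by omega⟩, hp⟩
        by_contra hcon
        push Not at hcon
        rcases lt_or_ge p P0 with h7 | h7
        · have := hM p h7
          omega
        · have h8 := (hP0 p h7).2
          have h9 : Real.log p ≤ l := by
            rcases Nat.eq_zero_or_pos p with h10 | h10
            · rw [h10]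
              simpa using hl0.le
            · exact Real.log_le_log (by exact_mod_cast h10) (by exact_mod_cast hcon)
          have h10 : (H p : ℝ) ≤ c' * l ^ u := by
            refine h8.trans (mul_le_mul_of_nonneg_left ?_ hc'.le)
            exact Real.rpow_le_rpow (log_nat_nonneg p) h9 (by linarith)
          have h11 : H p ≤ hh m := Nat.le_floor h10
          omega)
    have hPW : ((prs m (m + Y m)).card : ℝ) ≤ κ * l ^ (u - 1) := by
      rw [card_prs]
      exact hgood
    have hexpo : K * tt m * (prs m (m + Y m)).card / (NN m).card ≤ σ * l := by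
      rw [div_le_iff₀ (by linarith), hNcard]
      have h7 : K * tt m * (prs m (m + Y m)).card ≤ K * (C * (b * l) ^ 2) * (κ * l ^ (u - 1)) :=
        mul_le_mul (mul_le_mul_of_nonneg_left htr hK0.le) hPW (Nat.cast_nonneg _)
          (mul_nonneg hK0.le (mul_nonneg hC.le (sq_nonneg _)))
      have h8 : l ^ (u - 1) * l = l ^ u := by
        nth_rewrite 2 [← Real.rpow_one l]
        rw [← Real.rpow_add hl0]
        congr 1
        ring
      have h9 : K * (C * (b * l) ^ 2) * (κ * l ^ (u - 1)) = σ * l * (c₁ / b * l ^ u) := by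
        rw [← h8, hσ, hκ]
        field_simp
      rw [h9] at h7
      exact h7.trans (mul_le_mul_of_nonneg_left hNr (by positivity))
    refine le_trans ?_ main
    calc (m : ℝ) ^ (-σ) = Real.exp (-(σ * l)) := by
          rw [Real.rpow_def_of_pos hm0]
          congr 1
          ring
      _ ≤ Real.exp (-(K * tt m * (prs m (m + Y m)).card / (NN m).card)) := by
          apply Real.exp_le_exp.2
          linarith
      _ ≤ _ := le_mul_of_one_le_left (Real.exp_pos _).le hNcard1
  -- the sum over all windows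
  obtain ⟨m0, hm0⟩ := eventually_atTop.1 (hwin.and (eventually_ge_atTop 3))
  set F : ℕ → ℝ := fun n => Q (lpw 2) (vd PR id (wU H)) C n / lpw 2 n with hF
  have hF0 : ∀ n, 0 ≤ F n := fun n => div_nonneg (vd_nonneg PR H n _) (lpw_nonneg 2 n)
  set s := ∑' n, F n with hs
  have hs0 : 0 ≤ s := tsum_nonneg hF0
  obtain ⟨x, g1, g2, g3, g4, g5⟩ := (hfreq.and ((pow_growth (u + 2) ((1 - σ) / 4) (b ^ 2 * c₁ * (s + 1)) (by linarith)).and
    ((eventually_gt_atTop (m0 + 3)).and ((tlog.eventually_ge_atTop 1).and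
      (pow_growth 0 ((1 - σ) / 4) ((m0 : ℝ) + 1) (by linarith)))))).exists
  have hx0 : (0 : ℝ) < x := by exact_mod_cast (by omega : 0 < x)
  have hx1 : (1 : ℝ) ≤ x := by exact_mod_cast (by omega : 1 ≤ x)
  set Lx := Real.log x with hLx
  have hLx0 : 0 < Lx := by linarith
  unfold NFu at g1
  set G := ((Icc 1 x).filter (fun n : ℕ => (cntP Nat.Prime n ⌊c₁ * (Real.log n) ^ u⌋₊ : ℝ) ≤
    κ * (Real.log n) ^ (u - 1))).filter (fun n => m0 ≤ n) with hG
  have hGcard : (x : ℝ) ^ (1 - (1 - σ) / 2) - m0 ≤ G.card := by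
    have h7 : ((Icc 1 x).filter (fun n : ℕ => (cntP Nat.Prime n ⌊c₁ * (Real.log n) ^ u⌋₊ : ℝ) ≤
        κ * (Real.log n) ^ (u - 1))).card ≤ G.card + m0 := by
      have h8 : (Icc 1 x).filter (fun n : ℕ => (cntP Nat.Prime n ⌊c₁ * (Real.log n) ^ u⌋₊ : ℝ) ≤
        κ * (Real.log n) ^ (u - 1)) ⊆ G ∪ range m0 := by
        intro n hn
        rw [mem_union, hG, mem_filter, mem_range]
        by_cases h9 : m0 ≤ n
        · exact Or.inl ⟨hn, h9⟩
        · exact Or.inr (by omega)
      refine (card_le_card h8).trans ((card_union_le _ _).trans ?_)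
      rw [card_range]
    have h8 : (((Icc 1 x).filter (fun n : ℕ => (cntP Nat.Prime n ⌊c₁ * (Real.log n) ^ u⌋₊ : ℝ) ≤
        κ * (Real.log n) ^ (u - 1))).card : ℝ) ≤ G.card + m0 := by exact_mod_cast h7
    linarith
  have hlower : ∀ m ∈ G, (x : ℝ) ^ (-σ) ≤ (b * Lx) ^ 2 * ∑ n ∈ NN m, F n := by
    intro m hm
    rw [hG, mem_filter, mem_filter, mem_Icc] at hm
    obtain ⟨h7, h8⟩ := (hm0 m hm.2).1 hm.1.2
    have hm3 : 3 ≤ m := (hm0 m hm.2).2
    have hmr : (0 : ℝ) < m := by exact_mod_cast (by omega : 0 < m)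
    have hmx : (m : ℝ) ≤ x := by exact_mod_cast hm.1.1.2
    have hlm : Real.log m ≤ Lx := Real.log_le_log hmr hmx
    have hlm0 : 0 < Real.log m := by linarith [log_ge_one hm3]
    have h9 : (x : ℝ) ^ (-σ) ≤ (m : ℝ) ^ (-σ) :=
      Real.rpow_le_rpow_of_nonpos hmr hmx (by linarith)
    refine h9.trans (h7.trans ?_)
    rw [mul_sum]
    apply sum_le_sum
    intro n hn
    obtain ⟨k1, k2, k3⟩ := h8 n hn
    have hln : 0 < Real.log n := lt_of_lt_of_le hlm0 (Real.log_le_log hmr (by exact_mod_cast k2.le))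
    have h10 : Real.log n ^ 2 ≤ (b * Real.log m) ^ 2 := pow_le_pow_left₀ hln.le k1 2
    have h11 : (b * Real.log m) ^ 2 ≤ (b * Lx) ^ 2 :=
      pow_le_pow_left₀ (by positivity) (mul_le_mul_of_nonneg_left hlm (by linarith)) 2
    simp only [hF]
    rw [lpw_two]
    have h12 : vd PR id (wU H) (Ioc n (n + tt m)) ≤ Q (lpw 2) (vd PR id (wU H)) C n := by
      unfold Q
      apply vd_anti
      rw [lpw_two]
      exact Nat.floor_le_floor (mul_le_mul_of_nonneg_left h10 hC.le)
    have h13 : 0 ≤ Q (lpw 2) (vd PR id (wU H)) C n := vd_nonneg PR H n _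
    rw [mul_div_assoc', le_div_iff₀ (by positivity)]
    calc vd PR id (wU H) (Ioc n (n + tt m)) * Real.log n ^ 2
        ≤ Q (lpw 2) (vd PR id (wU H)) C n * (b * Lx) ^ 2 :=
          mul_le_mul h12 (h10.trans h11) (by positivity) h13
      _ = _ := by ring
  -- double counting
  have hdc : ∑ m ∈ G, ∑ n ∈ NN m, F n ≤ (c₁ * Lx ^ u) * s := by
    have h7 : ∀ m ∈ G, ∑ n ∈ NN m, F n = ∑ n ∈ range (2 * x + Y x + 1), if n ∈ NN m then F n else 0 := by
      intro m hm
      rw [← sum_filter]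
      apply sum_congr _ fun _ _ => rfl
      rw [hG, mem_filter, mem_filter, mem_Icc] at hm
      ext n
      rw [mem_filter, mem_range]
      refine ⟨fun h => ⟨?_, h⟩, fun h => h.2⟩
      obtain ⟨-, -, k3⟩ := ((hm0 m hm.2).1 hm.1.2).2 n h
      have h8 : Y m ≤ Y x := by
        simp only [hY]
        apply Nat.floor_le_floor
        apply mul_le_mul_of_nonneg_left _ hc₁0.le
        apply Real.rpow_le_rpow (log_nat_nonneg m) _ (by linarith)
        exact Real.log_le_log (by exact_mod_cast (by omega : 0 < m)) (by exact_mod_cast hm.1.1.2)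
      omega
    rw [sum_congr rfl h7, sum_comm]
    have h8 : ∀ n ∈ range (2 * x + Y x + 1), (∑ m ∈ G, if n ∈ NN m then F n else 0) ≤ c₁ * Lx ^ u * F n := by
      intro n _
      rw [← sum_filter, sum_const, nsmul_eq_mul]
      apply mul_le_mul_of_nonneg_right _ (hF0 n)
      have h9 : G.filter (fun m => n ∈ NN m) ⊆ Ico (n - Y x) n := by
        intro m hm
        rw [mem_filter] at hm
        have hm' := hm.1
        rw [hG, mem_filter, mem_filter, mem_Icc] at hm'
        obtain ⟨-, k2, k3⟩ := ((hm0 m hm'.2).1 hm'.1.2).2 n hm.2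
        have h8 : Y m ≤ Y x := by
          simp only [hY]
          apply Nat.floor_le_floor
          apply mul_le_mul_of_nonneg_left _ hc₁0.le
          apply Real.rpow_le_rpow (log_nat_nonneg m) _ (by linarith)
          exact Real.log_le_log (by exact_mod_cast (by omega : 0 < m)) (by exact_mod_cast hm'.1.1.2)
        rw [mem_Ico]
        omega
      have h10 := card_le_card h9
      rw [Nat.card_Ico] at h10
      have h11 : (G.filter (fun m => n ∈ NN m)).card ≤ Y x := by omega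
      have h12 : (Y x : ℝ) ≤ c₁ * Lx ^ u := Nat.floor_le (by positivity)
      exact le_trans (by exact_mod_cast h11) h12
    refine (sum_le_sum h8).trans ?_
    rw [← mul_sum]
    exact mul_le_mul_of_nonneg_left (hsum.sum_le_tsum _ fun n _ => hF0 n) (by positivity)
  have hfin : (G.card : ℝ) * (x : ℝ) ^ (-σ) ≤ (b * Lx) ^ 2 * ((c₁ * Lx ^ u) * s) := by
    rw [← nsmul_eq_mul]
    refine (card_nsmul_le_sum _ _ _ hlower).trans ?_
    rw [← mul_sum]
    exact mul_le_mul_of_nonneg_left hdc (by positivity)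
  -- contradiction
  have q1 : (x : ℝ) ^ (-σ) * (x : ℝ) ^ (1 - (1 - σ) / 2) = (x : ℝ) ^ ((1 - σ) / 4) * (x : ℝ) ^ ((1 - σ) / 4) := by
    rw [← Real.rpow_add hx0, ← Real.rpow_add hx0]
    congr 1
    ring
  have q2 : (x : ℝ) ^ (-σ) ≤ 1 := Real.rpow_le_one_of_one_le_of_nonpos hx1 (by linarith)
  have q3 : (b * Lx) ^ 2 * ((c₁ * Lx ^ u) * s) ≤ b ^ 2 * c₁ * (s + 1) * Lx ^ (u + 2) := by
    have : Lx ^ (u + 2) = Lx ^ u * Lx ^ 2 := by
      rw [Real.rpow_add hLx0]
      congr 1
      exact_mod_cast Real.rpow_natCast Lx 2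
    rw [this]
    have h7 : 0 < Lx ^ u := Real.rpow_pos_of_pos hLx0 u
    have h8 : 0 ≤ b ^ 2 * c₁ * (Lx ^ u * Lx ^ 2) := by positivity
    nlinarith
  set z := (x : ℝ) ^ ((1 - σ) / 4) with hz
  rw [Real.rpow_zero, mul_one] at g5
  have q4 : (x : ℝ) ^ (-σ) * ((x : ℝ) ^ (1 - (1 - σ) / 2) - m0) ≤ b ^ 2 * c₁ * (s + 1) * Lx ^ (u + 2) := by
    refine le_trans ?_ (hfin.trans q3)
    rw [mul_comm]
    exact mul_le_mul_of_nonneg_right hGcard (Real.rpow_nonneg hx0.le _)
  have hm0r : (0 : ℝ) ≤ m0 := Nat.cast_nonneg m0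
  have q5 : (x : ℝ) ^ (-σ) * m0 ≤ m0 := mul_le_of_le_one_left hm0r q2
  have q6 : z * z - m0 < z := by nlinarith
  nlinarith

end Q198.PP
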