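import Pool.Agent.Q198.PP.P5

/-! # Moving the members of a set by at most `c g`: the limsup of the normalised gaps changes by at most `c` -/

set_option autoImplicit false

namespace Q198.PP

open Filter Finset
open scoped ENNReal Topology
open Pool.Agent.Q110.RS (gapLim Emp exists_emp le_gapLim Scale)

theorem moved_inf {A : Set ℕ} (hA : A.Infinite) {x : ℕ → ℕ} (hx : ∀ p, p ≤ x p) :
    ({m | ∃ p ∈ A, x p = m} : Set ℕ).Infinite := by
  intro hcon
  apply hA
  apply (Set.finite_Iic (hcon.toFinset.sup id)).subset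
  intro p hp
  have h1 : x p ∈ ({m | ∃ p ∈ A, x p = m} : Set ℕ) := ⟨p, hp, rfl⟩
  exact (hx p).trans (Finset.le_sup (f := id) (hcon.mem_toFinset.2 h1))

theorem close_one {A : Set ℕ} (hA : A.Infinite) {x H : ℕ → ℕ} {g : ℕ → ℝ} (hg : Scale g)
    (hx : ∀ p, p ≤ x p) (hx2 : ∀ p, x p ≤ p + H p) {c : ℝ} (hc : 0 ≤ c)
    (hH : ∀ᶠ p : ℕ in atTop, (H p : ℝ) ≤ c * g p) :
    gapLim g {m | ∃ p ∈ A, x p = m} ≤ gapLim g A + ENNReal.ofReal c := by
  by_contra hcon
  push Not at hcon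
  obtain ⟨q, hq1, hq2⟩ := ENNReal.lt_iff_exists_nnreal_btwn.1 hcon
  have hfin : gapLim g A ≠ ⊤ := by
    intro h
    rw [h, top_add] at hq1
    exact not_top_lt hq1
  obtain ⟨a, ha⟩ : ∃ a : ℝ, a = (gapLim g A).toReal := ⟨_, rfl⟩
  have ha0 : 0 ≤ a := by rw [ha]; exact ENNReal.toReal_nonneg
  have haA : gapLim g A = ENNReal.ofReal a := by rw [ha, ENNReal.ofReal_toReal hfin]
  have hac : a + c < q := by
    rw [haA, ← ENNReal.ofReal_add ha0 hc, ← ENNReal.ofReal_coe_nnreal] at hq1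
    exact (ENNReal.ofReal_lt_ofReal_iff_of_nonneg (by positivity)).1 hq1
  -- q'
  obtain ⟨q', h1, h2⟩ : ∃ q' : ℝ, a < q' ∧ q' + c < q := ⟨(a + (q - c)) / 2, by linarith, by linarith⟩
  obtain ⟨ε, hε, h3⟩ : ∃ ε : ℝ, 0 < ε ∧ q' + c * (1 + ε) ≤ q := by
    refine ⟨(q - q' - c) / (c + 1), div_pos (by linarith) (by linarith), ?_⟩
    have h4 : c * ((q - q' - c) / (c + 1)) ≤ q - q' - c := by
      rw [mul_div_assoc', div_le_iff₀ (by linarith)]
      nlinarith
    linarith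
  have hinf := moved_inf hA hx
  have hE := exists_emp (C := (q : ℝ)) hinf hg.nonneg q.2 (by rw [ENNReal.ofReal_coe_nnreal]; exact hq2)
  have hE2 : ∃ᶠ n in atTop, Emp g q' A n := by
    obtain ⟨P0, hP0⟩ := eventually_atTop.1 hH
    refine (hE.and_eventually ((hg.slow q' ε (by linarith) hε).and (eventually_ge_atTop P0))).mono ?_
    rintro n ⟨h5, h6, h7⟩ p hp hpA
    rw [mem_Ioc] at hp
    have h8 := hP0 p (by omega)
    have h9 : g p ≤ (1 + ε) * g n := (hg.mono hp.2).trans h6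
    have h10 : (p : ℝ) ≤ n + q' * g n := by
      have h11 : (p : ℝ) ≤ n + ⌊q' * g n⌋₊ := by exact_mod_cast hp.2
      have := Nat.floor_le (mul_nonneg (show 0 ≤ q' by linarith) (hg.nonneg n))
      linarith
    have h11 : c * g p ≤ c * ((1 + ε) * g n) := mul_le_mul_of_nonneg_left h9 hc
    have h12 : (x p : ℝ) ≤ n + q * g n := by
      have h13 : (x p : ℝ) ≤ p + H p := by exact_mod_cast hx2 p
      have h14 : (q' + c * (1 + ε)) * g n ≤ q * g n := mul_le_mul_of_nonneg_right h3 (hg.nonneg n)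
      linarith
    have h13 : x p - n ≤ ⌊q * g n⌋₊ := by
      apply Nat.le_floor
      rw [Nat.cast_sub (by have := hx p; omega)]
      linarith
    exact h5 (x p) (mem_Ioc.2 ⟨by have := hx p; omega, by omega⟩) ⟨p, hpA, rfl⟩
  have h5 := le_gapLim hA hg.mono (hg.top.eventually_gt_atTop 0) (by linarith) hE2
  rw [haA] at h5
  have := (ENNReal.ofReal_le_ofReal_iff ha0).1 h5
  linarith

theorem close_two {A : Set ℕ} (hA : A.Infinite) {x H : ℕ → ℕ} {g : ℕ → ℝ} (hg : Scale g)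
    (hx : ∀ p, p ≤ x p) (hx2 : ∀ p, x p ≤ p + H p) {c : ℝ} (hc : 0 ≤ c)
    (hH : ∀ᶠ p : ℕ in atTop, (H p : ℝ) ≤ c * g p) :
    gapLim g A ≤ gapLim g {m | ∃ p ∈ A, x p = m} + ENNReal.ofReal c := by
  by_contra hcon
  push Not at hcon
  set S : Set ℕ := {m | ∃ p ∈ A, x p = m} with hS
  obtain ⟨q, hq1, hq2⟩ := ENNReal.lt_iff_exists_nnreal_btwn.1 hcon
  have hfin : gapLim g S ≠ ⊤ := by
    intro h
    rw [h, top_add] at hq1
    exact not_top_lt hq1
  obtain ⟨a, ha⟩ : ∃ a : ℝ, a = (gapLim g S).toReal := ⟨_, rfl⟩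
  have ha0 : 0 ≤ a := by rw [ha]; exact ENNReal.toReal_nonneg
  have haA : gapLim g S = ENNReal.ofReal a := by rw [ha, ENNReal.ofReal_toReal hfin]
  have hac : a + c < q := by
    rw [haA, ← ENNReal.ofReal_add ha0 hc, ← ENNReal.ofReal_coe_nnreal] at hq1
    exact (ENNReal.ofReal_lt_ofReal_iff_of_nonneg (by positivity)).1 hq1
  obtain ⟨q', h1, h2⟩ : ∃ q' : ℝ, a < q' ∧ q' + c < q := ⟨(a + (q - c)) / 2, by linarith, by linarith⟩
  have hq'0 : 0 < q' := by linarith
  obtain ⟨ε, hε, h3⟩ : ∃ ε : ℝ, 0 < ε ∧ q' * (1 + ε) + c ≤ q := by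
    refine ⟨(q - q' - c) / q', div_pos (by linarith) hq'0, ?_⟩
    have h4 : q' * ((q - q' - c) / q') = q - q' - c := by field_simp
    linarith
  have hinf : S.Infinite := moved_inf hA hx
  have hE := exists_emp (C := (q : ℝ)) hA hg.nonneg q.2 (by rw [ENNReal.ofReal_coe_nnreal]; exact hq2)
  obtain ⟨P0, hP0⟩ := eventually_atTop.1 hH
  obtain ⟨M, hM⟩ : ∃ M : ℕ, ∀ p < P0, p + H p ≤ M :=
    ⟨(range P0).sup (fun p => p + H p), fun p hp => Finset.le_sup (f := fun p => p + H p) (mem_range.2 hp)⟩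
  have hT : Tendsto (fun n : ℕ => n + ⌊c * g n⌋₊) atTop atTop :=
    tendsto_atTop_mono (fun n => Nat.le_add_right n _) tendsto_id
  have hslow : ∀ᶠ n in atTop, g (n + ⌊c * g n⌋₊) ≤ (1 + ε) * g n := by
    filter_upwards [hg.slow (c + 1) ε (by linarith) hε] with n hn
    refine le_trans (hg.mono ?_) hn
    apply Nat.add_le_add_left
    apply Nat.floor_le_floor
    have := hg.nonneg n
    nlinarith
  have hE2 : ∃ᶠ n in atTop, Emp g q' S n := by
    apply hT.frequently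
    refine (hE.and_eventually (hslow.and (eventually_ge_atTop (M + P0)))).mono ?_
    rintro n ⟨h5, h6, h7⟩ m hm hmS
    obtain ⟨p, hpA, hpm⟩ := hmS
    rw [mem_Ioc] at hm
    have hfl := Nat.floor_le (mul_nonneg hc (hg.nonneg n))
    have h8 : (m : ℝ) ≤ n + q * g n := by
      have h9 : (m : ℝ) ≤ (n : ℝ) + ⌊c * g n⌋₊ + ⌊q' * g (n + ⌊c * g n⌋₊)⌋₊ := by exact_mod_cast hm.2
      have h10 := Nat.floor_le (mul_nonneg hq'0.le (hg.nonneg (n + ⌊c * g n⌋₊)))
      have h11 := mul_le_mul_of_nonneg_left h6 hq'0.le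
      have h14 : (q' * (1 + ε) + c) * g n ≤ q * g n := mul_le_mul_of_nonneg_right h3 (hg.nonneg n)
      linarith
    have hpm1 := hx p
    have hpm2 := hx2 p
    rw [hpm] at hpm1 hpm2
    rcases lt_or_ge n p with h9 | h9
    · have h13 : p - n ≤ ⌊q * g n⌋₊ := by
        apply Nat.le_floor
        rw [Nat.cast_sub (by omega)]
        have : (p : ℝ) ≤ m := by exact_mod_cast hpm1
        linarith
      exact h5 p (mem_Ioc.2 ⟨h9, by omega⟩) hpA
    · rcases lt_or_ge p P0 with h10 | h10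
      · have := hM p h10
        omega
      · have h11 := hP0 p h10
        have h12 : c * g p ≤ c * g n := mul_le_mul_of_nonneg_left (hg.mono h9) hc
        have h13 : H p ≤ ⌊c * g n⌋₊ := Nat.le_floor (h11.trans h12)
        omega
  have h5 := le_gapLim hinf hg.mono (hg.top.eventually_gt_atTop 0) (by linarith) hE2
  rw [haA] at h5
  have := (ENNReal.ofReal_le_ofReal_iff ha0).1 h5
  linarith

end Q198.PP
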