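import Pool.Agent.Q198.PP.P9
import Pool.Agent.Q198.PP.P7
import Pool.Agent.Q198.PP.P6
import Pool.Agent.Q110.RS.Num
import Pool.Agent.H295R3.Hoheisel

/-! # Assembly: the constant `Lam H` of the primes with random errors at most `H` -/

set_option autoImplicit false

namespace Q198.PP

open Filter Finset MeasureTheory ProbabilityTheory
open scoped ENNReal Topology
open Pool.Agent.Q110.RS (tlog log_nat_nonneg pow_growth lpw lpw_nonneg log_ge_one gapLim scale_lpw)
open Pool.Agent.Q110.RS.M (om om_pos)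

/-- the constant for the error sizes `H` -/
noncomputable def LH (H : ℕ → ℕ) : ℝ≥0∞ := LamV (lpw 2) (vd PR id (wU H))

theorem LH_le {H : ℕ → ℕ} {C : ℝ} (hC : 0 < C)
    (h : Summable fun n => Q (lpw 2) (vd PR id (wU H)) C n / lpw 2 n) : LH H ≤ ENNReal.ofReal C :=
  sInf_le ⟨C, hC, rfl, h⟩

theorem le_LH {H : ℕ → ℕ} {a : ℝ}
    (h : ∀ C : ℝ, 0 < C → C < a → ¬ Summable fun n => Q (lpw 2) (vd PR id (wU H)) C n / lpw 2 n) :
    ENNReal.ofReal a ≤ LH H := by
  apply le_sInf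
  rintro x ⟨C, hC, rfl, hs⟩
  by_contra hcon
  push Not at hcon
  have h1 : C < a := by
    by_contra h2
    push Not at h2
    exact absurd (ENNReal.ofReal_le_ofReal h2) (not_le.2 hcon)
  exact h C hC h1 hs

theorem exp_neg_le {x : ℝ} (hx : 0 ≤ x) : x - x ^ 2 / 2 ≤ 1 - Real.exp (-x) := by
  have h1 := Real.quadratic_le_exp_of_nonneg hx
  have h2 : Real.exp (-x) * Real.exp x = 1 := by
    rw [← Real.exp_add]
    simp
  have h3 : 0 < 1 + x + x ^ 2 / 2 := by positivity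
  have h4 := Real.exp_pos (-x)
  have h5 : Real.exp (-x) * (1 + x + x ^ 2 / 2) ≤ 1 :=
    (mul_le_mul_of_nonneg_left h1 h4.le).trans h2.le
  have h6 : Real.exp (-x) ≤ 1 - x + x ^ 2 / 2 := by
    rw [← sub_nonneg]
    have h7 : 0 ≤ (1 - x + x ^ 2 / 2 - Real.exp (-x)) * (1 + x + x ^ 2 / 2) := by
      have : (1 - x + x ^ 2 / 2) * (1 + x + x ^ 2 / 2) = 1 + x ^ 4 / 4 := by ring
      have h8 : 0 ≤ x ^ 4 := by positivity
      nlinarith
    exact nonneg_of_mul_nonneg_left h7 h3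
  linarith

/-- `c (1 - exp (-1 / (c θ)))` is at least `1 / θ - 1 / (2 c θ ^ 2)` -/
theorem c_bound {c θ : ℝ} (hc : 0 < c) (hθ : 0 < θ) :
    1 / θ - 1 / (2 * c * θ ^ 2) ≤ c * (1 - Real.exp (-1 / (c * θ))) := by
  have h1 := exp_neg_le (x := 1 / (c * θ)) (by positivity)
  rw [show -(1 / (c * θ)) = -1 / (c * θ) by ring] at h1
  have h2 := mul_le_mul_of_nonneg_left h1 hc.le
  refine le_trans (le_of_eq ?_) h2
  field_simp

theorem LH_ge_all {H : ℕ → ℕ} {c : ℝ} (hc : 0 < c) (hH : ∀ᶠ p : ℕ in atTop, c * Real.log p ^ 2 ≤ H p)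
    (hH' : Tendsto (fun p : ℕ => (H p : ℝ) / p) atTop (𝓝 0)) :
    ENNReal.ofReal (c * (1 - Real.exp (-1 / c))) ≤ LH H :=
  le_LH fun _ hC hCc => not_summable_all hc hC hCc hH hH'

theorem LH_ge_maier {H : ℕ → ℕ} {c c' u : ℝ} (hu : 2 ≤ u) (hu3 : u < 3) (hc : 0 < c) (hc' : 0 < c')
    (hH : ∀ᶠ p : ℕ in atTop, c * Real.log p ^ 2 ≤ H p)
    (hH' : ∀ᶠ p : ℕ in atTop, (H p : ℝ) ≤ c' * Real.log p ^ u) :
    ENNReal.ofReal (c * (1 - Real.exp (-1 / (c * (Real.exp Real.eulerMascheroniConstant * om u))))) ≤ LH H :=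
  le_LH fun _ hC hCc => not_summable_maier hu hu3 hc hc' hC hCc hH hH'

theorem large_of_tendsto {H : ℕ → ℕ} (h : Tendsto (fun p : ℕ => (H p : ℝ) / Real.log p ^ 2) atTop atTop)
    (c : ℝ) : ∀ᶠ p : ℕ in atTop, c * Real.log p ^ 2 ≤ H p := by
  filter_upwards [h.eventually_ge_atTop c, tlog.eventually_ge_atTop 1] with p h1 h2
  exact (le_div_iff₀ (by positivity)).1 h1

/-- the errors dominate `log ^ 2` -/
theorem LH_ge_one {H : ℕ → ℕ} (h : Tendsto (fun p : ℕ => (H p : ℝ) / Real.log p ^ 2) atTop atTop)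
    (hH' : Tendsto (fun p : ℕ => (H p : ℝ) / p) atTop (𝓝 0)) : 1 ≤ LH H := by
  apply le_of_forall_lt
  intro a ha
  obtain ⟨q, h1, h2⟩ := ENNReal.lt_iff_exists_nnreal_btwn.1 ha
  have hq : (q : ℝ) < 1 := by exact_mod_cast h2
  obtain ⟨c, hc, hcq⟩ : ∃ c : ℝ, 0 < c ∧ (q : ℝ) < 1 - 1 / (2 * c) := by
    refine ⟨1 / (1 - q), by
      apply one_div_pos.2
      linarith, ?_⟩
    have h4 : 1 / (2 * (1 / (1 - (q : ℝ)))) = (1 - q) / 2 := by
      have : (1 - (q : ℝ)) ≠ 0 := by linarith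
      field_simp
    rw [h4]
    linarith
  have h3 := LH_ge_all hc (large_of_tendsto h c) hH'
  have h4 := c_bound hc one_pos
  rw [mul_one, one_div_one, one_pow, mul_one] at h4
  refine h1.trans (lt_of_lt_of_le ?_ h3)
  rw [← ENNReal.ofReal_coe_nnreal]
  exact (ENNReal.ofReal_lt_ofReal_iff_of_nonneg q.2).2 (lt_of_lt_of_le hcq h4)

/-- the errors dominate `log ^ 2` and are at most `log ^ u` -/
theorem LH_ge_u {H : ℕ → ℕ} {c' u : ℝ} (hu : 2 ≤ u) (hu3 : u < 3) (hc' : 0 < c')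
    (h : Tendsto (fun p : ℕ => (H p : ℝ) / Real.log p ^ 2) atTop atTop)
    (hH' : ∀ᶠ p : ℕ in atTop, (H p : ℝ) ≤ c' * Real.log p ^ u) :
    ENNReal.ofReal (Real.exp (-Real.eulerMascheroniConstant) / om u) ≤ LH H := by
  set θ := Real.exp Real.eulerMascheroniConstant * om u with hθ
  have hθ0 : 0 < θ := mul_pos (Real.exp_pos _) (om_pos hu)
  have hom := om_pos hu
  have e1 : Real.exp (-Real.eulerMascheroniConstant) / om u = 1 / θ := by
    rw [hθ, Real.exp_neg]
    field_simp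
  rw [e1]
  apply le_of_forall_lt
  intro a ha
  obtain ⟨q, h1, h2⟩ := ENNReal.lt_iff_exists_nnreal_btwn.1 ha
  rw [← ENNReal.ofReal_coe_nnreal] at h2
  have hq : (q : ℝ) < 1 / θ := (ENNReal.ofReal_lt_ofReal_iff_of_nonneg q.2).1 h2
  obtain ⟨c, hc, hcq⟩ : ∃ c : ℝ, 0 < c ∧ (q : ℝ) < 1 / θ - 1 / (2 * c * θ ^ 2) := by
    have h5 : 0 < 1 / θ - q := by linarith
    refine ⟨1 / ((1 / θ - q) * θ ^ 2), by positivity, ?_⟩
    have h4 : 1 / (2 * (1 / ((1 / θ - (q : ℝ)) * θ ^ 2)) * θ ^ 2) = (1 / θ - q) / 2 := by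
      have := h5.ne'
      field_simp
    rw [h4]
    linarith
  have h3 := LH_ge_maier hu hu3 hc hc' (large_of_tendsto h c) hH'
  have h4 := c_bound hc hθ0
  refine h1.trans (lt_of_lt_of_le ?_ h3)
  rw [← ENNReal.ofReal_coe_nnreal]
  exact (ENNReal.ofReal_lt_ofReal_iff_of_nonneg q.2).2 (lt_of_lt_of_le hcq h4)

theorem num_five : (1 : ℝ) < 5 * (1 - Real.exp (-1 / (5 * (Real.exp Real.eulerMascheroniConstant * om 2)))) := by
  have h1 : om 2 = 1 / 2 := by
    unfold om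
    norm_num
  have h2 := Pool.Agent.Q110.RS.exp_gamma_gt
  have h3 : -1 / (5 * (Real.exp Real.eulerMascheroniConstant * om 2)) =
      -(2 / 5 * Real.exp (-Real.eulerMascheroniConstant)) := by
    rw [h1, Real.exp_neg]
    field_simp
  rw [h3]
  have h4 : Real.exp (-(2 / 5 * Real.exp (-Real.eulerMascheroniConstant))) < 4 / 5 := by
    have h5 : Real.exp (-(2 / 5 * Real.exp (-Real.eulerMascheroniConstant))) ≤ Real.exp (-(2236 / 10000)) := by
      apply Real.exp_le_exp.2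
      linarith
    refine lt_of_le_of_lt h5 ?_
    rw [Real.exp_neg, inv_lt_comm₀ (Real.exp_pos _) (by norm_num)]
    refine lt_of_lt_of_le ?_ (Real.sum_le_exp_of_nonneg (by norm_num) 5)
    norm_num [Finset.sum_range_succ, Nat.factorial]
  linarith

/-- primes in short intervals -/
theorem hoh : ∃ θ₀ : ℝ, 0 < θ₀ ∧ θ₀ < 1 ∧ ∀ θ : ℝ, θ₀ < θ → θ < 1 →
    ∃ η : ℝ, 0 < η ∧ ∀ᶠ n : ℕ in atTop, η * (n : ℝ) ^ θ ≤ (cntS θ n : ℝ) * Real.log n := by
  obtain ⟨δ, η, hδ, hδ1, hη, X₀, hX₀, h⟩ := Pool.Agent.H295R3.D.hoheisel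
  refine ⟨1 - δ, by linarith, by linarith, fun θ hθ hθ1 => ⟨η / 2, by positivity, ?_⟩⟩
  have hθ0 : 0 < θ := by linarith
  have tθ : Tendsto (fun n : ℕ => (n : ℝ) ^ θ) atTop atTop := (tendsto_rpow_atTop hθ0).comp tendsto_natCast_atTop_atTop
  filter_upwards [tθ.eventually_ge_atTop 2, pow_growth 0 (1 - θ) 2 (by linarith),
    pow_growth 0 (θ - (1 - δ)) 2 (by linarith), eventually_gt_atTop (2 * X₀ + 8)] with n h1 h2 h3 h4
  rw [Real.rpow_zero, mul_one] at h2 h3
  have hn0 : (0 : ℝ) < n := by exact_mod_cast (by omega : 0 < n)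
  set T := (n : ℝ) ^ θ with hT
  have hT0 : 0 < T := by positivity
  set d := ⌊T⌋₊ with hd
  have hd1 : (d : ℝ) ≤ T := Nat.floor_le hT0.le
  have hd2 : T < (d : ℝ) + 1 := Nat.lt_floor_add_one _
  have hn1 : (n : ℝ) = T * (n : ℝ) ^ (1 - θ) := by
    rw [hT, ← Real.rpow_add hn0]
    simp
  have hTn : 2 * T < n := by
    calc 2 * T < (n : ℝ) ^ (1 - θ) * T := mul_lt_mul_of_pos_right h2 hT0
      _ = n := by rw [mul_comm]; exact hn1.symm
  have hdn : 2 * d ≤ n := by
    have : ((2 * d : ℕ) : ℝ) ≤ n := by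
      push_cast
      linarith
    exact_mod_cast this
  have h5 := h (n - d) d (by omega) (by
    have h6 : ((n - d : ℕ) : ℝ) ^ (1 - δ) ≤ (n : ℝ) ^ (1 - δ) :=
      Real.rpow_le_rpow (Nat.cast_nonneg _) (by exact_mod_cast Nat.sub_le n d) (by linarith)
    have h7 : 2 * (n : ℝ) ^ (1 - δ) ≤ T := by
      have h8 : T = (n : ℝ) ^ (θ - (1 - δ)) * (n : ℝ) ^ (1 - δ) := by
        rw [hT, ← Real.rpow_add hn0]
        congr 1
        ring
      rw [h8]
      exact mul_le_mul_of_nonneg_right h3.le (by positivity)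
    linarith) (by omega)
  have h6 : n - d + d = n := by omega
  rw [h6] at h5
  have h7 : (cntS θ n : ℝ) = (((Ioc (n - d) n).filter Nat.Prime).card : ℝ) := rfl
  rw [h7]
  have hln : 0 < Real.log ((n - d : ℕ) : ℝ) := by
    apply Real.log_pos
    exact_mod_cast (by omega : 1 < n - d)
  rw [div_le_iff₀ hln] at h5
  have h8 : Real.log ((n - d : ℕ) : ℝ) ≤ Real.log n :=
    Real.log_le_log (by exact_mod_cast (by omega : 0 < n - d)) (by exact_mod_cast Nat.sub_le n d)
  have h9 : η / 2 * T ≤ η * d := by nlinarith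
  exact h9.trans (h5.trans (mul_le_mul_of_nonneg_left h8 (Nat.cast_nonneg _)))

/-- finiteness for `H p = ⌊p ^ θ⌋` -/
theorem LH_pow_lt_top {θ : ℝ} (hθ : 0 < θ) (hθ1 : θ < 1) : LH (fun p => ⌊(p : ℝ) ^ θ⌋₊) < ⊤ ↔
    ∃ η : ℝ, 0 < η ∧ ∀ᶠ n : ℕ in atTop, η * (n : ℝ) ^ θ ≤ (cntS θ n : ℝ) * Real.log n := by
  constructor
  · intro h
    obtain ⟨x, ⟨C, hC, rfl, hs⟩, -⟩ := sInf_lt_iff.1 h
    exact dens_of_summable hθ hθ1 hC hs
  · rintro ⟨η, hη, h⟩
    exact lt_of_le_of_lt (LH_le (by positivity) (summable_pow hθ hθ1 hη h)) ENNReal.ofReal_lt_top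

/-- `H p = ⌊p / (log p) ^ A⌋` -/
theorem LH_log {A : ℝ} (hA : 0 < A) : LH (fun p => ⌊(p : ℝ) / Real.log p ^ A⌋₊) = 1 := by
  have tA : Tendsto (fun n : ℕ => Real.log n ^ A) atTop atTop := (tendsto_rpow_atTop hA).comp tlog
  apply le_antisymm
  · apply le_of_forall_gt
    intro a ha
    obtain ⟨q, h1, h2⟩ := ENNReal.lt_iff_exists_nnreal_btwn.1 ha
    have hq : (1 : ℝ) < q := by exact_mod_cast h1
    refine lt_of_le_of_lt (LH_le (C := (q : ℝ)) (by linarith) (summable_log hA hq)) ?_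
    rw [ENNReal.ofReal_coe_nnreal]
    exact h2
  · apply LH_ge_one
    · rw [tendsto_atTop]
      intro B
      filter_upwards [pow_growth (A + 2) 1 (|B| + 1) one_pos, tlog.eventually_ge_atTop 1,
        eventually_gt_atTop 0] with n h1 h2 h3
      have hn0 : (0 : ℝ) < n := by exact_mod_cast h3
      set l := Real.log n with hl
      have hl0 : 0 < l := by linarith
      rw [Real.rpow_one] at h1
      rw [le_div_iff₀ (by positivity)]
      have h4 : l ^ (A + 2) = l ^ A * l ^ 2 := by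
        rw [Real.rpow_add hl0]
        congr 1
        exact_mod_cast Real.rpow_natCast l 2
      have hlA : 0 < l ^ A := Real.rpow_pos_of_pos hl0 A
      have h5 : (|B| + 1) * l ^ 2 ≤ (n : ℝ) / l ^ A := by
        rw [le_div_iff₀ hlA]
        rw [h4] at h1
        nlinarith
      have h6 := Nat.lt_floor_add_one ((n : ℝ) / l ^ A)
      have h7 : 1 ≤ l ^ 2 := by nlinarith
      have h8 := le_abs_self B
      nlinarith
    · have t1 : Tendsto (fun n : ℕ => 1 / Real.log n ^ A) atTop (𝓝 0) :=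
        tA.inv_tendsto_atTop.congr fun n => by rw [Pi.inv_apply, one_div]
      apply squeeze_zero' (Eventually.of_forall fun n => by positivity) _ t1
      filter_upwards [tlog.eventually_ge_atTop 1, eventually_gt_atTop 0] with n h2 h3
      have hn0 : (0 : ℝ) < n := by exact_mod_cast h3
      have hl0 : 0 < Real.log n := by linarith
      have hlA : 0 < Real.log n ^ A := Real.rpow_pos_of_pos hl0 A
      rw [div_le_iff₀ hn0]
      refine (Nat.floor_le (by positivity)).trans (le_of_eq ?_)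
      field_simp

/-! ## the random errors -/

theorem PR_inf : PR.Infinite := Nat.infinite_setOfPred_prime

/-- independent `ξ p`, uniform on `{0, …, H p}` -/
structure IsU {Ω : Type} [MeasurableSpace Ω] (μ : Measure Ω) (H : ℕ → ℕ) (ξ : ℕ → Ω → ℕ) : Prop where
  meas : ∀ p, Measurable (ξ p)
  indep : iIndepFun ξ μ
  law : ∀ p k, k ≤ H p → μ {ω | ξ p ω = k} = ENNReal.ofReal (1 / ((H p : ℝ) + 1))

section

variable {Ω : Type} [MeasurableSpace Ω] {μ : Measure Ω} {H : ℕ → ℕ} {ξ : ℕ → Ω → ℕ}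

theorem IsU.le (h : IsU μ H ξ) (p : ℕ) : ∀ᵐ ω ∂μ, ξ p ω ≤ H p := by
  have hP : IsProbabilityMeasure μ := h.indep.isProbabilityMeasure
  have hm : ∀ k : ℕ, MeasurableSet {ω | ξ p ω = k} := fun k => h.meas p (measurableSet_singleton k)
  have h1 : {ω | ξ p ω ≤ H p} = ⋃ k ∈ range (H p + 1), {ω | ξ p ω = k} := by
    ext ω
    simp
  have h2 : μ {ω | ξ p ω ≤ H p} = 1 := by
    rw [h1, measure_biUnion_finset]
    · have h3 : ∀ k ∈ range (H p + 1), μ {ω | ξ p ω = k} = ENNReal.ofReal (1 / ((H p : ℝ) + 1)) := by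
        intro k hk
        rw [mem_range] at hk
        exact h.law p k (by omega)
      rw [sum_congr rfl h3, sum_const, card_range, nsmul_eq_mul]
      rw [show ((H p + 1 : ℕ) : ℝ≥0∞) = ENNReal.ofReal ((H p : ℝ) + 1) by
        rw [← Nat.cast_succ, ENNReal.ofReal_natCast], ← ENNReal.ofReal_mul (by positivity)]
      rw [mul_one_div_cancel (by positivity), ENNReal.ofReal_one]
    · intro k _ k' _ hkk
      rw [Function.onFun, Set.disjoint_left]
      intro ω h3 h4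
      exact hkk (h3.symm.trans h4)
    · intro k _
      exact hm k
  have hms : MeasurableSet {ω | ξ p ω ≤ H p} := by
    rw [h1]
    exact Finset.measurableSet_biUnion _ fun k _ => hm k
  exact (prob_compl_eq_zero_iff hms).2 h2

theorem IsU.toErr (h : IsU μ H ξ) : IsErr μ (fun p ω => p + ξ p ω) (wU H) := by
  refine ⟨fun p => (h.meas p).const_add p, ?_, ?_, wU_nonneg H⟩
  · exact h.indep.comp (fun p k => p + k) (fun p => measurable_of_countable _)
  · intro p m
    unfold wU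
    split_ifs with h1
    · rw [← h.law p (m - p) (by omega)]
      congr 1
      ext ω
      simp only [Set.mem_ofPred_eq]
      omega
    · rw [ENNReal.ofReal_zero]
      rw [measure_eq_zero_iff_ae_notMem]
      filter_upwards [h.le p] with ω hω h2
      change p + ξ p ω = m at h2
      apply h1
      omega

theorem IsU.all (h : IsU μ H ξ) : ∀ᵐ ω ∂μ, ∀ p, ξ p ω ≤ H p := by
  rw [ae_all_iff]
  exact h.le

/-- the almost sure value -/
theorem IsU.formula (h : IsU μ H ξ) :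
    ∀ᵐ ω ∂μ, gapLim (lpw 2) {m | ∃ p ∈ PR, p + ξ p ω = m} = LH H := by
  have hP : IsProbabilityMeasure μ := h.indep.isProbabilityMeasure
  exact Q198.PP.formula (scale_lpw (show (0 : ℝ) < 2 by norm_num)) (h.toErr.toRV PR_inf (wU_b H))

end

/-- random errors exist -/
theorem exists_IsU (H : ℕ → ℕ) : ∃ μ : Measure (ℕ → ℕ), IsU μ H (fun p ω => ω p) := by
  let P : ℕ → PMF ℕ := fun p => PMF.uniformOfFinset (range (H p + 1)) ⟨0, by simp⟩
  let ν : ℕ → Measure ℕ := fun p => (P p).toMeasure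
  have hν : ∀ p, IsProbabilityMeasure (ν p) := fun p => PMF.toMeasure.isProbabilityMeasure (P p)
  refine ⟨Measure.infinitePi ν, fun p => measurable_pi_apply p, ?_, ?_⟩
  · exact iIndepFun_infinitePi (X := fun _ k => k) (fun p => measurable_id)
  · intro p k hk
    have h3 : {ω : ℕ → ℕ | ω p = k} = Set.pi ({p} : Finset ℕ) (fun _ => {k}) := by
      ext ω
      simp
    rw [h3, Measure.infinitePi_pi _ (fun i _ => measurableSet_singleton k)]
    rw [Finset.prod_singleton]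
    simp only [ν, P]
    rw [PMF.toMeasure_apply_singleton _ _ (measurableSet_singleton k),
      PMF.uniformOfFinset_apply_of_mem _ (by simp; omega), card_range]
    rw [one_div, ENNReal.ofReal_inv_of_pos (by positivity)]
    congr 1
    rw [show ((H p : ℝ) + 1) = ((H p + 1 : ℕ) : ℝ) by push_cast; ring, ENNReal.ofReal_natCast]

theorem LH_close {H : ℕ → ℕ} {c : ℝ} (hc : 0 ≤ c) (hH : ∀ᶠ p : ℕ in atTop, (H p : ℝ) ≤ c * Real.log p ^ 2) :
    LH H ≤ gapLim (lpw 2) PR + ENNReal.ofReal c ∧ gapLim (lpw 2) PR ≤ LH H + ENNReal.ofReal c := by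
  obtain ⟨μ, hμ⟩ := exists_IsU H
  have hP : IsProbabilityMeasure μ := hμ.indep.isProbabilityMeasure
  obtain ⟨ω, h1, h2⟩ := (hμ.formula.and hμ.all).exists
  have hH' : ∀ᶠ p : ℕ in atTop, (H p : ℝ) ≤ c * lpw 2 p := by
    filter_upwards [hH] with p hp
    rw [lpw_two]
    exact hp
  rw [← h1]
  have hs := scale_lpw (show (0 : ℝ) < 2 by norm_num)
  exact ⟨close_one PR_inf (x := fun p => p + ω p) hs (fun p => Nat.le_add_right _ _)
      (fun p => Nat.add_le_add_left (h2 p) p) hc hH',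
    close_two PR_inf (x := fun p => p + ω p) hs (fun p => Nat.le_add_right _ _)
      (fun p => Nat.add_le_add_left (h2 p) p) hc hH'⟩

theorem LH_small {H : ℕ → ℕ} (h : Tendsto (fun p : ℕ => (H p : ℝ) / Real.log p ^ 2) atTop (𝓝 0)) :
    LH H = gapLim (lpw 2) PR := by
  have h1 : ∀ c : ℝ, 0 < c → ∀ᶠ p : ℕ in atTop, (H p : ℝ) ≤ c * Real.log p ^ 2 := by
    intro c hc
    filter_upwards [h.eventually_lt_const hc, tlog.eventually_ge_atTop 1] with p h1 h2
    exact ((div_lt_iff₀ (by positivity)).1 h1).le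
  have h2 : Tendsto (fun c : ℝ => ENNReal.ofReal c) (𝓝[>] 0) (𝓝 0) := by
    have := (ENNReal.tendsto_ofReal (tendsto_id (α := ℝ) (x := 𝓝 0)))
    simp only [id, ENNReal.ofReal_zero] at this
    exact this.mono_left nhdsWithin_le_nhds
  apply le_antisymm
  · have h3 : Tendsto (fun c : ℝ => gapLim (lpw 2) PR + ENNReal.ofReal c) (𝓝[>] 0) (𝓝 (gapLim (lpw 2) PR + 0)) :=
      tendsto_const_nhds.add h2
    rw [add_zero] at h3
    refine ge_of_tendsto h3 (eventually_nhdsWithin_of_forall fun c hc => ?_)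
    exact (LH_close (le_of_lt hc) (h1 c hc)).1
  · have h3 : Tendsto (fun c : ℝ => LH H + ENNReal.ofReal c) (𝓝[>] 0) (𝓝 (LH H + 0)) :=
      tendsto_const_nhds.add h2
    rw [add_zero] at h3
    refine ge_of_tendsto h3 (eventually_nhdsWithin_of_forall fun c hc => ?_)
    exact (LH_close (le_of_lt hc) (h1 c hc)).2

end Q198.PP
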