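import Pool.Agent.Q198.PP.P10

/-! # Stability of the constant in the size of the errors; errors of size `c log ^ 2` -/

set_option autoImplicit false

namespace Q198.PP

open Filter Finset MeasureTheory ProbabilityTheory
open scoped ENNReal Topology
open Pool.Agent.Q110.RS (tlog log_nat_nonneg pow_growth lpw lpw_nonneg log_ge_one gapLim scale_lpw Emp exists_emp
  le_gapLim Scale)
open Pool.Agent.Q110.RS.M (om om_pos)

theorem close_up {A B : Set ℕ} (hA : A.Infinite) (hB : B.Infinite) {g : ℕ → ℝ} (hg : Scale g)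
    {c : ℝ} (hc : 0 ≤ c) (h : ∀ᶠ a : ℕ in atTop, a ∈ A → ∃ b ∈ B, a ≤ b ∧ (b : ℝ) ≤ a + c * g a) :
    gapLim g B ≤ gapLim g A + ENNReal.ofReal c := by
  by_contra hcon
  push Not at hcon
  obtain ⟨q, hq1, hq2⟩ := ENNReal.lt_iff_exists_nnreal_btwn.1 hcon
  have hfin : gapLim g A ≠ ⊤ := by
    intro h
    rw [h, top_add] at hq1
    exact not_top_lt hq1
  obtain ⟨a, ha⟩ : ∃ a : ℝ, a = (gapLim g A).toReal := ⟨_, rfl⟩
  have ha0 : 0 ≤ a := by rw [ha]; exact ENNReal.toReal_nonneg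
  have haA : gapLim g A = ENNReal.ofReal a := by rw [ha, ENNReal.ofReal_toReal hfin]
  have hac : a + c < q := by
    rw [haA, ← ENNReal.ofReal_add ha0 hc, ← ENNReal.ofReal_coe_nnreal] at hq1
    exact (ENNReal.ofReal_lt_ofReal_iff_of_nonneg (by positivity)).1 hq1
  obtain ⟨q', h1, h2⟩ : ∃ q' : ℝ, a < q' ∧ q' + c < q := ⟨(a + (q - c)) / 2, by linarith, by linarith⟩
  obtain ⟨ε, hε, h3⟩ : ∃ ε : ℝ, 0 < ε ∧ q' + c * (1 + ε) ≤ q := by
    refine ⟨(q - q' - c) / (c + 1), div_pos (by linarith) (by linarith), ?_⟩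
    have h4 : c * ((q - q' - c) / (c + 1)) ≤ q - q' - c := by
      rw [mul_div_assoc', div_le_iff₀ (by linarith)]
      nlinarith
    linarith
  have hE := exists_emp (C := (q : ℝ)) hB hg.nonneg q.2 (by rw [ENNReal.ofReal_coe_nnreal]; exact hq2)
  have hE2 : ∃ᶠ n in atTop, Emp g q' A n := by
    obtain ⟨P0, hP0⟩ := eventually_atTop.1 h
    refine (hE.and_eventually ((hg.slow q' ε (by linarith) hε).and (eventually_ge_atTop P0))).mono ?_
    rintro n ⟨h5, h6, h7⟩ p hp hpA
    rw [mem_Ioc] at hp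
    obtain ⟨b, hbB, hb1, hb2⟩ := hP0 p (by omega) hpA
    have h9 : g p ≤ (1 + ε) * g n := (hg.mono hp.2).trans h6
    have h10 : (p : ℝ) ≤ n + q' * g n := by
      have h11 : (p : ℝ) ≤ n + ⌊q' * g n⌋₊ := by exact_mod_cast hp.2
      have := Nat.floor_le (mul_nonneg (show 0 ≤ q' by linarith) (hg.nonneg n))
      linarith
    have h11 : c * g p ≤ c * ((1 + ε) * g n) := mul_le_mul_of_nonneg_left h9 hc
    have h12 : (b : ℝ) ≤ n + q * g n := by
      have h14 : (q' + c * (1 + ε)) * g n ≤ q * g n := mul_le_mul_of_nonneg_right h3 (hg.nonneg n)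
      linarith
    have h13 : b - n ≤ ⌊q * g n⌋₊ := by
      apply Nat.le_floor
      rw [Nat.cast_sub (by omega)]
      linarith
    exact h5 b (mem_Ioc.2 ⟨by omega, by omega⟩) hbB
  have h5 := le_gapLim hA hg.mono (hg.top.eventually_gt_atTop 0) (by linarith) hE2
  rw [haA] at h5
  have := (ENNReal.ofReal_le_ofReal_iff ha0).1 h5
  linarith

theorem close_down {A B : Set ℕ} (hA : A.Infinite) (hB : B.Infinite) {g : ℕ → ℝ} (hg : Scale g)
    {c : ℝ} (hc : 0 ≤ c) (h : ∀ᶠ b : ℕ in atTop, b ∈ B → ∃ a ∈ A, a ≤ b ∧ (b : ℝ) ≤ a + c * g a) :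
    gapLim g A ≤ gapLim g B + ENNReal.ofReal c := by
  by_contra hcon
  push Not at hcon
  obtain ⟨q, hq1, hq2⟩ := ENNReal.lt_iff_exists_nnreal_btwn.1 hcon
  have hfin : gapLim g B ≠ ⊤ := by
    intro h
    rw [h, top_add] at hq1
    exact not_top_lt hq1
  obtain ⟨a, ha⟩ : ∃ a : ℝ, a = (gapLim g B).toReal := ⟨_, rfl⟩
  have ha0 : 0 ≤ a := by rw [ha]; exact ENNReal.toReal_nonneg
  have haA : gapLim g B = ENNReal.ofReal a := by rw [ha, ENNReal.ofReal_toReal hfin]
  have hac : a + c < q := by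
    rw [haA, ← ENNReal.ofReal_add ha0 hc, ← ENNReal.ofReal_coe_nnreal] at hq1
    exact (ENNReal.ofReal_lt_ofReal_iff_of_nonneg (by positivity)).1 hq1
  obtain ⟨q', h1, h2⟩ : ∃ q' : ℝ, a < q' ∧ q' + c < q := ⟨(a + (q - c)) / 2, by linarith, by linarith⟩
  have hq'0 : 0 < q' := by linarith
  obtain ⟨ε, hε, h3⟩ : ∃ ε : ℝ, 0 < ε ∧ q' * (1 + ε) + c ≤ q := by
    refine ⟨(q - q' - c) / q', div_pos (by linarith) hq'0, ?_⟩
    have h4 : q' * ((q - q' - c) / q') = q - q' - c := by field_simp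
    linarith
  have hE := exists_emp (C := (q : ℝ)) hA hg.nonneg q.2 (by rw [ENNReal.ofReal_coe_nnreal]; exact hq2)
  obtain ⟨P0, hP0⟩ := eventually_atTop.1 h
  have hT : Tendsto (fun n : ℕ => n + ⌊c * g n⌋₊) atTop atTop :=
    tendsto_atTop_mono (fun n => Nat.le_add_right n _) tendsto_id
  have hslow : ∀ᶠ n in atTop, g (n + ⌊c * g n⌋₊) ≤ (1 + ε) * g n := by
    filter_upwards [hg.slow (c + 1) ε (by linarith) hε] with n hn
    refine le_trans (hg.mono ?_) hn
    apply Nat.add_le_add_left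
    apply Nat.floor_le_floor
    have := hg.nonneg n
    nlinarith
  have hE2 : ∃ᶠ n in atTop, Emp g q' B n := by
    apply hT.frequently
    refine (hE.and_eventually (hslow.and (eventually_ge_atTop P0))).mono ?_
    rintro n ⟨h5, h6, h7⟩ m hm hmS
    rw [mem_Ioc] at hm
    obtain ⟨p, hpA, hpm1, hpm2⟩ := hP0 m (by omega) hmS
    have hfl := Nat.floor_le (mul_nonneg hc (hg.nonneg n))
    have h8 : (m : ℝ) ≤ n + q * g n := by
      have h9 : (m : ℝ) ≤ (n : ℝ) + ⌊c * g n⌋₊ + ⌊q' * g (n + ⌊c * g n⌋₊)⌋₊ := by exact_mod_cast hm.2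
      have h10 := Nat.floor_le (mul_nonneg hq'0.le (hg.nonneg (n + ⌊c * g n⌋₊)))
      have h11 := mul_le_mul_of_nonneg_left h6 hq'0.le
      have h14 : (q' * (1 + ε) + c) * g n ≤ q * g n := mul_le_mul_of_nonneg_right h3 (hg.nonneg n)
      linarith
    rcases lt_or_ge n p with h9 | h9
    · have h13 : p - n ≤ ⌊q * g n⌋₊ := by
        apply Nat.le_floor
        rw [Nat.cast_sub (by omega)]
        have : (p : ℝ) ≤ m := by exact_mod_cast hpm1
        linarith
      exact h5 p (mem_Ioc.2 ⟨h9, by omega⟩) hpA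
    · have h12 : c * g p ≤ c * g n := mul_le_mul_of_nonneg_left (hg.mono h9) hc
      have h13 : (p : ℝ) ≤ n := by exact_mod_cast h9
      have h14 : m - n ≤ ⌊c * g n⌋₊ := by
        apply Nat.le_floor
        rw [Nat.cast_sub (by omega)]
        linarith
      omega
  have h5 := le_gapLim hB hg.mono (hg.top.eventually_gt_atTop 0) (by linarith) hE2
  rw [haA] at h5
  have := (ENNReal.ofReal_le_ofReal_iff ha0).1 h5
  linarith

/-! ## coupling -/

theorem floor_couple {U a b : ℕ} (hab : a ≤ b) (hU : U < (a + 1) * (b + 1)) :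
    U / (b + 1) ≤ U / (a + 1) ∧ U / (a + 1) ≤ U / (b + 1) + (b - a) := by
  constructor
  · exact Nat.div_le_div_left (by omega) (by omega)
  · -- `U / (a + 1) < U / (b + 1) + (b - a) + 1`
    have h1 : U < (b + 1) * (U / (b + 1) + 1) := by
      have := Nat.lt_mul_div_succ U (show 0 < b + 1 by omega)
      exact this
    have h2 : U / (b + 1) ≤ a := by
      have : U / (b + 1) < a + 1 := Nat.div_lt_of_lt_mul (by rw [mul_comm]; exact hU)
      omega
    set k := U / (b + 1) with hk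
    have h3 : U / (a + 1) < k + (b - a) + 1 := by
      apply Nat.div_lt_of_lt_mul
      obtain ⟨d, rfl⟩ : ∃ d, b = a + d := ⟨b - a, by omega⟩
      have h4 : a + d - a = d := by omega
      rw [h4]
      have h5 : (a + d + 1) * (k + 1) ≤ (a + 1) * (k + d + 1) := by nlinarith
      omega
    omega

theorem IsU.div {Ω : Type} [MeasurableSpace Ω] {μ : Measure Ω} {H K : ℕ → ℕ} {U : ℕ → Ω → ℕ}
    (h : IsU μ (fun p => (H p + 1) * (K p + 1) - 1) U) : IsU μ H (fun p ω => U p ω / (K p + 1)) := by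
  refine ⟨fun p => (measurable_of_countable (fun k : ℕ => k / (K p + 1))).comp (h.meas p), ?_, ?_⟩
  · exact h.indep.comp (fun p k => k / (K p + 1)) (fun p => measurable_of_countable _)
  · intro p k hk
    have h1 : {ω | U p ω / (K p + 1) = k} = ⋃ j ∈ Ico (k * (K p + 1)) ((k + 1) * (K p + 1)), {ω | U p ω = j} := by
      ext ω
      simp only [Set.mem_iUnion, mem_Ico, exists_prop]
      constructor
      · intro h2
        change U p ω / (K p + 1) = k at h2
        refine ⟨U p ω, ⟨?_, ?_⟩, rfl⟩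
        · rw [← h2]
          exact Nat.div_mul_le_self _ _
        · rw [← h2, mul_comm]
          exact Nat.lt_mul_div_succ _ (by omega)
      · rintro ⟨j, ⟨h2, h3⟩, h4⟩
        change U p ω = j at h4
        change U p ω / (K p + 1) = k
        rw [h4]
        exact Nat.div_eq_of_lt_le h2 h3
    have hcard : ((k + 1) * (K p + 1) - k * (K p + 1)) = K p + 1 := by
      rw [← Nat.sub_mul]
      simp
    have hle : (k + 1) * (K p + 1) ≤ (H p + 1) * (K p + 1) := Nat.mul_le_mul_right _ (by omega)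
    rw [h1, measure_biUnion_finset]
    · have h3 : ∀ j ∈ Ico (k * (K p + 1)) ((k + 1) * (K p + 1)), μ {ω | U p ω = j} =
          ENNReal.ofReal (1 / ((((H p + 1) * (K p + 1) - 1 : ℕ) : ℝ) + 1)) := by
        intro j hj
        rw [mem_Ico] at hj
        exact h.law p j (by omega)
      rw [sum_congr rfl h3, sum_const, Nat.card_Ico, hcard, nsmul_eq_mul]
      rw [show ((K p + 1 : ℕ) : ℝ≥0∞) = ENNReal.ofReal ((K p : ℝ) + 1) by
        rw [← Nat.cast_succ, ENNReal.ofReal_natCast], ← ENNReal.ofReal_mul (by positivity)]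
      congr 1
      have h4 : ((((H p + 1) * (K p + 1) - 1 : ℕ) : ℝ) + 1) = ((H p : ℝ) + 1) * ((K p : ℝ) + 1) := by
        have h5 : (H p + 1) * (K p + 1) - 1 + 1 = (H p + 1) * (K p + 1) := by
          have : 0 < (H p + 1) * (K p + 1) := by positivity
          omega
        have h6 : ((((H p + 1) * (K p + 1) - 1 + 1 : ℕ)) : ℝ) = (((H p + 1) * (K p + 1) : ℕ) : ℝ) := by rw [h5]
        push_cast at h6
        linarith
      rw [h4]
      field_simp
    · intro j _ j' _ hkk
      rw [Function.onFun, Set.disjoint_left]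
      intro ω h3 h4
      exact hkk (h3.symm.trans h4)
    · intro j _
      exact h.meas p (measurableSet_singleton j)

/-- the constant is stable -/
theorem LH_stable {H K : ℕ → ℕ} {c : ℝ} (hc : 0 ≤ c) (h1 : ∀ᶠ p : ℕ in atTop, H p ≤ K p)
    (h2 : ∀ᶠ p : ℕ in atTop, (K p : ℝ) ≤ H p + c * Real.log p ^ 2) :
    LH K ≤ LH H + ENNReal.ofReal c ∧ LH H ≤ LH K + ENNReal.ofReal c := by
  obtain ⟨μ, hμ⟩ := exists_IsU (fun p => (H p + 1) * (K p + 1) - 1)
  have hP : IsProbabilityMeasure μ := hμ.indep.isProbabilityMeasure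
  have hH : IsU μ H (fun p ω => ω p / (K p + 1)) := hμ.div
  have hK : IsU μ K (fun p ω => ω p / (H p + 1)) := by
    have h3 : IsU μ (fun p => (K p + 1) * (H p + 1) - 1) (fun p (ω : ℕ → ℕ) => ω p) := by
      have : (fun p => (K p + 1) * (H p + 1) - 1) = fun p => (H p + 1) * (K p + 1) - 1 := by
        funext p
        rw [mul_comm]
      rw [this]
      exact hμ
    exact h3.div
  obtain ⟨ω, ⟨h3, h4⟩, h5⟩ := ((hH.formula.and hK.formula).and hμ.all).exists
  rw [← h3, ← h4]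
  obtain ⟨P0, hP0⟩ := eventually_atTop.1 (h1.and h2)
  obtain ⟨M, hM⟩ : ∃ M : ℕ, ∀ p < P0, p + H p ≤ M ∧ p + K p ≤ M :=
    ⟨(range P0).sup (fun p => p + H p + K p), fun p hp => by
      have : p + H p + K p ≤ (range P0).sup (fun p => p + H p + K p) :=
        Finset.le_sup (f := fun p => p + H p + K p) (mem_range.2 hp)
      omega⟩
  have hs := scale_lpw (show (0 : ℝ) < 2 by norm_num)
  set A : Set ℕ := {m | ∃ p ∈ PR, p + ω p / (K p + 1) = m} with hA
  set B : Set ℕ := {m | ∃ p ∈ PR, p + ω p / (H p + 1) = m} with hB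
  have hAi : A.Infinite := moved_inf PR_inf (x := fun p => p + ω p / (K p + 1)) fun p => Nat.le_add_right _ _
  have hBi : B.Infinite := moved_inf PR_inf (x := fun p => p + ω p / (H p + 1)) fun p => Nat.le_add_right _ _
  have hlt : ∀ p, ω p < (H p + 1) * (K p + 1) := by
    intro p
    have := h5 p
    have : 0 < (H p + 1) * (K p + 1) := by positivity
    omega
  have divle : ∀ p, ω p / (K p + 1) ≤ H p := fun p =>
    Nat.lt_succ_iff.1 (Nat.div_lt_of_lt_mul (by rw [mul_comm]; exact hlt p))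
  have divle' : ∀ p, ω p / (H p + 1) ≤ K p := fun p =>
    Nat.lt_succ_iff.1 (Nat.div_lt_of_lt_mul (hlt p))
  have key : ∀ p, P0 ≤ p → ω p / (K p + 1) ≤ ω p / (H p + 1) ∧
      ((ω p / (H p + 1) : ℕ) : ℝ) ≤ ((ω p / (K p + 1) : ℕ) : ℝ) + c * Real.log p ^ 2 := by
    intro p hp
    obtain ⟨e1, e2⟩ := hP0 p hp
    obtain ⟨e4, e5⟩ := floor_couple e1 (hlt p)
    refine ⟨e4, ?_⟩
    have e6 : ((ω p / (H p + 1) : ℕ) : ℝ) ≤ ((ω p / (K p + 1) : ℕ) : ℝ) + ((K p - H p : ℕ) : ℝ) := by
      exact_mod_cast e5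
    rw [Nat.cast_sub e1] at e6
    linarith
  have bd : ∀ p x : ℕ, p ≤ x → 0 < p → c * Real.log p ^ 2 ≤ c * lpw 2 x := by
    intro p x hpx hp
    rw [lpw_two]
    apply mul_le_mul_of_nonneg_left _ hc
    apply pow_le_pow_left₀ (log_nat_nonneg p)
    exact Real.log_le_log (by exact_mod_cast hp) (by exact_mod_cast hpx)
  constructor
  · apply close_up hAi hBi hs hc
    filter_upwards [eventually_gt_atTop M] with a ha haA
    obtain ⟨p, hp, hpa⟩ := haA
    have hp0 : 0 < p := by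
      have hp' : p.Prime := hp
      exact hp'.pos
    have hpP : P0 ≤ p := by
      by_contra hcon
      push Not at hcon
      have e1 := (hM p hcon).1
      have e2 : ω p / (K p + 1) ≤ H p := divle p
      omega
    obtain ⟨e1, e2⟩ := key p hpP
    refine ⟨p + ω p / (H p + 1), ⟨p, hp, rfl⟩, by omega, ?_⟩
    have e3 := bd p a (by rw [← hpa]; exact Nat.le_add_right _ _) hp0
    have e4 : (a : ℝ) = p + ((ω p / (K p + 1) : ℕ) : ℝ) := by rw [← hpa]; push_cast; ring
    push_cast at e2 e4 ⊢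
    linarith
  · apply close_down hAi hBi hs hc
    filter_upwards [eventually_gt_atTop M] with b hb hbB
    obtain ⟨p, hp, hpb⟩ := hbB
    have hp0 : 0 < p := by
      have hp' : p.Prime := hp
      exact hp'.pos
    have hpP : P0 ≤ p := by
      by_contra hcon
      push Not at hcon
      have e1 := (hM p hcon).2
      have e2 : ω p / (H p + 1) ≤ K p := divle' p
      omega
    obtain ⟨e1, e2⟩ := key p hpP
    refine ⟨p + ω p / (K p + 1), ⟨p, hp, rfl⟩, by omega, ?_⟩
    have e3 := bd p (p + ω p / (K p + 1)) (Nat.le_add_right _ _) hp0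
    have e4 : (b : ℝ) = p + ((ω p / (H p + 1) : ℕ) : ℝ) := by rw [← hpb]; push_cast; ring
    push_cast at e2 e4 e3 ⊢
    linarith

end Q198.PP
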