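import Pool.Agent.Q198.PP.P11

/-! # Arbitrary error laws: lower bounds from the matrix of Maier -/

set_option autoImplicit false

namespace Q198.PP

open Filter Finset MeasureTheory ProbabilityTheory
open scoped ENNReal Topology
open Pool.Agent.Q110.RS (tlog log_nat_nonneg pow_growth lpw lpw_nonneg log_ge_one gapLim scale_lpw)
open Pool.Agent.Q110.RS.M (om om_pos NFu few_freq')
open Pool.Agent.H510R2.Maier (cntP cntP_eq)

/-- `w p` is a law (or less) on `[p, p + H p]` -/
structure Law (H : ℕ → ℕ) (w : ℕ → ℕ → ℝ) : Prop where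
  nonneg : ∀ p m, 0 ≤ w p m
  sum : ∀ (p : ℕ) (F : Finset ℕ), ∑ m ∈ F, w p m ≤ 1
  low : ∀ p m, m < p → w p m = 0
  high : ∀ p m, p + H p < m → w p m = 0

section

variable {H : ℕ → ℕ} {w : ℕ → ℕ → ℝ}

theorem Law.hit_nonneg (h : Law H w) (p : ℕ) (F : Finset ℕ) : 0 ≤ hit w F p :=
  sum_nonneg fun m _ => h.nonneg p m

theorem Law.hit_le_one (h : Law H w) (p : ℕ) (F : Finset ℕ) : hit w F p ≤ 1 := h.sum p F

theorem Law.b (h : Law H w) : ∀ p m, id m < p → w p m = 0 := fun p m hm => h.low p m hm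

theorem Law.vd_nonneg (h : Law H w) (A : Set ℕ) (F : Finset ℕ) : 0 ≤ vd A id w F :=
  prod_nonneg fun p _ => by linarith [h.hit_le_one p F]

theorem Law.vd_anti (h : Law H w) (A : Set ℕ) {n t t' : ℕ} (htt : t ≤ t') :
    vd A id w (Ioc n (n + t')) ≤ vd A id w (Ioc n (n + t)) := by
  classical
  have h1 : ∀ s, (Ioc n (n + s)).sup id ≤ n + s := by
    intro s
    apply Finset.sup_le
    intro m hm
    exact (mem_Ioc.1 hm).2
  rw [vd_eq h.b (h1 t'), vd_eq h.b (B := n + t') ((h1 t).trans (by omega))]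
  apply Finset.prod_le_prod
  · intro p _
    linarith [h.hit_le_one p (Ioc n (n + t'))]
  · intro p _
    have : hit w (Ioc n (n + t)) p ≤ hit w (Ioc n (n + t')) p :=
      sum_le_sum_of_subset_of_nonneg (Ioc_subset_Ioc_right (by omega)) fun m _ _ => h.nonneg p m
    linarith

theorem Law.hit_zero (h : Law H w) {p n t : ℕ} (hp : p + H p ≤ n) : hit w (Ioc n (n + t)) p = 0 := by
  apply sum_eq_zero
  intro m hm
  rw [mem_Ioc] at hm
  exact h.high p m (by omega)

/-- double counting -/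
theorem Law.sum_hit_le (h : Law H w) (p t : ℕ) (N : Finset ℕ) :
    ∑ n ∈ N, hit w (Ioc n (n + t)) p ≤ t := by
  classical
  set M := N.sup id + t with hM
  have h1 : ∀ n ∈ N, hit w (Ioc n (n + t)) p = ∑ m ∈ range (M + 1), if m ∈ Ioc n (n + t) then w p m else 0 := by
    intro n hn
    unfold hit
    rw [← sum_filter]
    apply sum_congr _ fun _ _ => rfl
    ext m
    rw [mem_filter, mem_range, mem_Ioc]
    have : n ≤ N.sup id := Finset.le_sup (f := id) hn
    constructor
    · intro h2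
      exact ⟨by omega, h2⟩
    · intro h2
      exact h2.2
  rw [sum_congr rfl h1, sum_comm]
  have h2 : ∀ m ∈ range (M + 1), (∑ n ∈ N, if m ∈ Ioc n (n + t) then w p m else 0) ≤ t * w p m := by
    intro m _
    rw [← sum_filter, sum_const, nsmul_eq_mul]
    apply mul_le_mul_of_nonneg_right _ (h.nonneg p m)
    have h3 : N.filter (fun n => m ∈ Ioc n (n + t)) ⊆ Ico (m - t) m := by
      intro n hn
      rw [mem_filter, mem_Ioc] at hn
      rw [mem_Ico]
      omega
    have h4 := card_le_card h3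
    rw [Nat.card_Ico] at h4
    exact_mod_cast (by omega : (N.filter (fun n => m ∈ Ioc n (n + t))).card ≤ t)
  refine (sum_le_sum h2).trans ?_
  rw [← mul_sum]
  exact mul_le_of_le_one_right (Nat.cast_nonneg _) (h.sum p _)

open Classical in
/-- lower bound for the sum of the void probabilities -/
theorem Law.sum_vd_lower (h : Law H w) {A : Set ℕ} {t : ℕ} {N PW : Finset ℕ} {K : ℝ} (hK : 0 ≤ K)
    (hN : N.Nonempty)
    (h1 : ∀ n ∈ N, ∀ p ∈ PW, Real.exp (- (K * hit w (Ioc n (n + t)) p)) ≤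
      1 - hit w (Ioc n (n + t)) p)
    (h2 : ∀ n ∈ N, ∀ p ∈ A, p ≤ n + t → n < p + H p → p ∈ PW) :
    (N.card : ℝ) * Real.exp (- (K * t * PW.card / N.card)) ≤ ∑ n ∈ N, vd A id w (Ioc n (n + t)) := by
  have h3 : ∀ n ∈ N, Real.exp (- (K * ∑ p ∈ PW, hit w (Ioc n (n + t)) p)) ≤
      vd A id w (Ioc n (n + t)) := by
    intro n hn
    rw [mul_sum, ← sum_neg_distrib, Real.exp_sum]
    rw [vd_eq h.b (B := n + t) (by
      apply Finset.sup_le
      intro m hm
      simp only [id]
      exact (mem_Ioc.1 hm).2)]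
    -- drop the primes without contribution
    have h4 : ∏ p ∈ (range (n + t + 1)).filter (· ∈ A), (1 - hit w (Ioc n (n + t)) p) =
        ∏ p ∈ PW ∩ (range (n + t + 1)).filter (· ∈ A), (1 - hit w (Ioc n (n + t)) p) := by
      symm
      apply prod_subset inter_subset_right
      intro p hp hp2
      have h5 : p ∉ PW := fun h => hp2 (mem_inter.2 ⟨h, hp⟩)
      rw [mem_filter, mem_range] at hp
      have h6 : p + H p ≤ n := by
        by_contra hcon
        exact h5 (h2 n hn p hp.2 (by omega) (by omega))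
      rw [h.hit_zero h6, sub_zero]
    rw [h4]
    calc ∏ p ∈ PW, Real.exp (-(K * hit w (Ioc n (n + t)) p))
        ≤ ∏ p ∈ PW ∩ (range (n + t + 1)).filter (· ∈ A), Real.exp (-(K * hit w (Ioc n (n + t)) p)) := by
          rw [← prod_sdiff (inter_subset_left (s₁ := PW) (s₂ := (range (n + t + 1)).filter (· ∈ A)))]
          have h7 : ∏ p ∈ PW \ (PW ∩ (range (n + t + 1)).filter (· ∈ A)),
              Real.exp (-(K * hit w (Ioc n (n + t)) p)) ≤ 1 := by
            apply prod_le_one (fun p _ => (Real.exp_pos _).le)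
            intro p _
            rw [Real.exp_le_one_iff]
            have := mul_nonneg hK (h.hit_nonneg p (Ioc n (n + t)))
            linarith
          have h8 : 0 ≤ ∏ p ∈ PW ∩ (range (n + t + 1)).filter (· ∈ A),
              Real.exp (-(K * hit w (Ioc n (n + t)) p)) := prod_nonneg fun p _ => (Real.exp_pos _).le
          exact mul_le_of_le_one_left h8 h7
      _ ≤ _ := by
          apply Finset.prod_le_prod (fun p _ => (Real.exp_pos _).le)
          intro p hp
          exact h1 n hn p (mem_inter.1 hp).1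
  refine le_trans ?_ (sum_le_sum h3)
  apply jensen_exp hN
  rw [← mul_sum, sum_comm, mul_assoc]
  apply mul_le_mul_of_nonneg_left _ hK
  refine (sum_le_sum fun p _ => h.sum_hit_le p t N).trans ?_
  rw [sum_const, nsmul_eq_mul, mul_comm]

end

theorem Law.not_summable {H : ℕ → ℕ} {w : ℕ → ℕ → ℝ} (hLaw : Law H w) {c c' u C : ℝ} (hu : 2 ≤ u) (hu3 : u < 3) (hc : 0 < c) (hc' : 0 < c')
    (hC : 0 < C)
    (hcC : C < c * (1 - Real.exp (-1 / (c * (Real.exp Real.eulerMascheroniConstant * om u)))))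
    (hH : ∀ᶠ p : ℕ in atTop, ∀ m, c * Real.log p ^ 2 * w p m ≤ 1)
    (hH' : ∀ᶠ p : ℕ in atTop, (H p : ℝ) ≤ c' * Real.log p ^ u) :
    ¬ Summable fun n => Q (lpw 2) (vd PR id w) C n / lpw 2 n := by
  classical
  intro hsum
  set θ := Real.exp Real.eulerMascheroniConstant * om u with hθ
  have hθ0 : 0 < θ := mul_pos (Real.exp_pos _) (om_pos hu)
  obtain ⟨r, hr1, hr2⟩ : ∃ r, C / c < r ∧ r < 1 - Real.exp (-1 / (c * θ)) := by
    apply _root_.exists_between
    rw [div_lt_iff₀ hc, mul_comm]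
    exact hcC
  have hexp := Real.exp_pos (-1 / (c * θ))
  have hr0 : 0 < r := lt_trans (by positivity) hr1
  have hr3 : r < 1 := by linarith
  have hlog : -1 / (c * θ) < Real.log (1 - r) := by
    rw [Real.lt_log_iff_exp_lt (by linarith)]
    linarith
  have hlog2 : Real.log (1 - r) < 0 := Real.log_neg (by linarith) (by linarith)
  obtain ⟨K, hKd⟩ : ∃ K, K = - Real.log (1 - r) / r := ⟨_, rfl⟩
  have hKr : K * r = - Real.log (1 - r) := by
    rw [hKd]
    field_simp
  have hK0 : 0 < K := by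
    rw [hKd]
    exact div_pos (by linarith) hr0
  have hCrc : C < r * c := by
    rw [div_lt_iff₀ hc] at hr1
    exact hr1
  have hKC : K * C * θ < 1 := by
    have h1 : K * C * θ < K * (r * c) * θ := by gcongr
    have h2 : K * (r * c) * θ = - Real.log (1 - r) * (c * θ) := by rw [← mul_assoc K, hKr]; ring
    have h3 : - Real.log (1 - r) * (c * θ) < 1 := by
      rw [div_lt_iff₀ (by positivity)] at hlog
      linarith
    linarith
  -- the factor b
  obtain ⟨b, hb1, hb2, hb3, hb4⟩ : ∃ b : ℝ, 1 < b ∧ b < 2 ∧ C * b ^ 4 < r * c ∧ K * C * θ * b ^ 4 < 1 := by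
    have t1 : Tendsto (fun b : ℝ => C * b ^ 4) (𝓝[>] 1) (𝓝 (C * 1 ^ 4)) :=
      ((continuous_const.mul (continuous_pow 4)).tendsto 1).mono_left nhdsWithin_le_nhds
    have t2 : Tendsto (fun b : ℝ => K * C * θ * b ^ 4) (𝓝[>] 1) (𝓝 (K * C * θ * 1 ^ 4)) :=
      ((continuous_const.mul (continuous_pow 4)).tendsto 1).mono_left nhdsWithin_le_nhds
    have t3 : Tendsto (fun b : ℝ => b) (𝓝[>] 1) (𝓝 1) := tendsto_id.mono_left nhdsWithin_le_nhds
    obtain ⟨b, h1, h2, h3, h4⟩ := ((t1.eventually_lt_const (by simpa using hCrc)).and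
      ((t2.eventually_lt_const (by simpa using hKC)).and
        ((t3.eventually_lt_const (show (1 : ℝ) < 2 by norm_num)).and
          (eventually_nhdsWithin_of_forall (s := Set.Ioi (1 : ℝ)) fun b hb => hb)))).exists
    exact ⟨b, h4, h3, h1, h2⟩
  set σ := K * C * θ * b ^ 4 with hσ
  have hσ0 : 0 < σ := by positivity
  -- the windows
  obtain ⟨c₁, hc₁⟩ : ∃ c₁, c₁ = (C * b ^ 2 + c' + 1) * b / (b - 1) := ⟨_, rfl⟩
  have hc₁0 : 0 < c₁ := by
    rw [hc₁]
    apply div_pos _ (by linarith)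
    positivity
  have hc₁b : C * b ^ 2 + c' + 1 = c₁ - c₁ / b := by
    have hb0 : b - 1 ≠ 0 := by linarith
    have hb0' : b ≠ 0 := by linarith
    rw [hc₁]
    field_simp
  set κ := c₁ * θ * b with hκ
  have hκ0 : 0 < κ := by positivity
  have hfreq := few_freq' (κ := κ) (c := c₁) (u := u) (η := (1 - σ) / 2) hu hu3 hκ0 hc₁0 (by
    rw [hκ, ← hθ]
    exact lt_mul_of_one_lt_right (by positivity) hb1) (by linarith)
  obtain ⟨P0, hP0⟩ := eventually_atTop.1 (hH.and hH')
  obtain ⟨M, hM⟩ : ∃ M : ℕ, ∀ p < P0, p + H p ≤ M :=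
    ⟨(range P0).sup (fun p => p + H p), fun p hp => Finset.le_sup (f := fun p => p + H p) (mem_range.2 hp)⟩
  -- one window
  set Y : ℕ → ℕ := fun m => ⌊c₁ * Real.log m ^ u⌋₊ with hY
  set tt : ℕ → ℕ := fun m => ⌊C * (b * Real.log m) ^ 2⌋₊ with htt
  set hh : ℕ → ℕ := fun m => ⌊c' * Real.log m ^ u⌋₊ with hhh
  set NN : ℕ → Finset ℕ := fun m => Ioc (m + hh m) (m + Y m - tt m) with hNN
  have hwin : ∀ᶠ m : ℕ in atTop, (cntP Nat.Prime m (Y m) : ℝ) ≤ κ * Real.log m ^ (u - 1) →
      (m : ℝ) ^ (-σ) ≤ ∑ n ∈ NN m, vd PR id w (Ioc n (n + tt m)) ∧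
      (∀ n ∈ NN m, Real.log n ≤ b * Real.log m ∧ m < n ∧ n ≤ m + Y m) := by
    filter_upwards [log_near hb1, eventually_gt_atTop (M + P0 + 3), pow_growth u 1 c₁ one_pos,
      tlog.eventually_ge_atTop 1, tlog.eventually_ge_atTop ((b / c₁) + 1)] with m h2 h3 h4 h5 h6 hgood
    have hm0 : (0 : ℝ) < m := by exact_mod_cast (by omega : 0 < m)
    set l := Real.log m with hl
    have hl0 : 0 < l := by linarith
    have hlu : 0 < l ^ u := Real.rpow_pos_of_pos hl0 u
    have hl2u : l ^ 2 ≤ l ^ u := by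
      rw [← Real.rpow_natCast l 2]
      exact Real.rpow_le_rpow_of_exponent_le h5 (by exact_mod_cast hu)
    have hlle : l ≤ l ^ u := by
      calc l = l ^ (1 : ℝ) := (Real.rpow_one l).symm
        _ ≤ _ := Real.rpow_le_rpow_of_exponent_le h5 (by linarith)
    have hYr : (Y m : ℝ) ≤ c₁ * l ^ u := Nat.floor_le (by positivity)
    have hYr2 : c₁ * l ^ u < (Y m : ℝ) + 1 := Nat.lt_floor_add_one _
    have htr : (tt m : ℝ) ≤ C * (b * l) ^ 2 := Nat.floor_le (by positivity)
    have hhr : (hh m : ℝ) ≤ c' * l ^ u := Nat.floor_le (by positivity)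
    have hYm : (Y m : ℝ) ≤ m := by
      rw [Real.rpow_one] at h4
      linarith
    have hNr : c₁ / b * l ^ u ≤ (Y m : ℝ) - tt m - hh m := by
      have h7 : (tt m : ℝ) ≤ C * b ^ 2 * l ^ u := by
        calc (tt m : ℝ) ≤ C * (b * l) ^ 2 := htr
          _ = C * b ^ 2 * l ^ 2 := by ring
          _ ≤ _ := mul_le_mul_of_nonneg_left hl2u (by positivity)
      have h8 : (C * b ^ 2 + c' + 1) * l ^ u = (c₁ - c₁ / b) * l ^ u := by rw [hc₁b]
      have h9 : 1 ≤ l ^ u := by linarith
      nlinarith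
    have hbl : 1 ≤ c₁ / b * l ^ u := by
      have h7 : b / c₁ ≤ l ^ u := by linarith
      calc (1 : ℝ) = c₁ / b * (b / c₁) := by field_simp
        _ ≤ _ := mul_le_mul_of_nonneg_left h7 (by positivity)
    have hNcard : ((NN m).card : ℝ) = (Y m : ℝ) - tt m - hh m := by
      have h7 : hh m + tt m ≤ Y m := by
        have : ((hh m + tt m : ℕ) : ℝ) ≤ Y m := by
          push_cast
          linarith
        exact_mod_cast this
      simp only [hNN]
      rw [Nat.card_Ioc]
      have h8 : m + Y m - tt m - (m + hh m) = Y m - (hh m + tt m) := by omega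
      rw [h8, Nat.cast_sub h7]
      push_cast
      ring
    have hNcard1 : (1 : ℝ) ≤ (NN m).card := by
      rw [hNcard]
      linarith
    have hNne : (NN m).Nonempty := by
      rw [← card_pos]
      exact_mod_cast (by linarith : (0 : ℝ) < (NN m).card)
    have hnlog : ∀ n ∈ NN m, Real.log n ≤ b * l ∧ m < n ∧ n ≤ m + Y m := by
      intro n hn
      simp only [hNN] at hn
      rw [mem_Ioc] at hn
      have h7 : (n : ℝ) ≤ 4 * m := by
        have : (n : ℝ) ≤ m + Y m := by exact_mod_cast (by omega : n ≤ m + Y m)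
        linarith only [hYm, hm0, this]
      have h8 : (m : ℝ) ≤ n := by exact_mod_cast (by omega : m ≤ n)
      exact ⟨(h2 n (by linarith only [hm0, h8]) h7).2, by omega, by omega⟩
    refine ⟨?_, hnlog⟩
    have main := hLaw.sum_vd_lower (A := PR) (t := tt m) (N := NN m) (PW := prs m (m + Y m))
      hK0.le hNne (by
        intro n hn p hp
        apply exp_chord hr0 hr3 hKr (hLaw.hit_nonneg p _)
        unfold prs at hp
        rw [mem_filter, mem_Ioc] at hp
        have hpm : (m : ℝ) ≤ p := by exact_mod_cast hp.1.1.le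
        have h7 := (hP0 p (by omega)).1
        have h10 : l ≤ Real.log p := Real.log_le_log hm0 hpm
        have hlp : 0 < Real.log p := by linarith
        have h10' : l ^ 2 ≤ Real.log p ^ 2 := pow_le_pow_left₀ hl0.le h10 2
        have h11 : C * (b * l) ^ 2 ≤ C * b ^ 4 * Real.log p ^ 2 := by
          have hbb : b ^ 2 ≤ b ^ 4 := pow_le_pow_right₀ hb1.le (by norm_num)
          calc C * (b * l) ^ 2 = C * b ^ 2 * l ^ 2 := by ring
            _ ≤ C * b ^ 4 * Real.log p ^ 2 := by gcongr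
        have h12 : C * b ^ 4 * Real.log p ^ 2 ≤ r * c * Real.log p ^ 2 :=
          mul_le_mul_of_nonneg_right hb3.le (by positivity)
        have h13 : hit w (Ioc n (n + tt m)) p * (c * Real.log p ^ 2) ≤ tt m := by
          unfold hit
          rw [sum_mul]
          refine (sum_le_card_nsmul _ _ 1 fun m' _ => ?_).trans (le_of_eq ?_)
          · rw [mul_comm]
            exact h7 m'
          · rw [Nat.card_Ioc, nsmul_eq_mul, mul_one]
            congr 1
            omega
        have h14 : hit w (Ioc n (n + tt m)) p * (c * Real.log p ^ 2) ≤ r * (c * Real.log p ^ 2) := by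
          refine h13.trans (htr.trans (h11.trans (h12.trans (le_of_eq ?_))))
          ring
        exact le_of_mul_le_mul_right h14 (by positivity))
      (by
        intro n hn p hp hpn hnp
        simp only [hNN] at hn
        rw [mem_Ioc] at hn
        unfold prs
        rw [mem_filter, mem_Ioc]
        refine ⟨⟨?_, by omega⟩, hp⟩
        by_contra hcon
        push Not at hcon
        rcases lt_or_ge p P0 with h7 | h7
        · have := hM p h7
          omega
        · have h8 := (hP0 p h7).2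
          have h9 : Real.log p ≤ l := by
            rcases Nat.eq_zero_or_pos p with h10 | h10
            · rw [h10]
              simpa using hl0.le
            · exact Real.log_le_log (by exact_mod_cast h10) (by exact_mod_cast hcon)
          have h10 : (H p : ℝ) ≤ c' * l ^ u := by
            refine h8.trans (mul_le_mul_of_nonneg_left ?_ hc'.le)
            exact Real.rpow_le_rpow (log_nat_nonneg p) h9 (by linarith)
          have h11 : H p ≤ hh m := Nat.le_floor h10
          omega)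
    have hPW : ((prs m (m + Y m)).card : ℝ) ≤ κ * l ^ (u - 1) := by
      rw [card_prs]
      exact hgood
    have hexpo : K * tt m * (prs m (m + Y m)).card / (NN m).card ≤ σ * l := by
      rw [div_le_iff₀ (by linarith), hNcard]
      have h7 : K * tt m * (prs m (m + Y m)).card ≤ K * (C * (b * l) ^ 2) * (κ * l ^ (u - 1)) :=
        mul_le_mul (mul_le_mul_of_nonneg_left htr hK0.le) hPW (Nat.cast_nonneg _)
          (mul_nonneg hK0.le (mul_nonneg hC.le (sq_nonneg _)))
      have h8 : l ^ (u - 1) * l = l ^ u := by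
        nth_rewrite 2 [← Real.rpow_one l]
        rw [← Real.rpow_add hl0]
        congr 1
        ring
      have h9 : K * (C * (b * l) ^ 2) * (κ * l ^ (u - 1)) = σ * l * (c₁ / b * l ^ u) := by
        rw [← h8, hσ, hκ]
        field_simp
      rw [h9] at h7
      exact h7.trans (mul_le_mul_of_nonneg_left hNr (by positivity))
    refine le_trans ?_ main
    calc (m : ℝ) ^ (-σ) = Real.exp (-(σ * l)) := by
          rw [Real.rpow_def_of_pos hm0]
          congr 1
          ring
      _ ≤ Real.exp (-(K * tt m * (prs m (m + Y m)).card / (NN m).card)) := by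
          apply Real.exp_le_exp.2
          linarith
      _ ≤ _ := le_mul_of_one_le_left (Real.exp_pos _).le hNcard1
  -- the sum over all windows
  obtain ⟨m0, hm0⟩ := eventually_atTop.1 (hwin.and (eventually_ge_atTop 3))
  set F : ℕ → ℝ := fun n => Q (lpw 2) (vd PR id w) C n / lpw 2 n with hF
  have hF0 : ∀ n, 0 ≤ F n := fun n => div_nonneg (hLaw.vd_nonneg PR _) (lpw_nonneg 2 n)
  set s := ∑' n, F n with hs
  have hs0 : 0 ≤ s := tsum_nonneg hF0
  obtain ⟨x, g1, g2, g3, g4, g5⟩ := (hfreq.and ((pow_growth (u + 2) ((1 - σ) / 4) (b ^ 2 * c₁ * (s + 1)) (by linarith)).and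
    ((eventually_gt_atTop (m0 + 3)).and ((tlog.eventually_ge_atTop 1).and
      (pow_growth 0 ((1 - σ) / 4) ((m0 : ℝ) + 1) (by linarith)))))).exists
  have hx0 : (0 : ℝ) < x := by exact_mod_cast (by omega : 0 < x)
  have hx1 : (1 : ℝ) ≤ x := by exact_mod_cast (by omega : 1 ≤ x)
  set Lx := Real.log x with hLx
  have hLx0 : 0 < Lx := by linarith
  unfold NFu at g1
  set G := ((Icc 1 x).filter (fun n : ℕ => (cntP Nat.Prime n ⌊c₁ * (Real.log n) ^ u⌋₊ : ℝ) ≤
    κ * (Real.log n) ^ (u - 1))).filter (fun n => m0 ≤ n) with hG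
  have hGcard : (x : ℝ) ^ (1 - (1 - σ) / 2) - m0 ≤ G.card := by
    have h7 : ((Icc 1 x).filter (fun n : ℕ => (cntP Nat.Prime n ⌊c₁ * (Real.log n) ^ u⌋₊ : ℝ) ≤
        κ * (Real.log n) ^ (u - 1))).card ≤ G.card + m0 := by
      have h8 : (Icc 1 x).filter (fun n : ℕ => (cntP Nat.Prime n ⌊c₁ * (Real.log n) ^ u⌋₊ : ℝ) ≤
        κ * (Real.log n) ^ (u - 1)) ⊆ G ∪ range m0 := by
        intro n hn
        rw [mem_union, hG, mem_filter, mem_range]
        by_cases h9 : m0 ≤ n
        · exact Or.inl ⟨hn, h9⟩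
        · exact Or.inr (by omega)
      refine (card_le_card h8).trans ((card_union_le _ _).trans ?_)
      rw [card_range]
    have h8 : (((Icc 1 x).filter (fun n : ℕ => (cntP Nat.Prime n ⌊c₁ * (Real.log n) ^ u⌋₊ : ℝ) ≤
        κ * (Real.log n) ^ (u - 1))).card : ℝ) ≤ G.card + m0 := by exact_mod_cast h7
    linarith
  have hlower : ∀ m ∈ G, (x : ℝ) ^ (-σ) ≤ (b * Lx) ^ 2 * ∑ n ∈ NN m, F n := by
    intro m hm
    rw [hG, mem_filter, mem_filter, mem_Icc] at hm
    obtain ⟨h7, h8⟩ := (hm0 m hm.2).1 hm.1.2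
    have hm3 : 3 ≤ m := (hm0 m hm.2).2
    have hmr : (0 : ℝ) < m := by exact_mod_cast (by omega : 0 < m)
    have hmx : (m : ℝ) ≤ x := by exact_mod_cast hm.1.1.2
    have hlm : Real.log m ≤ Lx := Real.log_le_log hmr hmx
    have hlm0 : 0 < Real.log m := by linarith [log_ge_one hm3]
    have h9 : (x : ℝ) ^ (-σ) ≤ (m : ℝ) ^ (-σ) :=
      Real.rpow_le_rpow_of_nonpos hmr hmx (by linarith)
    refine h9.trans (h7.trans ?_)
    rw [mul_sum]
    apply sum_le_sum
    intro n hn
    obtain ⟨k1, k2, k3⟩ := h8 n hn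
    have hln : 0 < Real.log n := lt_of_lt_of_le hlm0 (Real.log_le_log hmr (by exact_mod_cast k2.le))
    have h10 : Real.log n ^ 2 ≤ (b * Real.log m) ^ 2 := pow_le_pow_left₀ hln.le k1 2
    have h11 : (b * Real.log m) ^ 2 ≤ (b * Lx) ^ 2 :=
      pow_le_pow_left₀ (by positivity) (mul_le_mul_of_nonneg_left hlm (by linarith)) 2
    simp only [hF]
    rw [lpw_two]
    have h12 : vd PR id w (Ioc n (n + tt m)) ≤ Q (lpw 2) (vd PR id w) C n := by
      unfold Q
      apply hLaw.vd_anti
      rw [lpw_two]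
      exact Nat.floor_le_floor (mul_le_mul_of_nonneg_left h10 hC.le)
    have h13 : 0 ≤ Q (lpw 2) (vd PR id w) C n := hLaw.vd_nonneg PR _
    rw [mul_div_assoc', le_div_iff₀ (by positivity)]
    calc vd PR id w (Ioc n (n + tt m)) * Real.log n ^ 2
        ≤ Q (lpw 2) (vd PR id w) C n * (b * Lx) ^ 2 :=
          mul_le_mul h12 (h10.trans h11) (by positivity) h13
      _ = _ := by ring
  -- double counting
  have hdc : ∑ m ∈ G, ∑ n ∈ NN m, F n ≤ (c₁ * Lx ^ u) * s := by
    have h7 : ∀ m ∈ G, ∑ n ∈ NN m, F n = ∑ n ∈ range (2 * x + Y x + 1), if n ∈ NN m then F n else 0 := by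
      intro m hm
      rw [← sum_filter]
      apply sum_congr _ fun _ _ => rfl
      rw [hG, mem_filter, mem_filter, mem_Icc] at hm
      ext n
      rw [mem_filter, mem_range]
      refine ⟨fun h => ⟨?_, h⟩, fun h => h.2⟩
      obtain ⟨-, -, k3⟩ := ((hm0 m hm.2).1 hm.1.2).2 n h
      have h8 : Y m ≤ Y x := by
        simp only [hY]
        apply Nat.floor_le_floor
        apply mul_le_mul_of_nonneg_left _ hc₁0.le
        apply Real.rpow_le_rpow (log_nat_nonneg m) _ (by linarith)
        exact Real.log_le_log (by exact_mod_cast (by omega : 0 < m)) (by exact_mod_cast hm.1.1.2)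
      omega
    rw [sum_congr rfl h7, sum_comm]
    have h8 : ∀ n ∈ range (2 * x + Y x + 1), (∑ m ∈ G, if n ∈ NN m then F n else 0) ≤ c₁ * Lx ^ u * F n := by
      intro n _
      rw [← sum_filter, sum_const, nsmul_eq_mul]
      apply mul_le_mul_of_nonneg_right _ (hF0 n)
      have h9 : G.filter (fun m => n ∈ NN m) ⊆ Ico (n - Y x) n := by
        intro m hm
        rw [mem_filter] at hm
        have hm' := hm.1
        rw [hG, mem_filter, mem_filter, mem_Icc] at hm'
        obtain ⟨-, k2, k3⟩ := ((hm0 m hm'.2).1 hm'.1.2).2 n hm.2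
        have h8 : Y m ≤ Y x := by
          simp only [hY]
          apply Nat.floor_le_floor
          apply mul_le_mul_of_nonneg_left _ hc₁0.le
          apply Real.rpow_le_rpow (log_nat_nonneg m) _ (by linarith)
          exact Real.log_le_log (by exact_mod_cast (by omega : 0 < m)) (by exact_mod_cast hm'.1.1.2)
        rw [mem_Ico]
        omega
      have h10 := card_le_card h9
      rw [Nat.card_Ico] at h10
      have h11 : (G.filter (fun m => n ∈ NN m)).card ≤ Y x := by omega
      have h12 : (Y x : ℝ) ≤ c₁ * Lx ^ u := Nat.floor_le (by positivity)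
      exact le_trans (by exact_mod_cast h11) h12
    refine (sum_le_sum h8).trans ?_
    rw [← mul_sum]
    exact mul_le_mul_of_nonneg_left (hsum.sum_le_tsum _ fun n _ => hF0 n) (by positivity)
  have hfin : (G.card : ℝ) * (x : ℝ) ^ (-σ) ≤ (b * Lx) ^ 2 * ((c₁ * Lx ^ u) * s) := by
    rw [← nsmul_eq_mul]
    refine (card_nsmul_le_sum _ _ _ hlower).trans ?_
    rw [← mul_sum]
    exact mul_le_mul_of_nonneg_left hdc (by positivity)
  -- contradiction
  have q1 : (x : ℝ) ^ (-σ) * (x : ℝ) ^ (1 - (1 - σ) / 2) = (x : ℝ) ^ ((1 - σ) / 4) * (x : ℝ) ^ ((1 - σ) / 4) := by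
    rw [← Real.rpow_add hx0, ← Real.rpow_add hx0]
    congr 1
    ring
  have q2 : (x : ℝ) ^ (-σ) ≤ 1 := Real.rpow_le_one_of_one_le_of_nonpos hx1 (by linarith)
  have q3 : (b * Lx) ^ 2 * ((c₁ * Lx ^ u) * s) ≤ b ^ 2 * c₁ * (s + 1) * Lx ^ (u + 2) := by
    have : Lx ^ (u + 2) = Lx ^ u * Lx ^ 2 := by
      rw [Real.rpow_add hLx0]
      congr 1
      exact_mod_cast Real.rpow_natCast Lx 2
    rw [this]
    have h7 : 0 < Lx ^ u := Real.rpow_pos_of_pos hLx0 u
    have h8 : 0 ≤ b ^ 2 * c₁ * (Lx ^ u * Lx ^ 2) := by positivity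
    nlinarith
  set z := (x : ℝ) ^ ((1 - σ) / 4) with hz
  rw [Real.rpow_zero, mul_one] at g5
  have q4 : (x : ℝ) ^ (-σ) * ((x : ℝ) ^ (1 - (1 - σ) / 2) - m0) ≤ b ^ 2 * c₁ * (s + 1) * Lx ^ (u + 2) := by
    refine le_trans ?_ (hfin.trans q3)
    rw [mul_comm]
    exact mul_le_mul_of_nonneg_right hGcard (Real.rpow_nonneg hx0.le _)
  have hm0r : (0 : ℝ) ≤ m0 := Nat.cast_nonneg m0
  have q5 : (x : ℝ) ^ (-σ) * m0 ≤ m0 := mul_le_of_le_one_left hm0r q2
  have q6 : z * z - m0 < z := by nlinarith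
  nlinarith

end Q198.PP
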