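import Pool.Agent.Q198.PP.P12

/-! # Independent errors with arbitrary laws -/

set_option autoImplicit false

namespace Q198.PP

open Filter Finset MeasureTheory ProbabilityTheory
open scoped ENNReal Topology
open Pool.Agent.Q110.RS (tlog log_nat_nonneg pow_growth lpw lpw_nonneg log_ge_one gapLim scale_lpw)
open Pool.Agent.Q110.RS.M (om om_pos)

section

variable {Ω : Type} [MeasurableSpace Ω] {μ : Measure Ω} {ξ : ℕ → Ω → ℕ}

/-- the law of `p + ξ p` -/
noncomputable def lw (μ : Measure Ω) (ξ : ℕ → Ω → ℕ) (p m : ℕ) : ℝ := μ.real {ω | p + ξ p ω = m}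

theorem lw_err (hm : ∀ p, Measurable (ξ p)) (hi : iIndepFun ξ μ) : IsErr μ (fun p ω => p + ξ p ω) (lw μ ξ) := by
  have hP : IsProbabilityMeasure μ := hi.isProbabilityMeasure
  refine ⟨fun p => (hm p).const_add p, hi.comp (fun p k => p + k) (fun p => measurable_of_countable _), ?_,
    fun p m => measureReal_nonneg⟩
  intro p m
  unfold lw
  rw [ofReal_measureReal]

theorem lw_low (μ : Measure Ω) (ξ : ℕ → Ω → ℕ) (p m : ℕ) (h : id m < p) : lw μ ξ p m = 0 := by
  unfold lw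
  have : {ω | p + ξ p ω = m} = ∅ := by
    apply Set.eq_empty_of_forall_notMem
    intro ω hω
    change p + ξ p ω = m at hω
    simp only [id] at h
    omega
  rw [this]
  simp

/-- the almost sure value -/
theorem lw_formula (hm : ∀ p, Measurable (ξ p)) (hi : iIndepFun ξ μ) :
    ∀ᵐ ω ∂μ, gapLim (lpw 2) {m | ∃ p ∈ PR, p + ξ p ω = m} = LamV (lpw 2) (vd PR id (lw μ ξ)) := by
  have hP : IsProbabilityMeasure μ := hi.isProbabilityMeasure
  exact Q198.PP.formula (scale_lpw (show (0 : ℝ) < 2 by norm_num)) ((lw_err hm hi).toRV PR_inf (lw_low μ ξ))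

theorem lw_Law (hm : ∀ p, Measurable (ξ p)) (hi : iIndepFun ξ μ) {H : ℕ → ℕ}
    (hH : ∀ p, ∀ᵐ ω ∂μ, ξ p ω ≤ H p) : Law H (lw μ ξ) := by
  have hP : IsProbabilityMeasure μ := hi.isProbabilityMeasure
  refine ⟨fun p m => measureReal_nonneg, fun p F => (lw_err hm hi).hit_le F p,
    fun p m h => lw_low μ ξ p m h, ?_⟩
  intro p m h
  unfold lw
  rw [measureReal_eq_zero_iff, measure_eq_zero_iff_ae_notMem]
  filter_upwards [hH p] with ω hω h2
  change p + ξ p ω = m at h2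
  omega

theorem lw_lower (hm : ∀ p, Measurable (ξ p)) (hi : iIndepFun ξ μ) {H : ℕ → ℕ}
    (hH : ∀ p, ∀ᵐ ω ∂μ, ξ p ω ≤ H p) {c c' : ℝ} (hc : 0 < c) (hc' : 0 < c')
    (h1 : ∀ᶠ p : ℕ in atTop, (H p : ℝ) ≤ c' * Real.log p ^ 2)
    (h2 : ∀ᶠ p : ℕ in atTop, ∀ k, μ.real {ω | ξ p ω = k} ≤ 1 / (c * Real.log p ^ 2)) :
    ENNReal.ofReal (c * (1 - Real.exp (-1 / (c * (Real.exp Real.eulerMascheroniConstant * om 2))))) ≤
      LamV (lpw 2) (vd PR id (lw μ ξ)) := by
  have hP : IsProbabilityMeasure μ := hi.isProbabilityMeasure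
  have hL := lw_Law hm hi hH
  have h3 : ∀ᶠ p : ℕ in atTop, ∀ m, c * Real.log p ^ 2 * lw μ ξ p m ≤ 1 := by
    filter_upwards [h2, tlog.eventually_ge_atTop 1] with p h4 h5 m
    have h6 : 0 < c * Real.log p ^ 2 := by positivity
    rcases lt_or_ge m p with h7 | h7
    · rw [lw_low μ ξ p m h7, mul_zero]
      exact zero_le_one
    · have h8 : lw μ ξ p m = μ.real {ω | ξ p ω = m - p} := by
        unfold lw
        congr 1
        ext ω
        change p + ξ p ω = m ↔ ξ p ω = m - p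
        omega
      rw [h8]
      have h9 := (le_div_iff₀ h6).1 (h4 (m - p))
      linarith
  have h4 : ∀ᶠ p : ℕ in atTop, (H p : ℝ) ≤ c' * Real.log p ^ (2 : ℝ) := by
    filter_upwards [h1] with p hp
    refine hp.trans (le_of_eq ?_)
    congr 1
    exact_mod_cast (Real.rpow_natCast (Real.log p) 2).symm
  apply le_sInf
  rintro x ⟨C, hC, rfl, hs⟩
  by_contra hcon
  push Not at hcon
  have h5 : C < c * (1 - Real.exp (-1 / (c * (Real.exp Real.eulerMascheroniConstant * om 2)))) := by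
    by_contra h6
    push Not at h6
    exact absurd (ENNReal.ofReal_le_ofReal h6) (not_le.2 hcon)
  exact hL.not_summable (u := 2) le_rfl (by norm_num) hc hc' hC h5 h3 h4 hs

end

theorem om_two (c : ℝ) (hc : 0 < c) : -1 / (c * (Real.exp Real.eulerMascheroniConstant * om 2)) =
    -(2 * Real.exp (-Real.eulerMascheroniConstant) / c) := by
  have h1 : om 2 = 1 / 2 := by
    unfold om
    norm_num
  rw [h1, Real.exp_neg]
  field_simp

/-- the constant for the errors of size `c log ^ 2` -/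
noncomputable def crit (c : ℝ) : ℝ≥0∞ := LH (fun p => ⌊c * Real.log p ^ 2⌋₊)

theorem crit_zero : crit 0 = gapLim (lpw 2) PR := by
  unfold crit
  apply LH_small
  simp

theorem LH_add_small {H K : ℕ → ℕ} (h1 : ∀ᶠ p : ℕ in atTop, H p ≤ K p)
    (h2 : ∀ ε : ℝ, 0 < ε → ∀ᶠ p : ℕ in atTop, (K p : ℝ) ≤ H p + ε * Real.log p ^ 2) : LH H = LH K := by
  have h3 : Tendsto (fun c : ℝ => ENNReal.ofReal c) (𝓝[>] 0) (𝓝 0) := by
    have := (ENNReal.tendsto_ofReal (tendsto_id (α := ℝ) (x := 𝓝 0)))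
    simp only [id, ENNReal.ofReal_zero] at this
    exact this.mono_left nhdsWithin_le_nhds
  apply le_antisymm
  · have h4 : Tendsto (fun c : ℝ => LH K + ENNReal.ofReal c) (𝓝[>] 0) (𝓝 (LH K + 0)) :=
      tendsto_const_nhds.add h3
    rw [add_zero] at h4
    refine ge_of_tendsto h4 (eventually_nhdsWithin_of_forall fun c hc => ?_)
    exact (LH_stable (le_of_lt hc) h1 (h2 c hc)).2
  · have h4 : Tendsto (fun c : ℝ => LH H + ENNReal.ofReal c) (𝓝[>] 0) (𝓝 (LH H + 0)) :=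
      tendsto_const_nhds.add h3
    rw [add_zero] at h4
    refine ge_of_tendsto h4 (eventually_nhdsWithin_of_forall fun c hc => ?_)
    exact (LH_stable (le_of_lt hc) h1 (h2 c hc)).1

theorem tlog2 : Tendsto (fun p : ℕ => Real.log p ^ 2) atTop atTop :=
  (tendsto_pow_atTop two_ne_zero).comp tlog

theorem crit_lip {c c' : ℝ} (hc : 0 ≤ c) (hcc : c ≤ c') :
    crit c' ≤ crit c + ENNReal.ofReal (c' - c) ∧ crit c ≤ crit c' + ENNReal.ofReal (c' - c) := by
  unfold crit
  -- `K = ⌊c' log ^ 2⌋`, `H = ⌊c log ^ 2⌋`, `H + (c' - c) log ^ 2 + 1 ≥ K`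
  have h1 : ∀ᶠ p : ℕ in atTop, ⌊c * Real.log p ^ 2⌋₊ ≤ ⌊c' * Real.log p ^ 2⌋₊ :=
    Eventually.of_forall fun p => Nat.floor_le_floor (mul_le_mul_of_nonneg_right hcc (sq_nonneg _))
  have h2 : ∀ ε : ℝ, 0 < ε → ∀ᶠ p : ℕ in atTop, ((⌊c' * Real.log p ^ 2⌋₊ : ℕ) : ℝ) ≤
      (⌊c * Real.log p ^ 2⌋₊ : ℕ) + (c' - c + ε) * Real.log p ^ 2 := by
    intro ε hε
    filter_upwards [tlog2.eventually_ge_atTop (1 / ε)] with p hp
    have e1 : ((⌊c' * Real.log p ^ 2⌋₊ : ℕ) : ℝ) ≤ c' * Real.log p ^ 2 :=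
      Nat.floor_le (mul_nonneg (hc.trans hcc) (sq_nonneg _))
    have e2 := Nat.lt_floor_add_one (c * Real.log p ^ 2)
    rw [div_le_iff₀ hε] at hp
    nlinarith
  have h3 : Tendsto (fun ε : ℝ => ENNReal.ofReal (c' - c + ε)) (𝓝[>] 0) (𝓝 (ENNReal.ofReal (c' - c))) := by
    have e1 : Tendsto (fun ε : ℝ => c' - c + ε) (𝓝[>] 0) (𝓝 (c' - c + 0)) :=
      ((continuous_const.add continuous_id).tendsto 0).mono_left nhdsWithin_le_nhds
    rw [add_zero] at e1
    exact ENNReal.tendsto_ofReal e1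
  constructor
  · refine ge_of_tendsto (tendsto_const_nhds.add h3) (eventually_nhdsWithin_of_forall fun ε hε => ?_)
    have hε' : (0 : ℝ) < ε := hε
    exact (LH_stable (by linarith) h1 (h2 ε hε')).1
  · refine ge_of_tendsto (tendsto_const_nhds.add h3) (eventually_nhdsWithin_of_forall fun ε hε => ?_)
    have hε' : (0 : ℝ) < ε := hε
    exact (LH_stable (by linarith) h1 (h2 ε hε')).2

theorem crit_lower {c₀ c : ℝ} (hc0 : 0 < c₀) (hc : c₀ ≤ c) :
    ENNReal.ofReal (c₀ * (1 - Real.exp (-(2 * Real.exp (-Real.eulerMascheroniConstant) / c₀)))) ≤ crit c := by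
  have h1 : crit c = LH (fun p => ⌊c * Real.log p ^ 2⌋₊ + 1) := by
    unfold crit
    apply LH_add_small
    · exact Eventually.of_forall fun p => Nat.le_succ _
    · intro ε hε
      filter_upwards [tlog2.eventually_ge_atTop (1 / ε)] with p hp
      rw [div_le_iff₀ hε] at hp
      push_cast
      linarith
  rw [h1, ← om_two c₀ hc0]
  apply LH_ge_maier (c' := c + 1) (u := 2) le_rfl (by norm_num) hc0 (by linarith)
  · refine Eventually.of_forall fun p => ?_
    have := (Nat.lt_floor_add_one (c * Real.log p ^ 2)).le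
    have h2 : c₀ * Real.log p ^ 2 ≤ c * Real.log p ^ 2 := mul_le_mul_of_nonneg_right hc (sq_nonneg _)
    push_cast
    linarith
  · filter_upwards [tlog2.eventually_ge_atTop 1] with p hp
    have h2 : ((⌊c * Real.log p ^ 2⌋₊ : ℕ) : ℝ) ≤ c * Real.log p ^ 2 :=
      Nat.floor_le (mul_nonneg (by linarith) (sq_nonneg _))
    have h3 : Real.log p ^ (2 : ℝ) = Real.log p ^ 2 := by exact_mod_cast Real.rpow_natCast (Real.log p) 2
    rw [h3]
    push_cast
    linarith

theorem five_gt : (1 : ℝ) < 5 * (1 - Real.exp (-(2 * Real.exp (-Real.eulerMascheroniConstant) / 5))) := by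
  rw [← om_two 5 (by norm_num)]
  exact num_five

theorem crit_five {c : ℝ} (hc : 5 ≤ c) : 1 < crit c := by
  refine lt_of_lt_of_le ?_ (crit_lower (by norm_num) hc)
  rw [← ENNReal.ofReal_one]
  exact (ENNReal.ofReal_lt_ofReal_iff_of_nonneg zero_le_one).2 five_gt

/-- errors at most `c log ^ 2` change the constant by at most `c` -/
theorem det_close {x : ℕ → ℕ} {c : ℝ} (hc : 0 ≤ c) (hx : ∀ᶠ p : ℕ in atTop, (x p : ℝ) ≤ c * Real.log p ^ 2) :
    gapLim (lpw 2) {m | ∃ p ∈ PR, p + x p = m} ≤ gapLim (lpw 2) PR + ENNReal.ofReal c ∧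
      gapLim (lpw 2) PR ≤ gapLim (lpw 2) {m | ∃ p ∈ PR, p + x p = m} + ENNReal.ofReal c := by
  have hx' : ∀ᶠ p : ℕ in atTop, (x p : ℝ) ≤ c * lpw 2 p := by
    filter_upwards [hx] with p hp
    rw [lpw_two]
    exact hp
  have hs := scale_lpw (show (0 : ℝ) < 2 by norm_num)
  exact ⟨close_one PR_inf (x := fun p => p + x p) (H := x) hs (fun p => Nat.le_add_right _ _)
      (fun p => le_rfl) hc hx',
    close_two PR_inf (x := fun p => p + x p) (H := x) hs (fun p => Nat.le_add_right _ _)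
      (fun p => le_rfl) hc hx'⟩

end Q198.PP
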