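import Pool.Agent.Q198.PP.P1

/-! # Random sets obtained by moving the members of a set of integers independently -/

set_option autoImplicit false

namespace Q198.PP

open Filter Finset MeasureTheory ProbabilityTheory
open scoped ENNReal Topology

/-- independent random integers `q p` with `P (q p = m) = w p m` -/
structure IsErr {Ω : Type} [MeasurableSpace Ω] (μ : Measure Ω) (q : ℕ → Ω → ℕ) (w : ℕ → ℕ → ℝ) : Prop where
  meas : ∀ p, Measurable (q p)
  indep : iIndepFun q μ
  law : ∀ p m, μ {ω | q p ω = m} = ENNReal.ofReal (w p m)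
  nonneg : ∀ p m, 0 ≤ w p m

/-- the probability that `q p ∈ F` -/
noncomputable def hit (w : ℕ → ℕ → ℝ) (F : Finset ℕ) (p : ℕ) : ℝ := ∑ m ∈ F, w p m

open Classical in
/-- the probability that no `q p`, `p ∈ A`, is in `F` -/
noncomputable def vd (A : Set ℕ) (b : ℕ → ℕ) (w : ℕ → ℕ → ℝ) (F : Finset ℕ) : ℝ :=
  ∏ p ∈ (range (F.sup b + 1)).filter (· ∈ A), (1 - hit w F p)

/-- the moved points -/
def pts {Ω : Type} (A : Set ℕ) (q : ℕ → Ω → ℕ) (ω : Ω) : Set ℕ := {m | ∃ p ∈ A, q p ω = m}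

theorem hit_zero {w : ℕ → ℕ → ℝ} {b : ℕ → ℕ} (hb : ∀ p m, b m < p → w p m = 0) {F : Finset ℕ} {p : ℕ}
    (h : F.sup b < p) : hit w F p = 0 := by
  apply sum_eq_zero
  intro m hm
  exact hb p m (lt_of_le_of_lt (Finset.le_sup hm) h)

open Classical in
theorem vd_eq {A : Set ℕ} {w : ℕ → ℕ → ℝ} {b : ℕ → ℕ} (hb : ∀ p m, b m < p → w p m = 0) {F : Finset ℕ}
    {B : ℕ} (hB : F.sup b ≤ B) :
    vd A b w F = ∏ p ∈ (range (B + 1)).filter (· ∈ A), (1 - hit w F p) := by
  unfold vd
  apply prod_subset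
  · intro p hp
    rw [mem_filter, mem_range] at hp ⊢
    exact ⟨by omega, hp.2⟩
  · intro p hp hp2
    rw [mem_filter, mem_range] at hp
    have h1 : F.sup b < p := by
      by_contra hcon
      exact hp2 (mem_filter.2 ⟨mem_range.2 (by omega), hp.2⟩)
    rw [hit_zero hb h1, sub_zero]

section

variable {Ω : Type} [MeasurableSpace Ω] {μ : Measure Ω} {q : ℕ → Ω → ℕ} {w : ℕ → ℕ → ℝ}

theorem IsErr.hit_meas (h : IsErr μ q w) (F : Finset ℕ) (p : ℕ) :
    MeasurableSet {ω | q p ω ∈ F} := by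
  have : {ω | q p ω ∈ F} = q p ⁻¹' (F : Set ℕ) := by
    ext ω
    simp
  rw [this]
  exact h.meas p (Finset.measurableSet F)

theorem IsErr.hit_prob (h : IsErr μ q w) (F : Finset ℕ) (p : ℕ) :
    μ {ω | q p ω ∈ F} = ENNReal.ofReal (hit w F p) := by
  classical
  have h1 : {ω | q p ω ∈ F} = ⋃ m ∈ F, {ω | q p ω = m} := by
    ext ω
    simp
  rw [h1, measure_biUnion_finset]
  · unfold hit
    rw [ENNReal.ofReal_sum_of_nonneg fun m _ => h.nonneg p m]
    exact sum_congr rfl fun m _ => h.law p m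
  · intro m _ m' _ hmm
    rw [Function.onFun, Set.disjoint_left]
    intro ω h2 h3
    exact hmm (h2.symm.trans h3)
  · intro m _
    exact h.meas p (measurableSet_singleton m)

theorem IsErr.hit_nonneg (h : IsErr μ q w) (F : Finset ℕ) (p : ℕ) : 0 ≤ hit w F p :=
  sum_nonneg fun m _ => h.nonneg p m

theorem IsErr.hit_le (h : IsErr μ q w) (F : Finset ℕ) (p : ℕ) : hit w F p ≤ 1 := by
  have hP : IsProbabilityMeasure μ := h.indep.isProbabilityMeasure
  have h1 := h.hit_prob F p
  have h2 : μ {ω | q p ω ∈ F} ≤ 1 := prob_le_one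
  rw [h1] at h2
  exact ENNReal.ofReal_le_one.1 h2

theorem IsErr.hit_compl (h : IsErr μ q w) (F : Finset ℕ) (p : ℕ) :
    μ {ω | q p ω ∉ F} = ENNReal.ofReal (1 - hit w F p) := by
  have hP : IsProbabilityMeasure μ := h.indep.isProbabilityMeasure
  have h1 : {ω | q p ω ∉ F} = {ω | q p ω ∈ F}ᶜ := rfl
  rw [h1, prob_compl_eq_one_sub (h.hit_meas F p), h.hit_prob, ← ENNReal.ofReal_one,
    ENNReal.ofReal_sub _ (h.hit_nonneg F p)]

/-- almost surely only the `p ≤ b m` are moved to `m` -/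
theorem IsErr.ae_b (h : IsErr μ q w) {b : ℕ → ℕ} (hb : ∀ p m, b m < p → w p m = 0) :
    ∀ᵐ ω ∂μ, ∀ p m, q p ω = m → p ≤ b m := by
  rw [ae_all_iff]
  intro p
  rw [ae_all_iff]
  intro m
  by_cases hp : b m < p
  · have h1 : μ {ω | q p ω = m} = 0 := by
      rw [h.law, hb p m hp, ENNReal.ofReal_zero]
    rw [measure_eq_zero_iff_ae_notMem] at h1
    filter_upwards [h1] with ω hω h2
    exact absurd h2 hω
  · exact Eventually.of_forall fun ω _ => not_lt.1 hp

theorem IsErr.toRV (h : IsErr μ q w) {A : Set ℕ} (hA : A.Infinite) {b : ℕ → ℕ}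
    (hb : ∀ p m, b m < p → w p m = 0) : RV μ (pts A q) (vd A b w) := by
  classical
  have hP : IsProbabilityMeasure μ := h.indep.isProbabilityMeasure
  have hnn : ∀ F p, 0 ≤ 1 - hit w F p := fun F p => by linarith [h.hit_le F p]
  have hmeas : ∀ m, MeasurableSet {ω | m ∈ pts A q ω} := by
    intro m
    have h1 : {ω | m ∈ pts A q ω} = ⋃ p ∈ A, {ω | q p ω = m} := by
      ext ω
      simp [pts]
    rw [h1]
    exact MeasurableSet.biUnion (Set.to_countable A) fun p _ => h.meas p (measurableSet_singleton m)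
  refine ⟨hmeas, ?_, fun F => prod_nonneg fun p _ => hnn F p, fun F => prod_le_one (fun p _ => hnn F p)
    (fun p _ => by linarith [h.hit_nonneg F p]), ?_, ?_⟩
  · intro F
    have h1 : {ω | ∀ m ∈ F, m ∉ pts A q ω} =ᵐ[μ]
        ⋂ p ∈ (range (F.sup b + 1)).filter (· ∈ A), {ω | q p ω ∉ F} := by
      filter_upwards [h.ae_b hb] with ω hω
      apply propext
      constructor
      · intro h2
        change ω ∈ ⋂ p ∈ (range (F.sup b + 1)).filter (· ∈ A), {ω | q p ω ∉ F}
        simp only [Set.mem_iInter]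
        intro p hp h3
        exact h2 _ h3 ⟨p, (mem_filter.1 hp).2, rfl⟩
      · intro h2
        change ω ∈ ⋂ p ∈ (range (F.sup b + 1)).filter (· ∈ A), {ω | q p ω ∉ F} at h2
        simp only [Set.mem_iInter] at h2
        intro m hm h3
        obtain ⟨p, hp, hpm⟩ := h3
        have h4 : p ≤ F.sup b := (hω p m hpm).trans (Finset.le_sup hm)
        apply h2 p (mem_filter.2 ⟨mem_range.2 (by omega), hp⟩)
        rw [hpm]
        exact hm
    rw [measure_congr h1]
    have h2 : (⋂ p ∈ (range (F.sup b + 1)).filter (· ∈ A), {ω | q p ω ∉ F}) =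
        ⋂ p ∈ (range (F.sup b + 1)).filter (· ∈ A), q p ⁻¹' ((F : Set ℕ)ᶜ) := by
      ext ω
      simp
    rw [h2, h.indep.measure_inter_preimage_eq_mul (sets := fun _ => ((F : Set ℕ)ᶜ))
      (_H := fun p _ => (Finset.measurableSet F).compl)]
    unfold vd
    rw [ENNReal.ofReal_prod_of_nonneg fun p _ => hnn F p]
    refine prod_congr rfl fun p _ => ?_
    rw [← h.hit_compl F p]
    congr 1
  · intro F G hFG
    set B := max (max (F.sup b) (G.sup b)) ((F ∪ G).sup b) with hB
    rw [vd_eq hb (F := F) (B := B) (by omega), vd_eq hb (F := G) (B := B) (by omega),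
      vd_eq hb (F := F ∪ G) (B := B) (by omega), ← prod_mul_distrib]
    apply prod_le_prod (fun p _ => hnn _ p)
    intro p _
    have h1 : hit w (F ∪ G) p = hit w F p + hit w G p := sum_union hFG
    rw [h1]
    have := mul_nonneg (h.hit_nonneg F p) (h.hit_nonneg G p)
    nlinarith
  · filter_upwards [h.ae_b hb] with ω hω
    by_contra hcon
    rw [Set.not_infinite] at hcon
    apply hA
    apply (Set.finite_Iic (hcon.toFinset.sup b)).subset
    intro p hp
    have h1 : q p ω ∈ pts A q ω := ⟨p, hp, rfl⟩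
    exact (hω p _ rfl).trans (Finset.le_sup (hcon.mem_toFinset.2 h1))

end

end Q198.PP
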