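import Pool.Agent.Q198.PP.P2

/-! # Uniform errors: basic estimates for the void probabilities -/

set_option autoImplicit false

namespace Q198.PP

open Filter Finset MeasureTheory ProbabilityTheory
open scoped ENNReal Topology

/-- `q p` is uniform on `[p, p + H p]` -/
noncomputable def wU (H : ℕ → ℕ) (p m : ℕ) : ℝ := if p ≤ m ∧ m ≤ p + H p then 1 / ((H p : ℝ) + 1) else 0

theorem wU_nonneg (H : ℕ → ℕ) (p m : ℕ) : 0 ≤ wU H p m := by
  unfold wU
  split_ifs
  · positivity
  · exact le_rfl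

theorem wU_b (H : ℕ → ℕ) (p m : ℕ) (h : id m < p) : wU H p m = 0 := by
  unfold wU
  rw [if_neg]
  simp only [id] at h
  omega

/-- the part of the window `(n, n + t]` that `q p` can reach -/
def ovl (H : ℕ → ℕ) (p n t : ℕ) : ℕ := (Ioc n (n + t) ∩ Icc p (p + H p)).card

theorem hit_wU (H : ℕ → ℕ) (p n t : ℕ) : hit (wU H) (Ioc n (n + t)) p = (ovl H p n t : ℝ) / ((H p : ℝ) + 1) := by
  classical
  unfold hit wU ovl
  rw [← Finset.sum_filter, Finset.sum_const, nsmul_eq_mul, mul_one_div]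
  congr 3
  ext m
  simp only [mem_filter, mem_inter, mem_Icc]

theorem ovl_le (H : ℕ → ℕ) (p n t : ℕ) : ovl H p n t ≤ t := by
  unfold ovl
  refine (card_le_card inter_subset_left).trans ?_
  rw [Nat.card_Ioc]
  omega

theorem ovl_zero {H : ℕ → ℕ} {p n t : ℕ} (h : n + t < p ∨ p + H p ≤ n) : ovl H p n t = 0 := by
  unfold ovl
  rw [card_eq_zero, eq_empty_iff_forall_notMem]
  intro m hm
  rw [mem_inter, mem_Ioc, mem_Icc] at hm
  omega

theorem ovl_eq {H : ℕ → ℕ} {p n t : ℕ} (h1 : p ≤ n + 1) (h2 : n + t ≤ p + H p) : ovl H p n t = t := by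
  unfold ovl
  have : Ioc n (n + t) ∩ Icc p (p + H p) = Ioc n (n + t) := by
    apply inter_eq_left.2
    intro m hm
    rw [mem_Ioc] at hm
    rw [mem_Icc]
    omega
  rw [this, Nat.card_Ioc]
  omega

/-- double counting -/
theorem sum_ovl_le (H : ℕ → ℕ) (p t : ℕ) (N : Finset ℕ) : ∑ n ∈ N, ovl H p n t ≤ t * (H p + 1) := by
  classical
  have h1 : ∀ n ∈ N, ovl H p n t = ∑ m ∈ Icc p (p + H p), if m ∈ Ioc n (n + t) then 1 else 0 := by
    intro n _
    unfold ovl
    rw [inter_comm, ← Finset.filter_mem_eq_inter, Finset.card_filter]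
  rw [sum_congr rfl h1, sum_comm]
  have h2 : ∀ m ∈ Icc p (p + H p), (∑ n ∈ N, if m ∈ Ioc n (n + t) then 1 else 0) ≤ t := by
    intro m _
    rw [← Finset.card_filter]
    have h3 : N.filter (fun n => m ∈ Ioc n (n + t)) ⊆ Ico (m - t) m := by
      intro n hn
      rw [mem_filter, mem_Ioc] at hn
      rw [mem_Ico]
      omega
    refine (card_le_card h3).trans ?_
    rw [Nat.card_Ico]
    omega
  refine (sum_le_card_nsmul _ _ _ h2).trans ?_
  rw [Nat.card_Icc, smul_eq_mul]
  have : p + H p + 1 - p = H p + 1 := by omega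
  rw [this, mul_comm]

theorem sum_hit_le (H : ℕ → ℕ) (p t : ℕ) (N : Finset ℕ) :
    ∑ n ∈ N, hit (wU H) (Ioc n (n + t)) p ≤ t := by
  have h1 : ∑ n ∈ N, hit (wU H) (Ioc n (n + t)) p = (∑ n ∈ N, (ovl H p n t : ℝ)) / ((H p : ℝ) + 1) := by
    rw [sum_div]
    exact sum_congr rfl fun n _ => hit_wU H p n t
  rw [h1, div_le_iff₀ (by positivity)]
  exact_mod_cast sum_ovl_le H p t N

theorem hit_wU_nonneg (H : ℕ → ℕ) (p n t : ℕ) : 0 ≤ hit (wU H) (Ioc n (n + t)) p := by
  rw [hit_wU]
  positivity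

/-- convexity of `- log (1 - x)` -/
theorem exp_chord {r x K : ℝ} (hr0 : 0 < r) (hr1 : r < 1) (hK : K * r = - Real.log (1 - r)) (hx0 : 0 ≤ x)
    (hx : x ≤ r) : Real.exp (- (K * x)) ≤ 1 - x := by
  have h1 := convexOn_exp.2 (Set.mem_univ (0 : ℝ)) (Set.mem_univ (- (K * r)))
    (show (0 : ℝ) ≤ 1 - x / r by
      rw [sub_nonneg, div_le_one hr0]
      exact hx) (show (0 : ℝ) ≤ x / r by positivity) (by ring)
  simp only [smul_eq_mul, mul_zero, zero_add, Real.exp_zero, mul_one] at h1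
  have h2 : x / r * (-(K * r)) = -(K * x) := by field_simp
  rw [h2, hK, neg_neg, Real.exp_log (by linarith)] at h1
  refine h1.trans (le_of_eq ?_)
  field_simp
  ring

/-- Jensen's inequality for the exponential -/
theorem jensen_exp {N : Finset ℕ} {a : ℕ → ℝ} {s : ℝ} (hN : N.Nonempty) (hs : ∑ n ∈ N, a n ≤ s) :
    (N.card : ℝ) * Real.exp (- (s / N.card)) ≤ ∑ n ∈ N, Real.exp (- a n) := by
  have hc : (0 : ℝ) < N.card := by exact_mod_cast hN.card_pos
  set x := s / N.card with hx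
  have h1 : ∀ n ∈ N, Real.exp (-x) * (1 + (x - a n)) ≤ Real.exp (- a n) := by
    intro n _
    have h2 : Real.exp (- a n) = Real.exp (-x) * Real.exp (x - a n) := by
      rw [← Real.exp_add]
      congr 1
      ring
    rw [h2]
    apply mul_le_mul_of_nonneg_left _ (Real.exp_pos _).le
    have := Real.add_one_le_exp (x - a n)
    linarith
  refine le_trans ?_ (sum_le_sum h1)
  rw [← mul_sum, sum_add_distrib, sum_sub_distrib, sum_const, sum_const, nsmul_eq_mul, nsmul_eq_mul, mul_one]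
  have h3 : (N.card : ℝ) * x = s := by
    rw [hx]
    field_simp
  rw [h3]
  have h4 := Real.exp_pos (-x)
  nlinarith

open Classical in
/-- lower bound for the sum of the void probabilities -/
theorem sum_vd_lower {A : Set ℕ} {H : ℕ → ℕ} {t : ℕ} {N PW : Finset ℕ} {K : ℝ} (hK : 0 ≤ K)
    (hN : N.Nonempty)
    (h1 : ∀ n ∈ N, ∀ p ∈ PW, Real.exp (- (K * hit (wU H) (Ioc n (n + t)) p)) ≤
      1 - hit (wU H) (Ioc n (n + t)) p)
    (h2 : ∀ n ∈ N, ∀ p ∈ A, p ≤ n + t → n < p + H p → p ∈ PW) :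
    (N.card : ℝ) * Real.exp (- (K * t * PW.card / N.card)) ≤ ∑ n ∈ N, vd A id (wU H) (Ioc n (n + t)) := by
  have h3 : ∀ n ∈ N, Real.exp (- (K * ∑ p ∈ PW, hit (wU H) (Ioc n (n + t)) p)) ≤
      vd A id (wU H) (Ioc n (n + t)) := by
    intro n hn
    rw [mul_sum, ← sum_neg_distrib, Real.exp_sum]
    rw [vd_eq (fun p m h => wU_b H p m h) (B := n + t) (by
      apply Finset.sup_le
      intro m hm
      simp only [id]
      exact (mem_Ioc.1 hm).2)]
    -- drop the primes without contribution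
    have h4 : ∏ p ∈ (range (n + t + 1)).filter (· ∈ A), (1 - hit (wU H) (Ioc n (n + t)) p) =
        ∏ p ∈ PW ∩ (range (n + t + 1)).filter (· ∈ A), (1 - hit (wU H) (Ioc n (n + t)) p) := by
      symm
      apply prod_subset inter_subset_right
      intro p hp hp2
      have h5 : p ∉ PW := fun h => hp2 (mem_inter.2 ⟨h, hp⟩)
      rw [mem_filter, mem_range] at hp
      have h6 : p + H p ≤ n := by
        by_contra hcon
        exact h5 (h2 n hn p hp.2 (by omega) (by omega))
      rw [hit_wU, ovl_zero (Or.inr h6)]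
      simp
    rw [h4]
    calc ∏ p ∈ PW, Real.exp (-(K * hit (wU H) (Ioc n (n + t)) p))
        ≤ ∏ p ∈ PW ∩ (range (n + t + 1)).filter (· ∈ A), Real.exp (-(K * hit (wU H) (Ioc n (n + t)) p)) := by
          rw [← prod_sdiff (inter_subset_left (s₁ := PW) (s₂ := (range (n + t + 1)).filter (· ∈ A)))]
          have h7 : ∏ p ∈ PW \ (PW ∩ (range (n + t + 1)).filter (· ∈ A)),
              Real.exp (-(K * hit (wU H) (Ioc n (n + t)) p)) ≤ 1 := by
            apply prod_le_one (fun p _ => (Real.exp_pos _).le)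
            intro p _
            rw [Real.exp_le_one_iff]
            have := mul_nonneg hK (hit_wU_nonneg H p n t)
            linarith
          have h8 : 0 ≤ ∏ p ∈ PW ∩ (range (n + t + 1)).filter (· ∈ A),
              Real.exp (-(K * hit (wU H) (Ioc n (n + t)) p)) := prod_nonneg fun p _ => (Real.exp_pos _).le
          exact mul_le_of_le_one_left h8 h7
      _ ≤ _ := by
          apply prod_le_prod (fun p _ => (Real.exp_pos _).le)
          intro p hp
          exact h1 n hn p (mem_inter.1 hp).1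
  refine le_trans ?_ (sum_le_sum h3)
  apply jensen_exp hN
  rw [← mul_sum, sum_comm, mul_assoc]
  apply mul_le_mul_of_nonneg_left _ hK
  refine (sum_le_sum fun p _ => sum_hit_le H p t N).trans ?_
  rw [sum_const, nsmul_eq_mul, mul_comm]

end Q198.PP
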