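import Pool.Agent.Q198.PP.P3
import Pool.Agent.H442R2.EHI.PntErr

/-! # Counting primes in intervals with the prime number theorem -/

set_option autoImplicit false

namespace Q198.PP

open Filter Finset MeasureTheory ProbabilityTheory
open scoped ENNReal Topology
open Pool.Agent.Q110.RS (tlog log_nat_nonneg pow_growth lpw lpw_nonneg log_ge_one)

/-- the primes in `(a, b]` -/
def prs (a b : ℕ) : Finset ℕ := (Ioc a b).filter Nat.Prime

theorem theta_sub {a b : ℕ} (hab : a ≤ b) :
    Chebyshev.theta (b : ℝ) - Chebyshev.theta (a : ℝ) = ∑ p ∈ prs a b, Real.log p := by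
  unfold Chebyshev.theta prs
  rw [Nat.floor_natCast, Nat.floor_natCast]
  have h1 : (Ioc 0 b).filter Nat.Prime = (Ioc 0 a).filter Nat.Prime ∪ (Ioc a b).filter Nat.Prime := by
    ext x
    simp only [mem_filter, mem_union, mem_Ioc]
    constructor
    · rintro ⟨h1, h2⟩
      by_cases h3 : x ≤ a
      · exact Or.inl ⟨⟨h1.1, h3⟩, h2⟩
      · exact Or.inr ⟨⟨by omega, h1.2⟩, h2⟩
    · rintro (⟨h1, h2⟩ | ⟨h1, h2⟩)
      · exact ⟨⟨h1.1, by omega⟩, h2⟩
      · exact ⟨⟨by omega, h1.2⟩, h2⟩
  have h2 : Disjoint ((Ioc 0 a).filter Nat.Prime) ((Ioc a b).filter Nat.Prime) := by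
    rw [disjoint_left]
    intro x hx hx'
    rw [mem_filter, mem_Ioc] at hx hx'
    omega
  rw [h1, sum_union h2]
  ring

theorem card_log_le {a b : ℕ} (ha : 1 ≤ a) (hab : a ≤ b) :
    ((prs a b).card : ℝ) * Real.log a ≤ Chebyshev.theta (b : ℝ) - Chebyshev.theta (a : ℝ) := by
  rw [theta_sub hab, ← nsmul_eq_mul]
  apply card_nsmul_le_sum
  intro p hp
  unfold prs at hp
  rw [mem_filter, mem_Ioc] at hp
  exact Real.log_le_log (by exact_mod_cast ha) (by exact_mod_cast hp.1.1.le)

theorem le_card_log {a b : ℕ} (hab : a ≤ b) :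
    Chebyshev.theta (b : ℝ) - Chebyshev.theta (a : ℝ) ≤ ((prs a b).card : ℝ) * Real.log b := by
  rw [theta_sub hab, ← nsmul_eq_mul]
  apply sum_le_card_nsmul
  intro p hp
  unfold prs at hp
  rw [mem_filter, mem_Ioc] at hp
  exact Real.log_le_log (by exact_mod_cast (by omega : 0 < p)) (by exact_mod_cast hp.1.2)

/-- logarithms in `[X / 2, 4 X]` -/
theorem log_near {b : ℝ} (hb : 1 < b) : ∀ᶠ X : ℕ in atTop, ∀ m : ℕ, (X : ℝ) / 2 ≤ m → (m : ℝ) ≤ 4 * X →
    Real.log X ≤ b * Real.log m ∧ Real.log m ≤ b * Real.log X := by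
  filter_upwards [tlog.eventually_ge_atTop (Real.log 2 / (1 - 1 / b)),
    tlog.eventually_ge_atTop (Real.log 4 / (b - 1)), eventually_gt_atTop 2] with X h1 h2 h3
  intro m hm1 hm2
  have hX0 : (0 : ℝ) < X := by exact_mod_cast (by omega : 0 < X)
  have hm0 : (0 : ℝ) < m := lt_of_lt_of_le (by positivity) hm1
  have hb0 : 0 < b := by linarith
  constructor
  · have h4 : Real.log ((X : ℝ) / 2) ≤ Real.log m := Real.log_le_log (by positivity) hm1
    rw [Real.log_div hX0.ne' (by norm_num)] at h4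
    have h5 : 0 < 1 - 1 / b := by
      rw [sub_pos, div_lt_one hb0]
      exact hb
    rw [div_le_iff₀ h5] at h1
    have h6 : b * (Real.log X - Real.log 2) ≤ b * Real.log m := mul_le_mul_of_nonneg_left h4 hb0.le
    have h7 : b * (Real.log X * (1 - 1 / b)) = b * Real.log X - Real.log X := by
      field_simp
    have h8 := mul_le_mul_of_nonneg_left h1 hb0.le
    linarith
  · have h4 : Real.log m ≤ Real.log (4 * X) := Real.log_le_log hm0 hm2
    rw [Real.log_mul (by norm_num) hX0.ne'] at h4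
    rw [div_le_iff₀ (by linarith)] at h2
    linarith

/-- upper bound for the number of primes in an interval -/
theorem prs_upper {ε : ℝ} (hε : 0 < ε) : ∀ᶠ X : ℕ in atTop, ∀ a B : ℕ, (X : ℝ) / 2 ≤ a → a ≤ B →
    (B : ℝ) ≤ 4 * X → ((prs a B).card : ℝ) * Real.log X ≤ ((B : ℝ) - a + ε * X) * (1 + ε) := by
  obtain ⟨C, hC, h⟩ := Pool.Agent.H442R2.EHI.PntErrAux.thetaU 1
  have hb : (1 : ℝ) < 1 + ε := by linarith
  filter_upwards [log_near hb, eventually_gt_atTop 8, tlog.eventually_ge_atTop (8 * C * (1 + ε) / ε),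
    tlog.eventually_ge_atTop 1] with X h1 h2 h3 h4
  intro a B ha haB hB
  have hX0 : (0 : ℝ) < X := by exact_mod_cast (by omega : 0 < X)
  have hX8 : (8 : ℝ) < X := by exact_mod_cast h2
  have ha4 : (4 : ℝ) ≤ a := by linarith
  have haN : 4 ≤ a := by exact_mod_cast ha4
  have haBr : (a : ℝ) ≤ B := by exact_mod_cast haB
  have e1 := h1 a ha (by linarith)
  have e2 := h1 B (by linarith) hB
  have hlX : 0 < Real.log X := by linarith
  have hla : 0 < Real.log a := by
    by_contra hcon
    push Not at hcon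
    have := mul_nonpos_of_nonneg_of_nonpos (show (0 : ℝ) ≤ 1 + ε by linarith) hcon
    linarith [e1.1]
  have hlB : 0 < Real.log B := lt_of_lt_of_le hla (Real.log_le_log (by linarith) haBr)
  have t1 := abs_le.1 (h a (by omega))
  have t2 := abs_le.1 (h B (by omega))
  have t3 := card_log_le (by omega : 1 ≤ a) haB
  -- the error terms
  have key : ∀ m : ℝ, 0 ≤ m → m ≤ 4 * X → 0 < Real.log m → Real.log X ≤ (1 + ε) * Real.log m →
      C * (m / Real.log m ^ 1) ≤ ε / 2 * X := by
    intro m hm0 hm hlm hm2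
    rw [pow_one]
    have h5 : m / Real.log m ≤ 4 * X * (1 + ε) / Real.log X := by
      rw [div_le_div_iff₀ hlm hlX]
      calc m * Real.log X ≤ 4 * X * ((1 + ε) * Real.log m) := mul_le_mul hm hm2 hlX.le (by positivity)
        _ = _ := by ring
    have h6 : C * (4 * X * (1 + ε) / Real.log X) ≤ ε / 2 * X := by
      rw [← mul_div_assoc, div_le_iff₀ hlX]
      rw [div_le_iff₀ hε] at h3
      have := mul_le_mul_of_nonneg_right h3 hX0.le
      nlinarith
    exact (mul_le_mul_of_nonneg_left h5 hC.le).trans h6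
  have k1 := key a (by linarith) (by linarith) hla e1.1
  have k2 := key B (by linarith) hB hlB e2.1
  have h7 : ((prs a B).card : ℝ) * Real.log a ≤ (B : ℝ) - a + ε * X := by linarith [t1.1, t2.2]
  have h8 : ((prs a B).card : ℝ) * Real.log X ≤ ((prs a B).card : ℝ) * ((1 + ε) * Real.log a) :=
    mul_le_mul_of_nonneg_left e1.1 (Nat.cast_nonneg _)
  nlinarith

/-- lower bound for the number of primes in an interval of length at least `X / (log X)^U`, up to constants -/
theorem prs_lower (A ε : ℝ) (hε : 0 < ε) : ∀ᶠ X : ℕ in atTop, ∀ a B : ℕ, (X : ℝ) / 2 ≤ a → a ≤ B →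
    (B : ℝ) ≤ 4 * X → ((B : ℝ) - a - ε * (X / (Real.log X) ^ A)) ≤
      ((prs a B).card : ℝ) * ((1 + ε) * Real.log X) := by
  obtain ⟨U, hU⟩ : ∃ U : ℕ, A + 1 ≤ U := exists_nat_ge _
  obtain ⟨C, hC, h⟩ := Pool.Agent.H442R2.EHI.PntErrAux.thetaU U
  have hb : (1 : ℝ) < 1 + ε := by linarith
  filter_upwards [log_near hb, eventually_gt_atTop 8,
    tlog.eventually_ge_atTop (8 * C * (1 + ε) ^ U / ε),
    tlog.eventually_ge_atTop 1] with X h1 h2 h3 h4
  intro a B ha haB hB
  have hX0 : (0 : ℝ) < X := by exact_mod_cast (by omega : 0 < X)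
  have hX8 : (8 : ℝ) < X := by exact_mod_cast h2
  have ha4 : (4 : ℝ) ≤ a := by linarith
  have haN : 4 ≤ a := by exact_mod_cast ha4
  have haBr : (a : ℝ) ≤ B := by exact_mod_cast haB
  have e1 := h1 a ha (by linarith)
  have e2 := h1 B (by linarith) hB
  have hlX : 0 < Real.log X := by linarith
  have hla : 0 < Real.log a := by
    by_contra hcon
    push Not at hcon
    have := mul_nonpos_of_nonneg_of_nonpos (show (0 : ℝ) ≤ 1 + ε by linarith) hcon
    linarith [e1.1]
  have hlB : 0 < Real.log B := lt_of_lt_of_le hla (Real.log_le_log (by linarith) haBr)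
  have t1 := abs_le.1 (h a (by omega))
  have t2 := abs_le.1 (h B (by omega))
  have t3 := le_card_log haB
  have key : ∀ m : ℝ, 0 ≤ m → m ≤ 4 * X → 0 < Real.log m → Real.log X ≤ (1 + ε) * Real.log m →
      C * (m / Real.log m ^ U) ≤ ε / 2 * (X / Real.log X ^ A) := by
    intro m hm0 hm hlm hm2
    have h5 : m / Real.log m ^ U ≤ 4 * X * (1 + ε) ^ U / Real.log X ^ U := by
      rw [div_le_div_iff₀ (by positivity) (by positivity)]
      calc m * Real.log X ^ U ≤ 4 * X * ((1 + ε) * Real.log m) ^ U :=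
            mul_le_mul hm (pow_le_pow_left₀ hlX.le hm2 U) (by positivity) (by positivity)
        _ = _ := by rw [mul_pow]; ring
    have h9 : Real.log X ^ A * Real.log X ≤ Real.log X ^ U := by
      rw [← Real.rpow_natCast (Real.log X) U]
      calc Real.log X ^ A * Real.log X = Real.log X ^ (A + 1) := by
            rw [Real.rpow_add hlX, Real.rpow_one]
        _ ≤ _ := Real.rpow_le_rpow_of_exponent_le h4 hU
    have hlA : 0 < Real.log X ^ A := Real.rpow_pos_of_pos hlX A
    have h6 : C * (4 * X * (1 + ε) ^ U / Real.log X ^ U) ≤ ε / 2 * (X / Real.log X ^ A) := by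
      have h10 : 1 / Real.log X ^ U ≤ 1 / (Real.log X ^ A * Real.log X) :=
        one_div_le_one_div_of_le (by positivity) h9
      calc C * (4 * X * (1 + ε) ^ U / Real.log X ^ U) = 4 * C * (1 + ε) ^ U * X * (1 / Real.log X ^ U) := by
            ring
        _ ≤ 4 * C * (1 + ε) ^ U * X * (1 / (Real.log X ^ A * Real.log X)) := by gcongr
        _ = (4 * C * (1 + ε) ^ U / Real.log X) * (X / Real.log X ^ A) := by
            field_simp
        _ ≤ ε / 2 * (X / Real.log X ^ A) := by
            apply mul_le_mul_of_nonneg_right _ (by positivity)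
            rw [div_le_iff₀ hlX]
            rw [div_le_iff₀ hε] at h3
            linarith
    exact (mul_le_mul_of_nonneg_left h5 hC.le).trans h6
  have k1 := key a (by linarith) (by linarith) hla e1.1
  have k2 := key B (by linarith) hB hlB e2.1
  have h7 : (B : ℝ) - a - ε * (X / Real.log X ^ A) ≤ ((prs a B).card : ℝ) * Real.log B := by
    linarith [t1.2, t2.1]
  have h8 : ((prs a B).card : ℝ) * Real.log B ≤ ((prs a B).card : ℝ) * ((1 + ε) * Real.log X) :=
    mul_le_mul_of_nonneg_left e2.2 (Nat.cast_nonneg _)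
  linarith

end Q198.PP
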