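import Pool.Agent.Q198.PP.P4

/-! # Lower bounds for the gaps of the moved primes: all sizes of the errors -/

set_option autoImplicit false

namespace Q198.PP

open Filter Finset MeasureTheory ProbabilityTheory
open scoped ENNReal Topology
open Pool.Agent.Q110.RS (tlog log_nat_nonneg pow_growth lpw lpw_nonneg log_ge_one)

/-- the set of the primes -/
def PR : Set ℕ := {p | p.Prime}

theorem ovl_le' (H : ℕ → ℕ) (p n t : ℕ) : ovl H p n t ≤ H p + 1 := by
  unfold ovl
  refine (card_le_card inter_subset_right).trans ?_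
  rw [Nat.card_Icc]
  omega

theorem hit_mono (H : ℕ → ℕ) {F G : Finset ℕ} (h : F ⊆ G) (p : ℕ) : hit (wU H) F p ≤ hit (wU H) G p :=
  sum_le_sum_of_subset_of_nonneg h fun m _ _ => wU_nonneg H p m

theorem hit_le_one (H : ℕ → ℕ) (n t p : ℕ) : hit (wU H) (Ioc n (n + t)) p ≤ 1 := by
  rw [hit_wU, div_le_one (by positivity)]
  exact_mod_cast ovl_le' H p n t

open Classical in
theorem vd_anti (A : Set ℕ) (H : ℕ → ℕ) {n t t' : ℕ} (h : t ≤ t') :
    vd A id (wU H) (Ioc n (n + t')) ≤ vd A id (wU H) (Ioc n (n + t)) := by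
  have h1 : ∀ s, (Ioc n (n + s)).sup id ≤ n + s := by
    intro s
    apply Finset.sup_le
    intro m hm
    exact (mem_Ioc.1 hm).2
  rw [vd_eq (wU_b H) (h1 t'), vd_eq (wU_b H) (B := n + t') ((h1 t).trans (by omega))]
  apply Finset.prod_le_prod
  · intro p _
    linarith [hit_le_one H n t' p]
  · intro p _
    have := hit_mono H (show Ioc n (n + t) ⊆ Ioc n (n + t') from Ioc_subset_Ioc_right (by omega)) p
    linarith

open Classical in
theorem vd_nonneg (A : Set ℕ) (H : ℕ → ℕ) (n t : ℕ) : 0 ≤ vd A id (wU H) (Ioc n (n + t)) :=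
  prod_nonneg fun p _ => by linarith [hit_le_one H n t p]

theorem lpw_two (n : ℕ) : lpw 2 n = Real.log n ^ 2 := by
  unfold lpw
  exact_mod_cast Real.rpow_natCast (Real.log n) 2

theorem not_summable_all {H : ℕ → ℕ} {c C : ℝ} (hc : 0 < c) (hC : 0 < C)
    (hcC : C < c * (1 - Real.exp (-1 / c))) (hH : ∀ᶠ p : ℕ in atTop, c * Real.log p ^ 2 ≤ H p)
    (hH' : Tendsto (fun p : ℕ => (H p : ℝ) / p) atTop (𝓝 0)) :
    ¬ Summable fun n => Q (lpw 2) (vd PR id (wU H)) C n / lpw 2 n := by
  intro hsum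
  obtain ⟨r, hr1, hr2⟩ : ∃ r, C / c < r ∧ r < 1 - Real.exp (-1 / c) := by
    apply _root_.exists_between
    rw [div_lt_iff₀ hc, mul_comm]
    exact hcC
  have hexp := Real.exp_pos (-1 / c)
  have hr0 : 0 < r := lt_trans (by positivity) hr1
  have hr3 : r < 1 := by linarith
  have hlog : -1 / c < Real.log (1 - r) := by
    rw [Real.lt_log_iff_exp_lt (by linarith)]
    linarith
  have hlog2 : Real.log (1 - r) < 0 := Real.log_neg (by linarith) (by linarith)
  obtain ⟨K, hKd⟩ : ∃ K, K = - Real.log (1 - r) / r := ⟨_, rfl⟩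
  have hKr : K * r = - Real.log (1 - r) := by
    rw [hKd]
    field_simp
  have hK0 : 0 < K := by
    rw [hKd]
    exact div_pos (by linarith) hr0
  have hCrc : C < r * c := by
    rw [div_lt_iff₀ hc] at hr1
    exact hr1
  have hKC : K * C < 1 := by
    have h1 : K * C < K * (r * c) := mul_lt_mul_of_pos_left hCrc hK0
    have h2 : K * (r * c) = - Real.log (1 - r) * c := by rw [← mul_assoc, hKr]
    have h3 : - Real.log (1 - r) * c < 1 := by
      rw [div_lt_iff₀ hc] at hlog
      linarith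
    linarith
  -- the factor b
  obtain ⟨b, hb1, hb2, hb3, hb4⟩ : ∃ b : ℝ, 1 < b ∧ b < 2 ∧ C * b ^ 4 < r * c ∧ K * C * b ^ 3 < 1 := by
    have t1 : Tendsto (fun b : ℝ => C * b ^ 4) (𝓝[>] 1) (𝓝 (C * 1 ^ 4)) :=
      ((continuous_const.mul (continuous_pow 4)).tendsto 1).mono_left nhdsWithin_le_nhds
    have t2 : Tendsto (fun b : ℝ => K * C * b ^ 3) (𝓝[>] 1) (𝓝 (K * C * 1 ^ 3)) :=
      ((continuous_const.mul (continuous_pow 3)).tendsto 1).mono_left nhdsWithin_le_nhds
    have t3 : Tendsto (fun b : ℝ => b) (𝓝[>] 1) (𝓝 1) := tendsto_id.mono_left nhdsWithin_le_nhds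
    obtain ⟨b, h1, h2, h3, h4⟩ := ((t1.eventually_lt_const (by simpa using hCrc)).and
      ((t2.eventually_lt_const (by simpa using hKC)).and
        ((t3.eventually_lt_const (show (1 : ℝ) < 2 by norm_num)).and
          (eventually_nhdsWithin_of_forall (s := Set.Ioi (1 : ℝ)) fun b hb => hb)))).exists
    exact ⟨b, h4, h3, h1, h2⟩
  obtain ⟨ε, hε⟩ : ∃ ε, ε = (b - 1) / 8 := ⟨_, rfl⟩
  have hε0 : 0 < ε := by rw [hε]; linarith
  have hε1 : ε < 1 / 8 := by rw [hε]; linarith
  have hεb : b = 1 + 8 * ε := by rw [hε]; ring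
  -- small primes
  have hH2 : ∀ᶠ p : ℕ in atTop, (H p : ℝ) ≤ ε * p := by
    filter_upwards [hH'.eventually_lt_const hε0, eventually_gt_atTop 0] with p h1 h2
    have hp0 : (0 : ℝ) < p := by exact_mod_cast h2
    rw [div_lt_iff₀ hp0] at h1
    exact h1.le
  obtain ⟨P0, hP0⟩ := eventually_atTop.1 (hH.and hH2)
  obtain ⟨M, hM⟩ : ∃ M : ℕ, ∀ p < P0, p + H p ≤ M :=
    ⟨(range P0).sup (fun p => p + H p), fun p hp => Finset.le_sup (f := fun p => p + H p) (mem_range.2 hp)⟩
  set s := ∑' n, Q (lpw 2) (vd PR id (wU H)) C n / lpw 2 n with hs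
  set σ := K * C * b ^ 3 with hσ
  have hterm : ∀ n, 0 ≤ Q (lpw 2) (vd PR id (wU H)) C n / lpw 2 n := fun n =>
    div_nonneg (vd_nonneg PR H n _) (lpw_nonneg 2 n)
  have ev := ((prs_upper hε0).and ((log_near hb1).and ((eventually_gt_atTop (4 * (M + P0) + 8)).and
    ((pow_growth 2 1 ((C * b ^ 2 + 2) / ε) one_pos).and
      ((pow_growth 2 (1 - σ) (b ^ 2 * (s + 1)) (by linarith)).and (tlog.eventually_ge_atTop 1)))))).exists
  obtain ⟨X, h1, h2, h3, h4, h5, h6⟩ := ev
  have hX0 : (0 : ℝ) < X := by exact_mod_cast (by omega : 0 < X)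
  have hX8 : (8 : ℝ) < X := by exact_mod_cast (by omega : 8 < X)
  set L := Real.log X with hL
  have hL0 : 0 < L := by linarith
  set t := ⌊C * (b * L) ^ 2⌋₊ with ht
  have htr : (t : ℝ) ≤ C * (b * L) ^ 2 := Nat.floor_le (by positivity)
  have htX : (t : ℝ) + 1 ≤ ε * X := by
    have h7 : (C * b ^ 2 + 2) / ε * L ^ (2 : ℝ) < X := by simpa using h4
    have h8 : L ^ (2 : ℝ) = L ^ 2 := by exact_mod_cast Real.rpow_natCast L 2
    rw [h8, div_mul_eq_mul_div, div_lt_iff₀ hε0] at h7
    nlinarith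
  set a := ⌊(1 - ε) * X⌋₊ with ha
  have har : (a : ℝ) ≤ (1 - ε) * X := Nat.floor_le (by nlinarith)
  have har2 : (1 - ε) * X < (a : ℝ) + 1 := Nat.lt_floor_add_one _
  have haX : (X : ℝ) / 2 ≤ a := by nlinarith
  have hcardX : ((prs a (2 * X + t)).card : ℝ) * L ≤ b * X := by
    have h7 := h1 a (2 * X + t) haX (by
      have : (a : ℝ) ≤ ((2 * X + t : ℕ) : ℝ) := by
        push_cast
        nlinarith
      exact_mod_cast this) (by
      push_cast
      nlinarith)
    push_cast at h7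
    refine h7.trans ?_
    rw [hεb]
    have h8 : (2 * (X : ℝ) + t - a + ε * X) ≤ (1 + 3 * ε) * X := by nlinarith
    have h9 : (2 * (X : ℝ) + t - a + ε * X) * (1 + ε) ≤ ((1 + 3 * ε) * X) * (1 + ε) :=
      mul_le_mul_of_nonneg_right h8 (by linarith)
    nlinarith [mul_pos hε0 hX0, mul_pos (mul_pos hε0 hε0) hX0]
  have hNcard : (Ioc X (2 * X)).card = X := by
    rw [Nat.card_Ioc]
    omega
  have hNne : (Ioc X (2 * X)).Nonempty := by
    rw [← card_pos, hNcard]
    omega
  have main := sum_vd_lower (A := PR) (H := H) (t := t) (N := Ioc X (2 * X)) (PW := prs a (2 * X + t))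
    hK0.le hNne (by
      intro n hn p hp
      apply exp_chord hr0 hr3 hKr (hit_wU_nonneg H p n t)
      rw [hit_wU, div_le_iff₀ (by positivity)]
      unfold prs at hp
      rw [mem_filter, mem_Ioc] at hp
      have hpa : (a : ℝ) ≤ p := by exact_mod_cast hp.1.1.le
      have hpP : P0 ≤ p := by
        have h7 : (P0 : ℝ) ≤ p := by
          have h8 : (4 * (M + P0) + 8 : ℝ) < X := by exact_mod_cast h3
          have : (0 : ℝ) ≤ M := Nat.cast_nonneg M
          linarith
        exact_mod_cast h7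
      have h7 := (hP0 p hpP).1
      have h8 := (h2 p (by linarith) (by
        have : (p : ℝ) ≤ 2 * X + t := by exact_mod_cast hp.1.2
        linarith)).1
      have h9 : (ovl H p n t : ℝ) ≤ t := by exact_mod_cast ovl_le H p n t
      have hlp : 0 < Real.log p := by
        by_contra hcon
        push Not at hcon
        have := mul_nonpos_of_nonneg_of_nonpos (show (0 : ℝ) ≤ b by linarith) hcon
        linarith
      have h10 : L ^ 2 ≤ (b * Real.log p) ^ 2 := pow_le_pow_left₀ hL0.le h8 2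
      have h11 : C * (b * L) ^ 2 ≤ C * b ^ 4 * Real.log p ^ 2 := by
        calc C * (b * L) ^ 2 = C * b ^ 2 * L ^ 2 := by ring
          _ ≤ C * b ^ 2 * (b * Real.log p) ^ 2 := mul_le_mul_of_nonneg_left h10 (by positivity)
          _ = _ := by ring
      have h12 : C * b ^ 4 * Real.log p ^ 2 ≤ r * c * Real.log p ^ 2 :=
        mul_le_mul_of_nonneg_right hb3.le (by positivity)
      have h13 : r * (c * Real.log p ^ 2) ≤ r * H p := mul_le_mul_of_nonneg_left h7 hr0.le
      nlinarith)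
    (by
      intro n hn p hp hpn hnp
      rw [mem_Ioc] at hn
      unfold prs
      rw [mem_filter, mem_Ioc]
      refine ⟨⟨?_, by omega⟩, hp⟩
      have hpP : P0 ≤ p := by
        by_contra hcon
        have := hM p (by omega)
        omega
      have h7 := (hP0 p hpP).2
      have h8 : (X : ℝ) < p + H p := by exact_mod_cast lt_trans hn.1 hnp
      have h9 : (a : ℝ) < p := by
        have h10 : (X : ℝ) < (1 + ε) * p := by linarith
        nlinarith
      exact_mod_cast h9)
  rw [hNcard] at main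
  have hexpo : K * t * (prs a (2 * X + t)).card / X ≤ σ * L := by
    rw [div_le_iff₀ hX0]
    have h7 : (t : ℝ) * (prs a (2 * X + t)).card ≤ C * (b * L) ^ 2 * (prs a (2 * X + t)).card :=
      mul_le_mul_of_nonneg_right htr (Nat.cast_nonneg _)
    have h8 : C * (b * L) ^ 2 * (prs a (2 * X + t)).card ≤ C * b ^ 3 * L * X := by
      calc C * (b * L) ^ 2 * (prs a (2 * X + t)).card = C * b ^ 2 * L * ((prs a (2 * X + t)).card * L) := by
            ring
        _ ≤ C * b ^ 2 * L * (b * X) := mul_le_mul_of_nonneg_left hcardX (by positivity)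
        _ = _ := by ring
    calc K * t * (prs a (2 * X + t)).card = K * ((t : ℝ) * (prs a (2 * X + t)).card) := by ring
      _ ≤ K * (C * b ^ 3 * L * X) := mul_le_mul_of_nonneg_left (h7.trans h8) hK0.le
      _ = σ * L * X := by rw [hσ]; ring
  have hlow : (X : ℝ) ^ (1 - σ) ≤ ∑ n ∈ Ioc X (2 * X), vd PR id (wU H) (Ioc n (n + t)) := by
    refine le_trans ?_ main
    have h7 : (X : ℝ) ^ (1 - σ) = X * Real.exp (-(σ * L)) := by
      rw [Real.rpow_sub hX0, Real.rpow_one, Real.rpow_def_of_pos hX0, Real.exp_neg, ← hL, mul_comm σ L]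
      field_simp
    rw [h7]
    apply mul_le_mul_of_nonneg_left _ hX0.le
    apply Real.exp_le_exp.2
    linarith
  -- comparison with the series
  have hup : ∑ n ∈ Ioc X (2 * X), vd PR id (wU H) (Ioc n (n + t)) ≤ (b * L) ^ 2 * s := by
    have h7 : ∀ n ∈ Ioc X (2 * X), vd PR id (wU H) (Ioc n (n + t)) ≤
        (b * L) ^ 2 * (Q (lpw 2) (vd PR id (wU H)) C n / lpw 2 n) := by
      intro n hn
      rw [mem_Ioc] at hn
      have hnX : (X : ℝ) < n := by exact_mod_cast hn.1
      have hn2 : (n : ℝ) ≤ 2 * X := by exact_mod_cast hn.2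
      obtain ⟨g1, g2⟩ := h2 n (by linarith) (by linarith)
      have hln : 0 < Real.log n := lt_of_lt_of_le hL0 (Real.log_le_log hX0 hnX.le)
      have h8 : Real.log n ^ 2 ≤ (b * L) ^ 2 := pow_le_pow_left₀ hln.le g2 2
      rw [lpw_two]
      have h9 : vd PR id (wU H) (Ioc n (n + t)) ≤ Q (lpw 2) (vd PR id (wU H)) C n := by
        unfold Q
        apply vd_anti
        rw [lpw_two]
        exact Nat.floor_le_floor (mul_le_mul_of_nonneg_left h8 hC.le)
      have h10 : 0 ≤ Q (lpw 2) (vd PR id (wU H)) C n := vd_nonneg PR H n _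
      rw [mul_div_assoc', le_div_iff₀ (by positivity)]
      calc vd PR id (wU H) (Ioc n (n + t)) * Real.log n ^ 2
          ≤ Q (lpw 2) (vd PR id (wU H)) C n * (b * L) ^ 2 := mul_le_mul h9 h8 (by positivity) h10
        _ = _ := by ring
    refine (sum_le_sum h7).trans ?_
    rw [← mul_sum]
    exact mul_le_mul_of_nonneg_left (hsum.sum_le_tsum _ fun n _ => hterm n) (by positivity)
  have h8 : L ^ (2 : ℝ) = L ^ 2 := by exact_mod_cast Real.rpow_natCast L 2
  rw [h8] at h5
  have h9 := hlow.trans hup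
  have h10 : 0 < (b * L) ^ 2 := by positivity
  nlinarith

end Q198.PP
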