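import Pool.Agent.Q198.PP.P5

/-! # Upper bounds for the gaps of the moved primes -/

set_option autoImplicit false

namespace Q198.PP

open Filter Finset MeasureTheory ProbabilityTheory
open scoped ENNReal Topology
open Pool.Agent.Q110.RS (tlog log_nat_nonneg pow_growth lpw lpw_nonneg log_ge_one)

theorem vd_upper {A : Set ℕ} {H : ℕ → ℕ} {n t : ℕ} {P : Finset ℕ}
    (hP : ∀ p ∈ P, p ∈ A ∧ p ≤ n ∧ n + t ≤ p + H p) :
    vd A id (wU H) (Ioc n (n + t)) ≤ Real.exp (- (t * ∑ p ∈ P, 1 / ((H p : ℝ) + 1))) := by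
  classical
  rw [vd_eq (wU_b H) (B := n + t) (by
    apply Finset.sup_le
    intro m hm
    exact (mem_Ioc.1 hm).2)]
  have h1 : P ⊆ (range (n + t + 1)).filter (· ∈ A) := by
    intro p hp
    rw [mem_filter, mem_range]
    exact ⟨by have := (hP p hp).2.1; omega, (hP p hp).1⟩
  have h2 : ∏ p ∈ (range (n + t + 1)).filter (· ∈ A), (1 - hit (wU H) (Ioc n (n + t)) p) ≤
      ∏ p ∈ P, (1 - hit (wU H) (Ioc n (n + t)) p) := by
    rw [← prod_sdiff h1]
    apply mul_le_of_le_one_left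
    · exact prod_nonneg fun p _ => by linarith [hit_le_one H n t p]
    · exact prod_le_one (fun p _ => by linarith [hit_le_one H n t p])
        (fun p _ => by linarith [hit_wU_nonneg H p n t])
  refine h2.trans ?_
  rw [mul_sum, ← sum_neg_distrib, Real.exp_sum]
  apply Finset.prod_le_prod
  · intro p _
    linarith [hit_le_one H n t p]
  · intro p hp
    have h3 : hit (wU H) (Ioc n (n + t)) p = t * (1 / ((H p : ℝ) + 1)) := by
      rw [hit_wU, ovl_eq (by have := (hP p hp).2.1; omega) (hP p hp).2.2, mul_one_div]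
    rw [h3]
    have := Real.add_one_le_exp (- (t * (1 / ((H p : ℝ) + 1))))
    linarith

/-- upper bound from a density -/
theorem summable_of_dens {A : Set ℕ} {H : ℕ → ℕ} {C D : ℝ} (hC : 0 < C) (hD : 0 < D) (hCD : 1 < C * D)
    (h : ∀ᶠ n : ℕ in atTop, ∃ P : Finset ℕ, (∀ p ∈ P, p ∈ A ∧ p ≤ n ∧ n + ⌊C * Real.log n ^ 2⌋₊ ≤ p + H p) ∧
      D / Real.log n ≤ ∑ p ∈ P, 1 / ((H p : ℝ) + 1)) :
    Summable fun n => Q (lpw 2) (vd A id (wU H)) C n / lpw 2 n := by
  obtain ⟨ε, hε, hε2⟩ : ∃ ε : ℝ, 0 < ε ∧ 1 + 2 * ε < C * D := ⟨(C * D - 1) / 4, by linarith, by linarith⟩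
  have hs : Summable fun n : ℕ => (n : ℝ) ^ (-(1 + ε)) := Real.summable_nat_rpow.2 (by linarith)
  apply Summable.of_norm_bounded_eventually_nat hs
  filter_upwards [h, tlog.eventually_ge_atTop 1, tlog.eventually_ge_atTop (D / ε), eventually_gt_atTop 0]
    with n ⟨P, hP, hPs⟩ h1 h2 h3
  have hn0 : (0 : ℝ) < n := by exact_mod_cast h3
  set l := Real.log n with hl
  have hl0 : 0 < l := by linarith
  rw [lpw_two]
  have hV0 : 0 ≤ Q (lpw 2) (vd A id (wU H)) C n := vd_nonneg A H n _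
  rw [Real.norm_of_nonneg (div_nonneg hV0 (sq_nonneg _))]
  have h4 : Q (lpw 2) (vd A id (wU H)) C n / l ^ 2 ≤ Q (lpw 2) (vd A id (wU H)) C n :=
    div_le_self hV0 (by nlinarith)
  refine h4.trans ?_
  unfold Q
  rw [lpw_two]
  refine (vd_upper hP).trans ?_
  rw [Real.rpow_def_of_pos hn0]
  apply Real.exp_le_exp.2
  have h5 := Nat.lt_floor_add_one (C * l ^ 2)
  set t := ⌊C * l ^ 2⌋₊ with ht
  have h6 : (C * l ^ 2 - 1) * (D / l) ≤ t * ∑ p ∈ P, 1 / ((H p : ℝ) + 1) := by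
    have h7 : (C * l ^ 2 - 1) * (D / l) ≤ t * (D / l) :=
      mul_le_mul_of_nonneg_right (by linarith) (by positivity)
    exact h7.trans (mul_le_mul_of_nonneg_left hPs (Nat.cast_nonneg _))
  have h7 : (C * l ^ 2 - 1) * (D / l) = C * D * l - D / l := by
    field_simp
  have h8 : D / l ≤ ε := by
    rw [div_le_iff₀ hl0]
    rw [div_le_iff₀ hε] at h2
    linarith
  have h9 : (1 + 2 * ε) * l ≤ C * D * l := mul_le_mul_of_nonneg_right hε2.le hl0.le
  have h10 : ε ≤ ε * l := le_mul_of_one_le_right hε.le h1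
  rw [h7] at h6
  nlinarith

/-- errors of size `p / (log p)^A` -/
theorem summable_log {A C : ℝ} (hA : 0 < A) (hC : 1 < C) :
    Summable fun n => Q (lpw 2) (vd PR id (wU (fun p => ⌊(p : ℝ) / Real.log p ^ A⌋₊))) C n / lpw 2 n := by
  -- ε with C (1 - 4 ε) / (1 + ε)^2 > 1
  obtain ⟨ε, hε, hε1, hε2⟩ : ∃ ε : ℝ, 0 < ε ∧ ε < 1 / 8 ∧ 1 < C * ((1 - 4 * ε) / ((1 + ε) * (1 + ε))) := by
    have t1 : Tendsto (fun ε : ℝ => C * ((1 - 4 * ε) / ((1 + ε) * (1 + ε)))) (𝓝[>] 0)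
        (𝓝 (C * ((1 - 4 * 0) / ((1 + 0) * (1 + 0))))) := by
      apply Tendsto.mono_left _ nhdsWithin_le_nhds
      apply ContinuousAt.tendsto
      apply ContinuousAt.mul continuousAt_const
      apply ContinuousAt.div (by fun_prop) (by fun_prop) (by norm_num)
    have t2 : Tendsto (fun ε : ℝ => ε) (𝓝[>] 0) (𝓝 0) := tendsto_id.mono_left nhdsWithin_le_nhds
    obtain ⟨ε, h1, h2, h3⟩ := ((t1.eventually_const_lt (show 1 < C * ((1 - 4 * 0) / ((1 + 0) * (1 + 0))) by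
        norm_num; exact hC)).and
      ((t2.eventually_lt_const (show (0 : ℝ) < 1 / 8 by norm_num)).and
        (eventually_nhdsWithin_of_forall (s := Set.Ioi (0 : ℝ)) fun ε hε => hε))).exists
    exact ⟨ε, h3, h2, h1⟩
  have hD : 0 < (1 - 4 * ε) / ((1 + ε) * (1 + ε)) := div_pos (by linarith) (by positivity)
  apply summable_of_dens (D := (1 - 4 * ε) / ((1 + ε) * (1 + ε))) (by linarith) hD hε2
  -- b with b ^ A ≤ 1 + ε / 2
  obtain ⟨b, hb, hbA⟩ : ∃ b : ℝ, 1 < b ∧ b ^ A < 1 + ε / 2 := by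
    have t1 : Tendsto (fun b : ℝ => b ^ A) (𝓝[>] 1) (𝓝 (1 ^ A)) :=
      ((Real.continuousAt_rpow_const 1 A (Or.inl one_ne_zero)).tendsto).mono_left nhdsWithin_le_nhds
    obtain ⟨b, h1, h2⟩ := ((t1.eventually_lt_const (show (1 : ℝ) ^ A < 1 + ε / 2 by
        rw [Real.one_rpow]; linarith)).and
      (eventually_nhdsWithin_of_forall (s := Set.Ioi (1 : ℝ)) fun b hb => hb)).exists
    exact ⟨b, h2, h1⟩
  have tA : Tendsto (fun n : ℕ => Real.log n ^ A) atTop atTop := (tendsto_rpow_atTop hA).comp tlog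
  filter_upwards [prs_lower A ε hε, log_near hb, tlog.eventually_ge_atTop 1, tA.eventually_ge_atTop (4 / ε),
    pow_growth A 1 (4 / ε) one_pos, pow_growth (A + 2) 1 (8 * (C + 2) / ε) one_pos, eventually_gt_atTop 2]
    with n h1 h2 h3 h4 h5 h6 h7
  have hn0 : (0 : ℝ) < n := by exact_mod_cast (by omega : 0 < n)
  set l := Real.log n with hl
  have hl0 : 0 < l := by linarith
  rw [Real.rpow_one] at h5 h6
  set LA := l ^ A with hLA
  have hLA0 : 0 < LA := Real.rpow_pos_of_pos hl0 A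
  set h := (n : ℝ) / LA with hh
  have hh0 : 0 < h := div_pos hn0 hLA0
  have hhe : h ≤ ε / 4 * n := by
    rw [hh, div_le_iff₀ hLA0]
    have : 1 ≤ ε / 4 * LA := by
      rw [div_le_iff₀ hε] at h4
      linarith
    nlinarith
  have hh4 : 4 / ε ≤ h := by
    rw [hh, le_div_iff₀ hLA0]
    exact h5.le
  have hh4' : 1 ≤ ε / 4 * h := by
    rw [div_le_iff₀ hε] at hh4
    linarith
  -- the interval
  set d := ⌊(1 - ε) * h⌋₊ with hd
  have hd1 : (d : ℝ) ≤ (1 - ε) * h := Nat.floor_le (by nlinarith)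
  have hd2 : (1 - ε) * h < (d : ℝ) + 1 := Nat.lt_floor_add_one _
  have hdn : d ≤ n := by
    have : (d : ℝ) ≤ n := by nlinarith
    exact_mod_cast this
  have hdn2 : (d : ℝ) ≤ n / 2 := by nlinarith
  have htn : ((⌊C * l ^ 2⌋₊ : ℕ) : ℝ) + 2 ≤ ε / 4 * h := by
    have h8 : ((⌊C * l ^ 2⌋₊ : ℕ) : ℝ) ≤ C * l ^ 2 := Nat.floor_le (by positivity)
    have h9 : l ^ (A + 2) = LA * l ^ 2 := by
      rw [Real.rpow_add hl0, hLA]
      congr 1
      exact_mod_cast Real.rpow_natCast l 2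
    rw [h9] at h6
    have h10 : 8 * (C + 2) / ε * l ^ 2 ≤ h := by
      rw [hh, le_div_iff₀ hLA0]
      calc 8 * (C + 2) / ε * l ^ 2 * LA = 8 * (C + 2) / ε * (LA * l ^ 2) := by ring
        _ ≤ (n : ℝ) := h6.le
    have h11 : 8 * (C + 2) * l ^ 2 ≤ ε * h := by
      have : 8 * (C + 2) / ε * l ^ 2 = 8 * (C + 2) * l ^ 2 / ε := by ring
      rw [this, div_le_iff₀ hε] at h10
      linarith
    have h12 : 1 ≤ l ^ 2 := by nlinarith
    nlinarith
  -- bounds for H p
  have hH : ∀ p : ℕ, n - d < p → p ≤ n → (1 - ε / 2) * h ≤ (p : ℝ) / Real.log p ^ A ∧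
      (p : ℝ) / Real.log p ^ A ≤ (1 + ε / 2) * h := by
    intro p hp1 hp2
    have hp3 : (n : ℝ) - d ≤ p := by
      have : (n : ℝ) ≤ p + d := by exact_mod_cast (by omega : n ≤ p + d)
      linarith
    have hp4 : (n : ℝ) / 2 ≤ p := by linarith
    have hp5 : (p : ℝ) ≤ n := by exact_mod_cast hp2
    have hp0 : (0 : ℝ) < p := by linarith
    obtain ⟨e1, e2⟩ := h2 p hp4 (by linarith)
    have hlp0 : 0 < Real.log p := by
      have : 0 < b * Real.log p := by linarith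
      exact (pos_iff_pos_of_mul_pos this).1 (by linarith)
    have hlpA : 0 < Real.log p ^ A := Real.rpow_pos_of_pos hlp0 A
    constructor
    · rw [le_div_iff₀ hlpA]
      have e3 : Real.log p ^ A ≤ LA :=
        Real.rpow_le_rpow hlp0.le (Real.log_le_log hp0 hp5) hA.le
      have e4 : (1 - ε / 2) * h * Real.log p ^ A ≤ (1 - ε / 2) * h * LA :=
        mul_le_mul_of_nonneg_left e3 (by nlinarith)
      have e5 : h * LA = n := by
        rw [hh]
        field_simp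
      have e6 : (1 - ε / 2) * h * LA = (1 - ε / 2) * n := by rw [mul_assoc, e5]
      nlinarith
    · rw [div_le_iff₀ hlpA]
      have e3 : LA ≤ b ^ A * Real.log p ^ A := by
        rw [← Real.mul_rpow (by linarith) hlp0.le]
        exact Real.rpow_le_rpow hl0.le e1 hA.le
      have e5 : h * LA = n := by
        rw [hh]
        field_simp
      have e6 : LA ≤ (1 + ε / 2) * Real.log p ^ A :=
        e3.trans (mul_le_mul_of_nonneg_right hbA.le hlpA.le)
      calc (p : ℝ) ≤ h * LA := by linarith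
        _ ≤ h * ((1 + ε / 2) * Real.log p ^ A) := mul_le_mul_of_nonneg_left e6 hh0.le
        _ = _ := by ring
  refine ⟨prs (n - d) n, ?_, ?_⟩
  · intro p hp
    unfold prs at hp
    rw [mem_filter, mem_Ioc] at hp
    refine ⟨hp.2, hp.1.2, ?_⟩
    obtain ⟨e1, -⟩ := hH p hp.1.1 hp.1.2
    have e2 := Nat.lt_floor_add_one ((p : ℝ) / Real.log p ^ A)
    have e3 : (n : ℝ) ≤ p + d := by exact_mod_cast (by omega : n ≤ p + d)
    have e4 : ((n + ⌊C * l ^ 2⌋₊ : ℕ) : ℝ) ≤ ((p + ⌊(p : ℝ) / Real.log p ^ A⌋₊ : ℕ) : ℝ) := by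
      push_cast
      nlinarith
    exact_mod_cast e4
  · have e1 : ∀ p ∈ prs (n - d) n, 1 / ((1 + ε) * h) ≤
        1 / (((⌊(p : ℝ) / Real.log p ^ A⌋₊ : ℕ) : ℝ) + 1) := by
      intro p hp
      unfold prs at hp
      rw [mem_filter, mem_Ioc] at hp
      obtain ⟨-, e2⟩ := hH p hp.1.1 hp.1.2
      apply one_div_le_one_div_of_le (by positivity)
      have e3 : ((⌊(p : ℝ) / Real.log p ^ A⌋₊ : ℕ) : ℝ) ≤ (p : ℝ) / Real.log p ^ A :=
        Nat.floor_le (div_nonneg (Nat.cast_nonneg _) (Real.rpow_nonneg (log_nat_nonneg p) A))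
      nlinarith
    refine le_trans ?_ (card_nsmul_le_sum _ _ _ e1)
    rw [nsmul_eq_mul]
    have e2 := h1 (n - d) n (by
      rw [Nat.cast_sub hdn]
      linarith) (Nat.sub_le _ _) (by linarith)
    rw [Nat.cast_sub hdn] at e2
    have e3 : (1 - 4 * ε) * h ≤ ((prs (n - d) n).card : ℝ) * ((1 + ε) * l) := by
      refine le_trans ?_ e2
      have : (n : ℝ) - (n - d) - ε * (n / LA) = d - ε * h := by ring
      rw [this]
      nlinarith
    rw [mul_one_div, div_le_div_iff₀ hl0 (by positivity)]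
    have e4 : (1 - 4 * ε) / ((1 + ε) * (1 + ε)) * ((1 + ε) * h) = (1 - 4 * ε) * h / (1 + ε) := by
      field_simp
    rw [e4, div_le_iff₀ (by linarith)]
    calc (1 - 4 * ε) * h ≤ ((prs (n - d) n).card : ℝ) * ((1 + ε) * l) := e3
      _ = _ := by ring

end Q198.PP
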