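import Pool.Agent.Q198.PP.P8

/-! # Errors of size `p ^ θ`: finiteness of the gap constant and primes in short intervals -/

set_option autoImplicit false

namespace Q198.PP

open Filter Finset MeasureTheory ProbabilityTheory
open scoped ENNReal Topology
open Pool.Agent.Q110.RS (tlog log_nat_nonneg pow_growth lpw lpw_nonneg log_ge_one)

/-- the number of primes in `(n - n ^ θ, n]` -/
noncomputable def cntS (θ : ℝ) (n : ℕ) : ℕ := (prs (n - ⌊(n : ℝ) ^ θ⌋₊) n).card

theorem rpow_sub_lower {n y θ : ℝ} (hn : 0 < n) (hy0 : 0 ≤ y) (hy : y < n) (hθ1 : θ ≤ 1) :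
    n ^ θ - n ^ (θ - 1) * y ≤ (n - y) ^ θ := by
  have h1 : n - y = n * (1 - y / n) := by field_simp
  have h2 : 0 < 1 - y / n := by
    rw [sub_pos, div_lt_one hn]
    exact hy
  rw [h1, Real.mul_rpow hn.le h2.le]
  have h3 : (1 - y / n) ≤ (1 - y / n) ^ θ := by
    nth_rewrite 1 [← Real.rpow_one (1 - y / n)]
    exact Real.rpow_le_rpow_of_exponent_ge h2 (by
      have : 0 ≤ y / n := by positivity
      linarith) hθ1
  have h4 : n ^ θ - n ^ (θ - 1) * y = n ^ θ * (1 - y / n) := by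
    rw [Real.rpow_sub_one hn.ne']
    field_simp
  rw [h4]
  exact mul_le_mul_of_nonneg_left h3 (Real.rpow_nonneg hn.le _)

theorem summable_pow {θ η : ℝ} (hθ : 0 < θ) (hθ1 : θ < 1) (hη : 0 < η)
    (h : ∀ᶠ n : ℕ in atTop, η * (n : ℝ) ^ θ ≤ (cntS θ n : ℝ) * Real.log n) :
    Summable fun n => Q (lpw 2) (vd PR id (wU (fun p => ⌊(p : ℝ) ^ θ⌋₊))) (4 / η) n / lpw 2 n := by
  apply summable_of_dens (D := η / 3) (by positivity) (by positivity) (by
    have : 4 / η * (η / 3) = 4 / 3 := by field_simp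
    rw [this]
    norm_num)
  have tθ : Tendsto (fun n : ℕ => (n : ℝ) ^ θ) atTop atTop := (tendsto_rpow_atTop hθ).comp tendsto_natCast_atTop_atTop
  filter_upwards [h, pow_growth 1 (1 - θ) (8 / η) (by linarith), pow_growth 3 θ (8 * (4 / η + 2) / η) hθ,
    pow_growth 1 θ (24 / η) hθ, tlog.eventually_ge_atTop 1, tθ.eventually_ge_atTop 8, pow_growth 0 (1 - θ) 2 (by linarith),
    eventually_gt_atTop 2] with n h1 h2 h3 h4 h5 h6 h7 h8
  have hn0 : (0 : ℝ) < n := by exact_mod_cast (by omega : 0 < n)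
  set l := Real.log n with hl
  have hl0 : 0 < l := by linarith
  rw [Real.rpow_one] at h2 h4
  rw [Real.rpow_zero, mul_one] at h7
  set T := (n : ℝ) ^ θ with hT
  have hT0 : 0 < T := by positivity
  set d := ⌊T⌋₊ with hd
  have hd1 : (d : ℝ) ≤ T := Nat.floor_le hT0.le
  have hn1 : (n : ℝ) = T * (n : ℝ) ^ (1 - θ) := by
    rw [hT, ← Real.rpow_add hn0]
    simp
  have hTn : 2 * T < n := by
    calc 2 * T < (n : ℝ) ^ (1 - θ) * T := mul_lt_mul_of_pos_right h7 hT0
      _ = n := by rw [mul_comm]; exact hn1.symm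
  have hdn : d ≤ n := by
    have : (d : ℝ) ≤ n := by linarith
    exact_mod_cast this
  set C := 4 / η with hC
  have hC0 : 0 < C := by positivity
  set t := ⌊C * l ^ 2⌋₊ with ht
  have ht1 : (t : ℝ) ≤ C * l ^ 2 := Nat.floor_le (by positivity)
  set r := ⌊η * T / (4 * l)⌋₊ + 1 with hr
  have hr1 : (r : ℝ) ≤ η * T / (4 * l) + 1 := by
    rw [hr]
    push_cast
    have := Nat.floor_le (show 0 ≤ η * T / (4 * l) by positivity)
    linarith
  have hr2 : η * T / (4 * l) < r := by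
    rw [hr]
    push_cast
    exact Nat.lt_floor_add_one _
  have hl3 : l ^ (3 : ℝ) = l ^ 3 := by exact_mod_cast Real.rpow_natCast l 3
  rw [hl3] at h3
  -- t + 2 ≤ η T / (8 l)
  have e1 : (t : ℝ) + 2 ≤ η * T / (8 * l) := by
    rw [le_div_iff₀ (by positivity)]
    have e2 : 8 * (C + 2) * l ^ 3 ≤ η * T := by
      have e3 : 8 * (C + 2) / η * l ^ 3 = 8 * (C + 2) * l ^ 3 / η := by ring
      rw [e3] at h3
      have := (div_le_iff₀ hη).1 h3.le
      linarith
    have e4 : ((t : ℝ) + 2) * (8 * l) ≤ (C * l ^ 2 + 2) * (8 * l) :=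
      mul_le_mul_of_nonneg_right (by linarith) (by positivity)
    have e5 : l ≤ l ^ 3 := by
      have : 1 ≤ l ^ 2 := by nlinarith
      nlinarith
    nlinarith
  -- n ^ (2 θ - 1) ≤ η T / (8 l)
  have e2 : (n : ℝ) ^ (θ - 1) * T ≤ η * T / (8 * l) := by
    rw [le_div_iff₀ (by positivity)]
    have e3 : (n : ℝ) ^ (θ - 1) * (n : ℝ) ^ (1 - θ) = 1 := by
      rw [← Real.rpow_add hn0]
      simp
    have e4 : 8 * l ≤ η * (n : ℝ) ^ (1 - θ) := by
      have : 8 / η * l = 8 * l / η := by ring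
      rw [this] at h2
      have := (div_le_iff₀ hη).1 h2.le
      linarith
    have e5 : 0 < (n : ℝ) ^ (θ - 1) := by positivity
    calc (n : ℝ) ^ (θ - 1) * T * (8 * l) ≤ (n : ℝ) ^ (θ - 1) * T * (η * (n : ℝ) ^ (1 - θ)) :=
          mul_le_mul_of_nonneg_left e4 (by positivity)
      _ = η * T * ((n : ℝ) ^ (θ - 1) * (n : ℝ) ^ (1 - θ)) := by ring
      _ = η * T := by rw [e3, mul_one]
  have e12 : η * T / (4 * l) = η * T / (8 * l) + η * T / (8 * l) := by
    field_simp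
    norm_num
  refine ⟨prs (n - d + r) n, ?_, ?_⟩
  · intro p hp
    unfold prs at hp
    rw [mem_filter, mem_Ioc] at hp
    refine ⟨hp.2, hp.1.2, ?_⟩
    have e3 : (n : ℝ) - d + r ≤ p := by
      have : (n : ℝ) + r ≤ p + d := by exact_mod_cast (by omega : n + r ≤ p + d)
      linarith
    have e4 : (n : ℝ) - T ≤ p := by
      have := Nat.cast_nonneg (α := ℝ) r
      linarith
    have e5 : T - (n : ℝ) ^ (θ - 1) * T ≤ (p : ℝ) ^ θ :=
      (rpow_sub_lower hn0 hT0.le (by linarith) hθ1.le).trans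
        (Real.rpow_le_rpow (by linarith) e4 hθ.le)
    have e6 := Nat.lt_floor_add_one ((p : ℝ) ^ θ)
    have e7 : ((n + t : ℕ) : ℝ) ≤ ((p + ⌊(p : ℝ) ^ θ⌋₊ : ℕ) : ℝ) := by
      push_cast
      linarith
    exact_mod_cast e7
  · have e3 : ∀ p ∈ prs (n - d + r) n, 1 / (T + 1) ≤ 1 / (((⌊(p : ℝ) ^ θ⌋₊ : ℕ) : ℝ) + 1) := by
      intro p hp
      unfold prs at hp
      rw [mem_filter, mem_Ioc] at hp
      apply one_div_le_one_div_of_le (by positivity)
      have e4 : ((⌊(p : ℝ) ^ θ⌋₊ : ℕ) : ℝ) ≤ (p : ℝ) ^ θ := Nat.floor_le (by positivity)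
      have e5 : (p : ℝ) ^ θ ≤ T := Real.rpow_le_rpow (Nat.cast_nonneg _) (by exact_mod_cast hp.1.2) hθ.le
      linarith
    refine le_trans ?_ (card_nsmul_le_sum _ _ _ e3)
    rw [nsmul_eq_mul]
    have e4 : cntS θ n ≤ (prs (n - d + r) n).card + r := by
      have e5 : prs (n - d) n ⊆ prs (n - d + r) n ∪ Ioc (n - d) (n - d + r) := by
        intro p hp
        unfold prs at hp ⊢
        rw [mem_union, mem_filter, mem_Ioc, mem_Ioc]
        rw [mem_filter, mem_Ioc] at hp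
        by_cases e6 : p ≤ n - d + r
        · exact Or.inr ⟨hp.1.1, e6⟩
        · exact Or.inl ⟨⟨by omega, hp.1.2⟩, hp.2⟩
      refine (card_le_card e5).trans ((card_union_le _ _).trans ?_)
      rw [Nat.card_Ioc]
      omega
    have e5 : (cntS θ n : ℝ) ≤ (prs (n - d + r) n).card + r := by exact_mod_cast e4
    have e6 : η * T / l ≤ cntS θ n := by
      rw [div_le_iff₀ hl0]
      exact h1
    have e7 : (1 : ℝ) ≤ η * T / (24 * l) := by
      rw [le_div_iff₀ (by positivity)]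
      have : 24 / η * l = 24 * l / η := by ring
      rw [this] at h4
      have := (div_le_iff₀ hη).1 h4.le
      linarith
    have e8 : η * T / l - η * T / (4 * l) - η * T / (24 * l) ≤ (prs (n - d + r) n).card := by linarith
    have e9 : η * T / l - η * T / (4 * l) - η * T / (24 * l) = 17 / 24 * (η * T / l) := by
      field_simp
      norm_num
    rw [e9] at e8
    rw [mul_one_div, div_le_div_iff₀ hl0 (by positivity)]
    have e10 : 17 / 24 * (η * T / l) * l = 17 / 24 * (η * T) := by field_simp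
    have e11 : 17 / 24 * (η * T) ≤ ((prs (n - d + r) n).card : ℝ) * l := by
      rw [← e10]
      exact mul_le_mul_of_nonneg_right e8 hl0.le
    have e13 : T + 1 ≤ 9 / 8 * T := by linarith
    nlinarith

theorem one_sub_ge_exp {x : ℝ} (h0 : 0 ≤ x) (h1 : x ≤ 1 / 2) : Real.exp (- (2 * x)) ≤ 1 - x := by
  have h2 := Real.add_one_le_exp (2 * x)
  have h3 : Real.exp (- (2 * x)) * Real.exp (2 * x) = 1 := by
    rw [← Real.exp_add]
    simp
  have h4 := Real.exp_pos (- (2 * x))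
  have h5 : 1 ≤ (1 - x) * Real.exp (2 * x) := by
    have : (1 - x) * (2 * x + 1) ≤ (1 - x) * Real.exp (2 * x) :=
      mul_le_mul_of_nonneg_left h2 (by linarith)
    nlinarith
  calc Real.exp (- (2 * x)) = Real.exp (- (2 * x)) * 1 := (mul_one _).symm
    _ ≤ Real.exp (- (2 * x)) * ((1 - x) * Real.exp (2 * x)) := mul_le_mul_of_nonneg_left h5 h4.le
    _ = (1 - x) * (Real.exp (- (2 * x)) * Real.exp (2 * x)) := by ring
    _ = 1 - x := by rw [h3, mul_one]

theorem vd_lower_card {A : Set ℕ} {H : ℕ → ℕ} {n t : ℕ} {PW : Finset ℕ} {h₀ : ℝ} (h0 : 0 ≤ h₀)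
    (h0' : h₀ ≤ 1 / 2)
    (h1 : ∀ p ∈ A, p ≤ n + t → n < p + H p → p ∈ PW ∧ hit (wU H) (Ioc n (n + t)) p ≤ h₀) :
    Real.exp (- (2 * h₀ * PW.card)) ≤ vd A id (wU H) (Ioc n (n + t)) := by
  classical
  rw [vd_eq (wU_b H) (B := n + t) (by
    apply Finset.sup_le
    intro m hm
    exact (mem_Ioc.1 hm).2)]
  set R := (range (n + t + 1)).filter (· ∈ A) with hR
  have h2 : ∏ p ∈ R, (1 - hit (wU H) (Ioc n (n + t)) p) =
      ∏ p ∈ PW ∩ R, (1 - hit (wU H) (Ioc n (n + t)) p) := by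
    symm
    apply prod_subset inter_subset_right
    intro p hp hp2
    have h5 : p ∉ PW := fun h => hp2 (mem_inter.2 ⟨h, hp⟩)
    rw [hR, mem_filter, mem_range] at hp
    have h6 : p + H p ≤ n := by
      by_contra hcon
      exact h5 (h1 p hp.2 (by omega) (by omega)).1
    rw [hit_wU, ovl_zero (Or.inr h6)]
    simp
  rw [h2]
  have h3 : ∀ p ∈ PW ∩ R, Real.exp (- (2 * h₀)) ≤ 1 - hit (wU H) (Ioc n (n + t)) p := by
    intro p hp
    rw [mem_inter, hR, mem_filter, mem_range] at hp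
    have h4 : hit (wU H) (Ioc n (n + t)) p ≤ h₀ := by
      rcases lt_or_ge n (p + H p) with h5 | h5
      · exact (h1 p hp.2.2 (by omega) h5).2
      · rw [hit_wU, ovl_zero (Or.inr h5)]
        simpa using h0
    have h5 := one_sub_ge_exp h0 h0'
    linarith
  calc Real.exp (- (2 * h₀ * PW.card)) ≤ Real.exp (- (2 * h₀)) ^ (PW ∩ R).card := by
        rw [← Real.exp_nat_mul]
        apply Real.exp_le_exp.2
        have h4 : ((PW ∩ R).card : ℝ) ≤ PW.card := by exact_mod_cast card_le_card inter_subset_left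
        nlinarith
    _ = ∏ p ∈ PW ∩ R, Real.exp (- (2 * h₀)) := by rw [prod_const]
    _ ≤ _ := Finset.prod_le_prod (fun p _ => (Real.exp_pos _).le) h3

theorem rpow_add_upper {x y θ : ℝ} (hx : 1 ≤ x) (hy : 0 ≤ y) (hθ : 0 ≤ θ) (hθ1 : θ ≤ 1) :
    (x + y) ^ θ ≤ x ^ θ + y := by
  have hx0 : 0 < x := by linarith
  have h1 : x + y = x * (1 + y / x) := by field_simp
  have h2 : 1 ≤ 1 + y / x := by
    have : 0 ≤ y / x := by positivity
    linarith
  have h3 : (1 + y / x) ^ θ ≤ 1 + y / x := by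
    nth_rewrite 2 [← Real.rpow_one (1 + y / x)]
    exact Real.rpow_le_rpow_of_exponent_le h2 hθ1
  have h4 : x ^ θ ≤ x := by
    nth_rewrite 2 [← Real.rpow_one x]
    exact Real.rpow_le_rpow_of_exponent_le hx hθ1
  rw [h1, Real.mul_rpow hx0.le (by linarith)]
  calc x ^ θ * (1 + y / x) ^ θ ≤ x ^ θ * (1 + y / x) := mul_le_mul_of_nonneg_left h3 (by positivity)
    _ = x ^ θ + x ^ θ * (y / x) := by ring
    _ ≤ x ^ θ + x * (y / x) := by
        have : x ^ θ * (y / x) ≤ x * (y / x) := mul_le_mul_of_nonneg_right h4 (by positivity)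
        linarith
    _ = x ^ θ + y := by field_simp

theorem dens_of_summable {θ C : ℝ} (hθ : 0 < θ) (hθ1 : θ < 1) (hC : 0 < C)
    (hs : Summable fun n => Q (lpw 2) (vd PR id (wU (fun p => ⌊(p : ℝ) ^ θ⌋₊))) C n / lpw 2 n) :
    ∃ η : ℝ, 0 < η ∧ ∀ᶠ n : ℕ in atTop, η * (n : ℝ) ^ θ ≤ (cntS θ n : ℝ) * Real.log n := by
  obtain ⟨ε, hε⟩ : ∃ ε, ε = θ / (24 * C) := ⟨_, rfl⟩
  have hε0 : 0 < ε := by rw [hε]; positivity
  refine ⟨ε, hε0, ?_⟩
  by_contra hcon
  have hf : ∃ᶠ n : ℕ in atTop, (cntS θ n : ℝ) * Real.log n < ε * (n : ℝ) ^ θ := by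
    rw [Filter.not_eventually] at hcon
    exact hcon.mono fun n hn => not_le.1 hn
  set H : ℕ → ℕ := fun p => ⌊(p : ℝ) ^ θ⌋₊ with hH
  set F : ℕ → ℝ := fun n => Q (lpw 2) (vd PR id (wU H)) C n / lpw 2 n with hF
  have hF0 : ∀ n, 0 ≤ F n := fun n => div_nonneg (vd_nonneg PR H n _) (lpw_nonneg 2 n)
  obtain ⟨s, hsd⟩ : ∃ s, s = ∑' n, F n := ⟨_, rfl⟩
  have hs0 : 0 ≤ s := by rw [hsd]; exact tsum_nonneg hF0
  obtain ⟨x, g1, g2, g3, g4, g5, g6, g7, g8⟩ := (hf.and_eventually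
    ((tlog.eventually_ge_atTop 1).and ((pow_growth 2 θ (4 * C) hθ).and
    ((pow_growth 3 (θ / 2) (2 / ε * (s + 1)) (by linarith)).and
    ((pow_growth 3 θ (4 * (2 * C + 3) / ε) hθ).and
    ((pow_growth 0 (1 - θ) (8 * (1 + ε)) (by linarith)).and ((pow_growth 2 1 (8 * (C + 1)) one_pos).and
    (eventually_gt_atTop 8)))))))).exists
  have hx0 : (0 : ℝ) < x := by exact_mod_cast (by omega : 0 < x)
  have hx1 : (1 : ℝ) ≤ x := by exact_mod_cast (by omega : 1 ≤ x)
  have hx8 : (8 : ℝ) < x := by exact_mod_cast g8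
  set l := Real.log x with hl
  have hl0 : 0 < l := by linarith
  rw [Real.rpow_zero, mul_one] at g6
  rw [Real.rpow_one] at g7
  have hl2 : l ^ (2 : ℝ) = l ^ 2 := by exact_mod_cast Real.rpow_natCast l 2
  have hl3 : l ^ (3 : ℝ) = l ^ 3 := by exact_mod_cast Real.rpow_natCast l 3
  rw [hl2] at g3 g7
  rw [hl3] at g4 g5
  set T := (x : ℝ) ^ θ with hT
  have hT0 : 0 < T := by positivity
  set d := ⌊T⌋₊ with hd
  have hd1 : (d : ℝ) ≤ T := Nat.floor_le hT0.le
  have hd2 : T < (d : ℝ) + 1 := Nat.lt_floor_add_one _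
  have hn1 : (x : ℝ) = T * (x : ℝ) ^ (1 - θ) := by
    rw [hT, ← Real.rpow_add hx0]
    simp
  have hTn : 8 * (1 + ε) * T < x := by
    calc 8 * (1 + ε) * T < (x : ℝ) ^ (1 - θ) * T := mul_lt_mul_of_pos_right g6 hT0
      _ = x := by rw [mul_comm]; exact hn1.symm
  have hTε : 0 < ε * T := by positivity
  set w := ⌊ε * T / l⌋₊ with hw
  have hw1 : (w : ℝ) ≤ ε * T / l := Nat.floor_le (by positivity)
  have hw2 : ε * T / l < (w : ℝ) + 1 := Nat.lt_floor_add_one _
  set t₁ := ⌊C * l ^ 2⌋₊ with ht₁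
  have ht₁1 : (t₁ : ℝ) ≤ C * l ^ 2 := Nat.floor_le (by positivity)
  have hl21 : 1 ≤ l ^ 2 := by nlinarith
  -- ε T / l large
  have k1 : 4 * (2 * C + 3) * l ^ 2 ≤ ε * T / l := by
    rw [le_div_iff₀ hl0]
    have : 4 * (2 * C + 3) / ε * l ^ 3 = 4 * (2 * C + 3) * l ^ 3 / ε := by ring
    rw [this] at g5
    have := (div_le_iff₀ hε0).1 g5.le
    nlinarith
  have k0 : ε * T / l ≤ ε * T := div_le_self hTε.le g2
  have hwx : (w : ℝ) ≤ x / 8 := by linarith
  have htx : (t₁ : ℝ) ≤ x / 8 := by nlinarith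
  -- the primes involved
  set PW := prs (x - (d + w + t₁ + 1)) (x + t₁) with hPW
  have hPWc : (PW.card : ℝ) ≤ 3 * (ε * T / l) := by
    have e1 : PW.card ≤ cntS θ x + ((w + t₁ + 1) + t₁) := by
      have e2 : PW ⊆ prs (x - d) x ∪ (Ioc (x - (d + w + t₁ + 1)) (x - d) ∪ Ioc x (x + t₁)) := by
        intro p hp
        rw [hPW] at hp
        unfold prs at hp ⊢
        rw [mem_union, mem_union, mem_filter, mem_Ioc, mem_Ioc, mem_Ioc]
        rw [mem_filter, mem_Ioc] at hp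
        by_cases e3 : p ≤ x - d
        · exact Or.inr (Or.inl ⟨hp.1.1, e3⟩)
        · by_cases e4 : p ≤ x
          · exact Or.inl ⟨⟨by omega, e4⟩, hp.2⟩
          · exact Or.inr (Or.inr ⟨by omega, hp.1.2⟩)
      refine (card_le_card e2).trans ((card_union_le _ _).trans ?_)
      apply Nat.add_le_add (le_of_eq rfl)
      refine (card_union_le _ _).trans ?_
      rw [Nat.card_Ioc, Nat.card_Ioc]
      omega
    have e2 : (PW.card : ℝ) ≤ (cntS θ x : ℝ) + ((w + t₁ + 1) + t₁) := by exact_mod_cast e1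
    have e3 : (cntS θ x : ℝ) ≤ ε * T / l := by
      rw [le_div_iff₀ hl0]
      exact g1.le
    have e4 : 2 * (t₁ : ℝ) + 1 ≤ ε * T / l := by nlinarith
    linarith
  set h₀ := 2 * C * l ^ 2 / T with hh₀
  have hh₀0 : 0 ≤ h₀ := by positivity
  have hh₀1 : h₀ ≤ 1 / 2 := by
    rw [hh₀, div_le_iff₀ hT0]
    linarith
  -- the lower bound for the void probabilities
  have hV : ∀ n ∈ Ioc (x - w) x, (x : ℝ) ^ (- (θ / 2)) ≤ vd PR id (wU H) (Ioc n (n + t₁)) := by
    intro n hn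
    rw [mem_Ioc] at hn
    have hnx : (n : ℝ) ≤ x := by exact_mod_cast hn.2
    have hnw : (x : ℝ) - w ≤ n := by
      have : (x : ℝ) ≤ n + w := by exact_mod_cast (by omega : x ≤ n + w)
      linarith
    refine le_trans ?_ (vd_lower_card (PW := PW) hh₀0 hh₀1 ?_)
    · rw [Real.rpow_def_of_pos hx0]
      apply Real.exp_le_exp.2
      have e1 : 2 * h₀ * PW.card ≤ 2 * h₀ * (3 * (ε * T / l)) :=
        mul_le_mul_of_nonneg_left hPWc (by positivity)
      have e2 : 2 * h₀ * (3 * (ε * T / l)) = l * (θ / 2) := by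
        rw [hh₀, hε]
        field_simp
        ring
      linarith
    · intro p hpP hp1 hp2
      have e1 : (p : ℝ) ≤ x + t₁ := by exact_mod_cast (by omega : p ≤ x + t₁)
      have e2 : (p : ℝ) ^ θ ≤ T + t₁ :=
        (Real.rpow_le_rpow (Nat.cast_nonneg _) e1 hθ.le).trans
          (rpow_add_upper hx1 (Nat.cast_nonneg _) hθ.le hθ1.le)
      have e3 : (H p : ℝ) ≤ (p : ℝ) ^ θ := Nat.floor_le (by positivity)
      have e4 : (n : ℝ) < p + H p := by exact_mod_cast hp2
      have e5 : x < p + (d + w + t₁ + 1) := by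
        have : (x : ℝ) < ((p + (d + w + t₁ + 1) : ℕ) : ℝ) := by
          push_cast
          linarith
        exact_mod_cast this
      constructor
      · rw [hPW]
        unfold prs
        rw [mem_filter, mem_Ioc]
        have hpP' : p.Prime := hpP
        have := hpP'.pos
        exact ⟨⟨by omega, by omega⟩, hpP⟩
      · rw [hit_wU, div_le_iff₀ (by positivity)]
        have e6 : (ovl H p n t₁ : ℝ) ≤ t₁ := by exact_mod_cast ovl_le H p n t₁
        have e7 : (x : ℝ) / 2 ≤ p := by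
          have : T + t₁ ≤ x / 4 := by
            have : 8 * T ≤ x := by nlinarith
            linarith
          linarith
        have e8 : T / 2 ≤ (p : ℝ) ^ θ := by
          have e9 : ((x : ℝ) / 2) ^ θ ≤ (p : ℝ) ^ θ := Real.rpow_le_rpow (by positivity) e7 hθ.le
          have e10 : T / 2 ≤ ((x : ℝ) / 2) ^ θ := by
            rw [Real.div_rpow hx0.le (by norm_num)]
            apply div_le_div_of_nonneg_left hT0.le (by positivity)
            calc (2 : ℝ) ^ θ ≤ 2 ^ (1 : ℝ) := Real.rpow_le_rpow_of_exponent_le (by norm_num) hθ1.le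
              _ = 2 := Real.rpow_one 2
          linarith
        have e9 : (p : ℝ) ^ θ < H p + 1 := Nat.lt_floor_add_one _
        have e10 : C * l ^ 2 = h₀ * (T / 2) := by
          rw [hh₀]
          field_simp
        calc (ovl H p n t₁ : ℝ) ≤ h₀ * (T / 2) := by linarith
          _ ≤ h₀ * ((H p : ℝ) + 1) := mul_le_mul_of_nonneg_left (by linarith) hh₀0
  have hsum : (w : ℝ) * ((x : ℝ) ^ (- (θ / 2)) / l ^ 2) ≤ s := by
    have e1 : ∀ n ∈ Ioc (x - w) x, (x : ℝ) ^ (- (θ / 2)) / l ^ 2 ≤ F n := by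
      intro n hn
      have e2 := hV n hn
      rw [mem_Ioc] at hn
      have hnx : (n : ℝ) ≤ x := by exact_mod_cast hn.2
      have hnw : (x : ℝ) - w ≤ n := by
        have : (x : ℝ) ≤ n + w := by exact_mod_cast (by omega : x ≤ n + w)
        linarith
      have hn1 : (1 : ℝ) < n := by linarith
      have hln : 0 < Real.log n := Real.log_pos hn1
      have hln2 : Real.log n ≤ l := Real.log_le_log (by linarith) hnx
      have e3 : Real.log n ^ 2 ≤ l ^ 2 := pow_le_pow_left₀ hln.le hln2 2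
      have e4 : vd PR id (wU H) (Ioc n (n + t₁)) ≤ Q (lpw 2) (vd PR id (wU H)) C n := by
        unfold Q
        apply vd_anti
        rw [lpw_two]
        exact Nat.floor_le_floor (mul_le_mul_of_nonneg_left e3 hC.le)
      simp only [hF]
      rw [lpw_two]
      have e5 : 0 ≤ (x : ℝ) ^ (- (θ / 2)) := by positivity
      exact div_le_div₀ (e5.trans (e2.trans e4)) (e2.trans e4) (by positivity) e3
    have e2 := card_nsmul_le_sum (Ioc (x - w) x) F _ e1
    rw [Nat.card_Ioc, nsmul_eq_mul] at e2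
    have e3 : x - (x - w) = w := by
      have : w ≤ x := by
        have : (w : ℝ) ≤ x := by linarith
        exact_mod_cast this
      omega
    rw [e3] at e2
    refine e2.trans ?_
    rw [hsd]
    exact hs.sum_le_tsum _ fun n _ => hF0 n
  -- contradiction
  have q1 : ε * T / (2 * l) ≤ w := by
    have e1 : ε * T / (2 * l) = ε * T / l / 2 := by
      field_simp
    rw [e1]
    nlinarith
  have q2 : T * (x : ℝ) ^ (- (θ / 2)) = (x : ℝ) ^ (θ / 2) := by
    rw [hT, ← Real.rpow_add hx0]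
    congr 1
    ring
  have q3 : ε * T / (2 * l) * ((x : ℝ) ^ (- (θ / 2)) / l ^ 2) ≤ s :=
    le_trans (mul_le_mul_of_nonneg_right q1 (by positivity)) hsum
  have q4 : ε * T / (2 * l) * ((x : ℝ) ^ (- (θ / 2)) / l ^ 2) = ε * (x : ℝ) ^ (θ / 2) / (2 * l ^ 3) := by
    rw [← q2]
    field_simp
  rw [q4, div_le_iff₀ (by positivity)] at q3
  have q5 : 2 / ε * (s + 1) * l ^ 3 = 2 * (s + 1) * l ^ 3 / ε := by ring
  rw [q5] at g4
  have q6 := (div_lt_iff₀ hε0).1 g4
  have q7 : 0 < l ^ 3 := by positivity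
  nlinarith

end Q198.PP
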